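import Mathlib
import Pool.Agent.Lib.H69.Hopf.Defs

/-!
# H2K: definitions (formal complex Gaussian vectors)

`stdG`: standard complex Gaussian measure on `ℂ` (density `exp(-|z|²)/π`), `muG r`: its product on `r → ℂ`.
`WW M N G H = E G(M g) conj(H(N g))` for polynomials `G`, `H`: it depends only on `M Nᴴ` (file G4).
`W β G H = WW β 1 G H`: the value on `G(κ) conj(H(κ))` of the FORMAL complex Gaussian vector `κ` with covariance
`E κ_a conj(κ_b) = β a b` (`β` Hermitian, not necessarily positive).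
`qf β ξ = E |∑ ξ_a κ_a|²`.
`hPf n`: `2^n n!` times the Pfaffian, as a polynomial in the entries of a `2n × 2n` matrix (it sees only the
skew part).  `DD m i`: the minor `det κ(p, m+q)`, `p, q < i`.
-/

open MeasureTheory MvPolynomial

namespace H2K

/-- the standard complex Gaussian measure on `ℂ` -/
noncomputable def stdG : Measure ℂ :=
  (volume : Measure ℂ).withDensity fun z => ENNReal.ofReal (Real.exp (-‖z‖ ^ 2) / Real.pi)

/-- the standard complex Gaussian measure on `r → ℂ` -/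
noncomputable def muG (r : Type) [Fintype r] : Measure (r → ℂ) := Measure.pi fun _ => stdG

/-- `E G(M g) conj(H(N g))` -/
noncomputable def WW {ι ι' r : Type} [Fintype r] (M : Matrix ι r ℂ) (N : Matrix ι' r ℂ)
    (G : MvPolynomial ι ℂ) (H : MvPolynomial ι' ℂ) : ℂ :=
  ∫ g, eval (M.mulVec g) G * (starRingEnd ℂ) (eval (N.mulVec g) H) ∂muG r

/-- the formal Gaussian functional with covariance `β` -/
noncomputable def W {ι : Type} [Fintype ι] [DecidableEq ι] (β : Matrix ι ι ℂ)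
    (G H : MvPolynomial ι ℂ) : ℂ :=
  WW β (1 : Matrix ι ι ℂ) G H

/-- `E |∑ ξ_a κ_a|²` -/
noncomputable def qf {ι : Type} [Fintype ι] (β : Matrix ι ι ℂ) (ξ : ι → ℂ) : ℂ :=
  ∑ a, ∑ b, ξ a * (starRingEnd ℂ) (ξ b) * β a b

/-- the index `j` of `Fin (2 n)` (used for `j < 2 n` only) -/
def ix (n : ℕ) [NeZero n] (j : ℕ) : Fin (2 * n) :=
  ⟨j % (2 * n), Nat.mod_lt _ (by have := Nat.pos_of_ne_zero (NeZero.ne n); omega)⟩

/-- `2^n n!` times the Pfaffian -/
noncomputable def hPf (n : ℕ) : MvPolynomial (Fin (2 * n) × Fin (2 * n)) ℂ :=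
  ∑ σ : Equiv.Perm (Fin (2 * n)), C ((((Equiv.Perm.sign σ : ℤ)) : ℂ)) *
    ∏ i : Fin n, X (σ (Pool.Agent.H69Hopf.fst i), σ (Pool.Agent.H69Hopf.snd i))

/-- the minor `det κ(p, m + q)`, `p, q < i` -/
noncomputable def DD (n : ℕ) [NeZero n] (m i : ℕ) : MvPolynomial (Fin (2 * n) × Fin (2 * n)) ℂ :=
  Matrix.det (Matrix.of fun p q : Fin i => (X (ix n p, ix n (m + q)) :
    MvPolynomial (Fin (2 * n) × Fin (2 * n)) ℂ))

/-- the polynomial of stage `s` -/
noncomputable def FF (n : ℕ) [NeZero n] (k s : ℕ) : MvPolynomial (Fin (2 * n) × Fin (2 * n)) ℂ :=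
  (∏ t ∈ Finset.Ico 1 s, DD n (2 * n - k) (min t k)) * hPf n

/-- affine substitution `G(a + M g)` as a polynomial in `g` -/
noncomputable def aff {ι r : Type} [Fintype r] (a : ι → ℂ) (M : Matrix ι r ℂ)
    (G : MvPolynomial ι ℂ) : MvPolynomial r ℂ :=
  bind₁ (fun i => C (a i) + ∑ s, C (M i s) * X s) G

theorem eval_aff {ι r : Type} [Fintype r] (a : ι → ℂ) (M : Matrix ι r ℂ)
    (G : MvPolynomial ι ℂ) (g : r → ℂ) :
    eval g (aff a M G) = eval (a + M.mulVec g) G := by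
  unfold aff
  have h : (fun i => eval g (C (a i) + ∑ s, C (M i s) * X s : MvPolynomial r ℂ)) =
      a + M.mulVec g := by
    funext i
    simp [Matrix.mulVec, dotProduct]
  rw [← h]
  induction G using MvPolynomial.induction_on with
  | C c => simp
  | add p q hp hq => simp only [map_add, hp, hq]
  | mul_X p i hp => simp only [map_mul, hp, bind₁_X_right, eval_X]

/-- `g ξ gᵀ` -/
noncomputable def push {J : Type} [Fintype J] (g : Matrix J J ℂ) (ξ : J × J → ℂ) : J × J → ℂ :=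
  fun c => ∑ p, ∑ q, g c.1 p * ξ (p, q) * g c.2 q

/-- the matrix of `κ ↦ uᵀ κ u`: `κ''(p, q) = ∑ u a p κ(a, b) u b q` -/
noncomputable def TU {J : Type} (u : Matrix J J ℂ) : Matrix (J × J) (J × J) ℂ :=
  fun c d => u d.1 c.1 * u d.2 c.2

/-- the change of coordinates of a step: `κ'' = uᵀ κ u` kills `κ(p, s)` when `κ(p, s) = ∑ a_q κ(p, m + q)` -/
noncomputable def uu (n : ℕ) [NeZero n] (m s : ℕ) {i : ℕ} (a : Fin i → ℂ) :
    Matrix (Fin (2 * n)) (Fin (2 * n)) ℂ :=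
  1 - ∑ q : Fin i, a q • Matrix.single (ix n (m + q)) (ix n s) (1 : ℂ)

/-- the coordinates `T_pq = κ(p, m + q)`, `b_p = κ(p, s)` -/
def eH (n : ℕ) [NeZero n] (m s i : ℕ) : (Fin i × Fin i) ⊕ Fin i → Fin (2 * n) × Fin (2 * n)
  | Sum.inl t => (ix n t.1, ix n (m + t.2))
  | Sum.inr p => (ix n p, ix n s)

/-- the bivector `∑ z_l ⊗ w_l` -/
noncomputable def biv {J : Type} {k : ℕ} (z w : Fin k → J → ℂ) : J × J → ℂ :=
  fun c => ∑ l, z l c.1 * w l c.2

/-- stage invariant (see PROOF.md) -/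
structure Inv (n k : ℕ) (α : Matrix (Fin (2 * n) × Fin (2 * n)) (Fin (2 * n) × Fin (2 * n)) ℂ)
    (s : ℕ) (β : Matrix (Fin (2 * n) × Fin (2 * n)) (Fin (2 * n) × Fin (2 * n)) ℂ)
    (g : Matrix (Fin (2 * n)) (Fin (2 * n)) ℂ) : Prop where
  herm : β.IsHermitian
  skew : ∀ p q c, β (p, q) c = -β (q, p) c
  zero : ∀ p q : Fin (2 * n), p.val < k → p.val < q.val → q.val < s → ∀ c, β (p, q) c = 0
  unit : IsUnit g.det
  form : ∀ ξ : Fin (2 * n) × Fin (2 * n) → ℂ, ∃ σ : Fin (2 * n) × Fin (2 * n) → ℂ,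
    (∀ p q, σ (p, q) ≠ 0 → p.val < k ∧ p.val < q.val ∧ q.val < s) ∧
    qf β ξ = qf α (push g (ξ + σ))

/-- `α` is strictly positive on bivectors of rank `≤ 2 k` -/
def StrictPos (n k : ℕ)
    (α : Matrix (Fin (2 * n) × Fin (2 * n)) (Fin (2 * n) × Fin (2 * n)) ℂ) : Prop :=
  ∀ z w : Fin k → Fin (2 * n) → ℂ, (∃ a b, biv z w (a, b) ≠ biv z w (b, a)) →
    0 < (qf α (biv z w)).re

/-- the complex covariance matrix of a real array -/
noncomputable def cov {n : ℕ} (S : Pool.Agent.H69Hopf.Arr (2 * n)) :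
    Matrix (Fin (2 * n) × Fin (2 * n)) (Fin (2 * n) × Fin (2 * n)) ℂ :=
  fun c d => (S c.1 c.2 d.1 d.2 : ℂ)

/-- `S(ω, ω̄) ≥ 0` for the complex bivectors `ω = ∑_(l < k) z_l ∧ w_l` -/
def KN (k : ℕ) {n : ℕ} (S : Pool.Agent.H69Hopf.Arr (2 * n)) : Prop :=
  ∀ z w : Fin k → Fin (2 * n) → ℂ, 0 ≤ (qf (cov S) (biv z w)).re

end H2K
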