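import Pool.Agent.Lib.H2K.KN1

/-!
# H2K chunk F1 (S/M): the forms `R(ω, ω̄)`, pointwise statement

`f1_qf`: expand (`Fintype.sum_prod_type`).  `f1_point`: `P = -R` (`gb_neg`, `algCurv_neg` in `Lib/H69/Hopf/Main.lean`), `kn_gb`,
`kn_lower`.
-/

open Pool.Agent.H69Hopf

namespace H2K

/-- The value `R(ω, ω̄)` for the complex two-vector `ω = z 0 ∧ w 0 + ... + z (k-1) ∧ w (k-1)` (for a
curvature tensor the sum is real). -/
noncomputable def complexCurvK {d k : ℕ} (R : Fin d → Fin d → Fin d → Fin d → ℝ)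
    (z w : Fin k → Fin d → ℂ) : ℝ :=
  (∑ i, ∑ j, ∑ p, ∑ q, (R i j p q : ℂ) * (∑ l, z l i * w l j) *
    (starRingEnd ℂ) (∑ l, z l p * w l q)).re

theorem f1_qf {n k : ℕ} (R : Arr (2 * n)) (z w : Fin k → Fin (2 * n) → ℂ) :
    complexCurvK R z w = (qf (cov R) (biv z w)).re := by
  unfold complexCurvK qf
  congr 1
  simp only [Fintype.sum_prod_type]
  refine Finset.sum_congr rfl fun i _ => Finset.sum_congr rfl fun j _ =>
    Finset.sum_congr rfl fun p _ => Finset.sum_congr rfl fun q _ => ?_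
  simp only [cov, biv]
  ring

theorem f1_neg {d k : ℕ} (S : Fin d → Fin d → Fin d → Fin d → ℝ) (z w : Fin k → Fin d → ℂ) :
    complexCurvK (fun i j p q => - S i j p q) z w = - complexCurvK S z w := by
  unfold complexCurvK
  rw [← Complex.neg_re]
  congr 1
  simp only [← Finset.sum_neg_distrib]
  refine Finset.sum_congr rfl fun i _ => Finset.sum_congr rfl fun j _ =>
    Finset.sum_congr rfl fun p _ => Finset.sum_congr rfl fun q _ => ?_
  push_cast
  ring

/-- pointwise statement, nonpositive case -/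
theorem f1_point (h6 : Six) (n k : ℕ) (hk : 1 ≤ k) (hnk : n ≤ 3 ∨ 2 * n ≤ 3 * k + 1)
    (R : Arr (2 * n)) (hA : IsAlgCurv R)
    (hK : ∀ z w : Fin k → Fin (2 * n) → ℂ, complexCurvK R z w ≤ 0) :
    0 ≤ (-1) ^ n * gaussBonnet n R ∧
    (∀ t : ℝ, 0 < t → (∀ z w : Fin k → Fin (2 * n) → ℂ,
      complexCurvK (fun i j p q => R i j p q + t * idA (2 * n) i j p q) z w ≤ 0) →
      0 < (-1) ^ n * gaussBonnet n R) := by
  have hA' := algCurv_neg hA
  have hneg : ∀ (S : Arr (2 * n)) (z w : Fin k → Fin (2 * n) → ℂ),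
      complexCurvK (fun i j p q => - S i j p q) z w = - complexCurvK S z w :=
    fun S z w => f1_neg S z w
  refine ⟨?_, fun t ht hT => ?_⟩
  · rw [← gb_neg]
    refine kn_gb h6 n k hk hnk _ hA' fun z w => ?_
    rw [← f1_qf, hneg]
    have := hK z w
    linarith
  · rw [← gb_neg]
    refine kn_lower h6 n k hk hnk _ hA' t ht fun z w => ?_
    rw [← f1_qf]
    have e : (fun i j p q => (fun i j k l => - R i j k l) i j p q - t * idA (2 * n) i j p q) =
        (fun i j p q => - (R i j p q + t * idA (2 * n) i j p q)) := by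
      funext i j p q
      ring
    rw [e, hneg (fun i j p q => R i j p q + t * idA (2 * n) i j p q)]
    have := hT z w
    linarith

end H2K
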