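import Pool.Agent.Lib.H2K.F1
import Pool.Agent.Lib.H79G.P2

/-!
# H2K chunk F1B (S/M): frames

`f1_frame`: as `complex_frame` (`Lib/H79G/P2.lean`; `P2_expand` for each pair `l, l'`).
`f1_const`: `Eᵀ G E = 1` entrywise.
-/

open H31R H79G Pool.Agent.H69Hopf

namespace H2K

theorem f1b_comm {d k : ℕ} (F : Fin d → Fin d → Fin d → Fin d → Fin k → Fin k → ℂ) :
      ∑ i, ∑ j, ∑ p, ∑ q, ∑ l, ∑ l', F i j p q l l' =
      ∑ l, ∑ l', ∑ i, ∑ j, ∑ p, ∑ q, F i j p q l l' := by
  have e3 : ∀ H : Fin d → Fin d → Fin d → Fin d → ℂ, ∑ i, ∑ j, ∑ p, ∑ q, H i j p q =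
      ∑ t : Fin d × Fin d × Fin d × Fin d, H t.1 t.2.1 t.2.2.1 t.2.2.2 := by
    intro H
    simp only [Fintype.sum_prod_type]
  have e4 : ∀ H : Fin k → Fin k → ℂ, ∑ l, ∑ l', H l l' = ∑ u : Fin k × Fin k, H u.1 u.2 := by
    intro H
    simp only [Fintype.sum_prod_type]
  rw [e3 fun i j p q => ∑ l, ∑ l', F i j p q l l', e4 fun l l' => ∑ i, ∑ j, ∑ p, ∑ q,
    F i j p q l l']
  have e5 : ∀ t : Fin d × Fin d × Fin d × Fin d, ∑ l, ∑ l', F t.1 t.2.1 t.2.2.1 t.2.2.2 l l' =
      ∑ u : Fin k × Fin k, F t.1 t.2.1 t.2.2.1 t.2.2.2 u.1 u.2 := fun t => e4 _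
  have e6 : ∀ u : Fin k × Fin k, ∑ i, ∑ j, ∑ p, ∑ q, F i j p q u.1 u.2 =
      ∑ t : Fin d × Fin d × Fin d × Fin d, F t.1 t.2.1 t.2.2.1 t.2.2.2 u.1 u.2 := fun u => e3 _
  rw [Finset.sum_congr rfl fun t _ => e5 t, Finset.sum_congr rfl fun u _ => e6 u]
  exact Finset.sum_comm

theorem f1b_expand {d k : ℕ} (R : Fin d → Fin d → Fin d → Fin d → ℝ) (z w : Fin k → Fin d → ℂ) :
    complexCurvK R z w = (∑ l, ∑ l', ∑ i, ∑ j, ∑ p, ∑ q, (R i j p q : ℂ) * z l i * w l j *
      (starRingEnd ℂ) (z l' p) * (starRingEnd ℂ) (w l' q)).re := by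
  unfold complexCurvK
  congr 1
  have e1 : ∀ i j p q, (R i j p q : ℂ) * (∑ l, z l i * w l j) *
      (starRingEnd ℂ) (∑ l, z l p * w l q) = ∑ l, ∑ l', (R i j p q : ℂ) * z l i * w l j *
      (starRingEnd ℂ) (z l' p) * (starRingEnd ℂ) (w l' q) := by
    intro i j p q
    rw [map_sum, mul_assoc, Finset.sum_mul_sum, Finset.mul_sum]
    refine Finset.sum_congr rfl fun l _ => ?_
    rw [Finset.mul_sum]
    refine Finset.sum_congr rfl fun l' _ => ?_
    rw [map_mul]
    ring
  rw [← f1b_comm]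
  exact Finset.sum_congr rfl fun i _ => Finset.sum_congr rfl fun j _ =>
    Finset.sum_congr rfl fun p _ => Finset.sum_congr rfl fun q _ => e1 i j p q

theorem f1_frame {d k : ℕ} (R : Cu d) (E : Mt d) (z w : Fin k → Fin d → ℂ) :
    complexCurvK (frameR R E) z w = complexCurvK R (fun l a => ∑ i, (E a i : ℂ) * z l i)
      (fun l a => ∑ i, (E a i : ℂ) * w l i) := by
  rw [f1b_expand, f1b_expand]
  refine congrArg Complex.re ?_
  refine Finset.sum_congr rfl fun l _ => Finset.sum_congr rfl fun l' _ => ?_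
  have h := P2_expand (fun a b c e => (R a b c e : ℂ)) (fun a i => (E a i : ℂ)) (z l) (w l)
    (fun k => (starRingEnd ℂ) (z l' k)) (fun k => (starRingEnd ℂ) (w l' k))
  have e1 : ∀ (u : Fin d → ℂ) (c : Fin d), (starRingEnd ℂ) (∑ i, (E c i : ℂ) * u i) =
      ∑ i, (E c i : ℂ) * (starRingEnd ℂ) (u i) := by
    intro u c
    rw [map_sum]
    refine Finset.sum_congr rfl fun i _ => ?_
    rw [map_mul, Complex.conj_ofReal]
  simp only [e1]
  rw [← h]
  refine Finset.sum_congr rfl fun i _ => Finset.sum_congr rfl fun j _ =>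
    Finset.sum_congr rfl fun k _ => Finset.sum_congr rfl fun l _ => ?_
  unfold frameR
  push_cast
  rfl

theorem f1_const {d : ℕ} (R : Cu d) (G E : Mt d) (hE : E.transpose * G * E = 1) (h : ℝ) :
    frameR (fun i j p q => R i j p q + h * (G i p * G j q - G i q * G j p)) E =
      fun i j p q => frameR R E i j p q + h * idA d i j p q := by
  have hd : ∀ i p, ∑ a, ∑ c, E a i * G a c * E c p = if i = p then 1 else 0 := by
    intro i p
    have h1 := congrFun (congrFun hE i) p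
    rw [Matrix.one_apply] at h1
    rw [← h1]
    simp only [Matrix.mul_apply, Matrix.transpose_apply, Finset.sum_mul]
    exact Finset.sum_comm
  funext i j p q
  have h2 : ∀ (i j p q : Fin d), ∑ a, ∑ b, ∑ c, ∑ e, (G a c * G b e) * E a i * E b j * E c p *
      E e q = (if i = p then 1 else 0) * (if j = q then 1 else 0) := by
    intro i j p q
    rw [← hd i p, ← hd j q, Finset.sum_mul_sum]
    refine Finset.sum_congr rfl fun a _ => Finset.sum_congr rfl fun b _ => ?_
    rw [Finset.sum_mul_sum]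
    refine Finset.sum_congr rfl fun c _ => Finset.sum_congr rfl fun e _ => ?_
    ring
  have h3 : ∀ (i j p q : Fin d), ∑ a, ∑ b, ∑ c, ∑ e, (G a e * G b c) * E a i * E b j * E c p *
      E e q = (if i = q then 1 else 0) * (if j = p then 1 else 0) := by
    intro i j p q
    rw [← h2 i j q p]
    refine Finset.sum_congr rfl fun a _ => Finset.sum_congr rfl fun b _ => ?_
    rw [Finset.sum_comm]
    refine Finset.sum_congr rfl fun c _ => Finset.sum_congr rfl fun e _ => ?_
    ring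
  unfold frameR idA
  rw [← h2 i j p q, ← h3 i j p q]
  simp only [mul_sub, Finset.mul_sum, ← Finset.sum_sub_distrib, ← Finset.sum_add_distrib]
  refine Finset.sum_congr rfl fun a _ => Finset.sum_congr rfl fun b _ =>
    Finset.sum_congr rfl fun c _ => Finset.sum_congr rfl fun e _ => ?_
  ring

end H2K
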