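import Pool.Agent.Lib.H2K.F1B
import Pool.Agent.Lib.H79G.F1

/-!
# H2K file F2: the theorem for closed manifolds, given the six-dimensional theorem for `k = 1`
-/

open H31R H79G Pool.Agent.H69Hopf

namespace H2K

theorem f2_main (h6 : Six)
    (h6' : ∀ (k : ℕ), 1 ≤ k → ∀ R : Arr (2 * 3), IsAlgCurv R →
      (∀ z w : Fin k → Fin (2 * 3) → ℂ, complexCurvK R z w ≤ 0) →
      (∀ x v : Fin 6 → ℝ, LinearIndependent ℝ ![x, v] → realCurv R x v < 0) → gaussBonnet 3 R < 0)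
    (n k : ℕ) (hk : 1 ≤ k) (hnk : n ≤ 3 ∨ 2 * n ≤ 3 * k + 1)
    (M : Closed (2 * n)) (g : Ch.Metric (2 * n) M.carrier)
    (hK : ∀ p : M.carrier, ∀ y ∈ (chartAt (EE (2 * n)) p).target,
      ∀ z w : Fin k → Fin (2 * n) → ℂ, complexCurvK (riem (g.mat p) y) z w ≤ 0) :
    ∃ χ : ℤ, IsEulerCharacteristic (2 * n) M.carrier χ ∧ 0 ≤ (-1) ^ n * χ ∧
      ((∃ m : M.carrier,
        (∃ h : ℝ, 0 < h ∧ ∀ z w : Fin k → Fin (2 * n) → ℂ,
          complexCurvK (fun i j p q => riem (g.mat m) (chartAt (EE (2 * n)) m m) i j p q +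
            h * (g.mat m (chartAt (EE (2 * n)) m m) i p * g.mat m (chartAt (EE (2 * n)) m m) j q -
              g.mat m (chartAt (EE (2 * n)) m m) i q * g.mat m (chartAt (EE (2 * n)) m m) j p))
            z w ≤ 0) ∨
        (n = 3 ∧ ∀ x v : Fin (2 * n) → ℝ, LinearIndependent ℝ ![x, v] →
          realCurv (riem (g.mat m) (chartAt (EE (2 * n)) m m)) x v < 0)) →
        0 < (-1) ^ n * χ) := by
  have hframe : ∀ (T : Cu (2 * n)) (E : Mt (2 * n)),
      (∀ z w : Fin k → Fin (2 * n) → ℂ, complexCurvK T z w ≤ 0) →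
      ∀ z w : Fin k → Fin (2 * n) → ℂ, complexCurvK (frameR T E) z w ≤ 0 := by
    intro T E hT z w
    rw [f1_frame]
    exact hT _ _
  have key : ∀ p : M.carrier, ∀ y ∈ (chartAt (EE (2 * n)) p).target, ∀ E : Mt (2 * n),
      E.transpose * g.mat p y * E = 1 →
      IsAlgCurv (frameR (riem (g.mat p) y) E) ∧
      (∀ z w : Fin k → Fin (2 * n) → ℂ, complexCurvK (frameR (riem (g.mat p) y) E) z w ≤ 0) :=
    fun p y hy E _ => ⟨frame_algCurv (riem_algCurv (metOn g p) hy) E, hframe _ E (hK p y hy)⟩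
  obtain ⟨χ, h1, h2, h3⟩ := sign_principle n M g ((-1) ^ n) (fun p y hy E hE =>
    (f1_point h6 n k hk hnk _ (key p y hy E hE).1 (key p y hy E hE).2).1)
  refine ⟨χ, h1, ?_, ?_⟩
  · have h4 : (0 : ℝ) ≤ (((-1) ^ n * χ : ℤ) : ℝ) := by push_cast; exact h2
    exact_mod_cast h4
  · rintro ⟨m, hm⟩
    have hx := mem_chart_target (EE (2 * n)) m
    have h4 := h3 ⟨m, fun E hE => by
      rcases hm with ⟨h, hh, hz⟩ | ⟨rfl, hneg⟩
      · refine (f1_point h6 n k hk hnk _ (key m _ hx E hE).1 (key m _ hx E hE).2).2 h hh ?_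
        have h5 := hframe _ E hz
        rw [f1_const _ _ _ hE] at h5
        exact h5
      · have h5 := h6' k hk _ (key m _ hx E hE).1 (key m _ hx E hE).2 (fun x v hxv => by
          have h6 := hneg _ _ (indep_frame hE hxv)
          rw [← real_frame] at h6
          exact h6)
        have h7 : ((-1 : ℝ)) ^ 3 = -1 := by norm_num
        rw [h7]
        linarith⟩
    have h5 : (0 : ℝ) < (((-1) ^ n * χ : ℤ) : ℝ) := by push_cast; exact h4
    exact_mod_cast h5

end H2K
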