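import Pool.Agent.Lib.H2K.Defs

/-!
# H2K chunk G1 (S/M): moments of the standard complex Gaussian

`stdG` = density `exp(-|z|²)/π`.  Radial integrals: `Complex.integral_rpow_mul_exp_neg_rpow` (Mathlib):
`∫ ‖x‖^q exp(-‖x‖^p) = (2π/p) Γ((q+2)/p)`; with `p = 2`, `q = 2 i`: `π Γ(i+1) = π i!`.
Integrability: `‖z^i conj z^j‖ = ‖z‖^(i+j)`, `integrableOn`/`Complex.integrable..` or polar coordinates
(`Complex.polarCoord`), or `integrable_rpow_mul_exp_neg_mul_sq`-type lemmas.
`i ≠ j`: the integral is invariant under the rotation `z ↦ ω z`, `|ω| = 1` (`stdG` is invariant, e.g.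
`rotation` as a `LinearIsometryEquiv`, measure preserving for `volume`), hence `m = ω^i conj(ω)^j m` for all `ω`;
choose `ω` with `ω^i conj(ω)^j ≠ 1`, e.g. `ω = exp(i)`.
-/

open MeasureTheory MvPolynomial

namespace H2K

theorem g1_dens_meas : Measurable fun z : ℂ => ENNReal.ofReal (Real.exp (-‖z‖ ^ 2) / Real.pi) := by
  fun_prop

theorem g1_dens_lt : ∀ᵐ z : ℂ, ENNReal.ofReal (Real.exp (-‖z‖ ^ 2) / Real.pi) < ⊤ :=
  Filter.Eventually.of_forall fun _ => ENNReal.ofReal_lt_top

theorem g1_real (m : ℕ) :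
    ∫ x : ℂ, ‖x‖ ^ m * Real.exp (-‖x‖ ^ 2) = Real.pi * Real.Gamma (((m : ℝ) + 2) / 2) := by
  have h := Complex.integral_rpow_mul_exp_neg_rpow (p := 2) (q := m) (by norm_num)
    (by have := Nat.cast_nonneg (α := ℝ) m; linarith)
  have e : (fun x : ℂ => ‖x‖ ^ (m : ℝ) * Real.exp (-‖x‖ ^ (2 : ℝ))) =
      fun x : ℂ => ‖x‖ ^ m * Real.exp (-‖x‖ ^ 2) := by
    funext x
    rw [Real.rpow_natCast, Real.rpow_two]
  rw [e] at h
  rw [h]
  ring

theorem g1_real_int (m : ℕ) : Integrable fun x : ℂ => ‖x‖ ^ m * Real.exp (-‖x‖ ^ 2) := by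
  by_contra hn
  have h1 := g1_real m
  rw [integral_undef hn] at h1
  have h2 : 0 < Real.pi * Real.Gamma (((m : ℝ) + 2) / 2) :=
    mul_pos Real.pi_pos (Real.Gamma_pos_of_pos (by positivity))
  linarith

theorem g1_prob : IsProbabilityMeasure stdG := by
  constructor
  have h0 := g1_real 0
  have hi := (g1_real_int 0).div_const Real.pi
  rw [stdG, withDensity_apply _ MeasurableSet.univ, Measure.restrict_univ]
  have e : ∀ x : ℂ, ‖x‖ ^ 0 * Real.exp (-‖x‖ ^ 2) / Real.pi = Real.exp (-‖x‖ ^ 2) / Real.pi := by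
    intro x
    rw [pow_zero, one_mul]
  simp only [e] at hi
  rw [← ofReal_integral_eq_lintegral_ofReal hi
    (Filter.Eventually.of_forall fun x => div_nonneg (Real.exp_pos _).le Real.pi_pos.le)]
  have h1 : ∫ x : ℂ, Real.exp (-‖x‖ ^ 2) / Real.pi = 1 := by
    rw [integral_div]
    simp only [pow_zero, one_mul] at h0
    rw [h0]
    have : Real.Gamma (((0 : ℕ) + 2 : ℝ) / 2) = 1 := by
      norm_num
    rw [this]
    field_simp
  rw [h1]
  simp

theorem g1_int (i j : ℕ) :
    Integrable (fun z : ℂ => z ^ i * (starRingEnd ℂ) z ^ j) stdG := by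
  rw [stdG, integrable_withDensity_iff_integrable_smul' g1_dens_meas g1_dens_lt]
  refine Integrable.mono ((g1_real_int (i + j)).div_const Real.pi) ?_ ?_
  · have h1 : Measurable fun z : ℂ => z ^ i * (starRingEnd ℂ) z ^ j := by fun_prop
    have h2 : Measurable fun z : ℂ => (ENNReal.ofReal (Real.exp (-‖z‖ ^ 2) / Real.pi)).toReal •
        (z ^ i * (starRingEnd ℂ) z ^ j) := g1_dens_meas.ennreal_toReal.smul h1
    exact h2.aestronglyMeasurable
  · refine Filter.Eventually.of_forall fun z => ?_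
    rw [ENNReal.toReal_ofReal (div_nonneg (Real.exp_pos _).le Real.pi_pos.le), norm_smul, norm_mul, norm_pow,
      norm_pow, RCLike.norm_conj, Real.norm_eq_abs, Real.norm_eq_abs,
      abs_of_nonneg (div_nonneg (Real.exp_pos _).le Real.pi_pos.le)]
    rw [abs_of_nonneg (div_nonneg (mul_nonneg (by positivity) (Real.exp_pos _).le) Real.pi_pos.le)]
    rw [pow_add]
    apply le_of_eq
    ring

theorem g1_mom_eq (i j : ℕ) :
    ∫ z, z ^ i * (starRingEnd ℂ) z ^ j ∂stdG =
      ∫ z : ℂ, (Real.exp (-‖z‖ ^ 2) / Real.pi) • (z ^ i * (starRingEnd ℂ) z ^ j) := by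
  rw [stdG, integral_withDensity_eq_integral_toReal_smul g1_dens_meas g1_dens_lt]
  refine integral_congr_ae (Filter.Eventually.of_forall fun z => ?_)
  simp only
  rw [ENNReal.toReal_ofReal (div_nonneg (Real.exp_pos _).le Real.pi_pos.le)]

theorem g1_rot (i j : ℕ) (w : Circle) :
    ∫ z, z ^ i * (starRingEnd ℂ) z ^ j ∂stdG =
      ((w : ℂ) ^ i * (starRingEnd ℂ) (w : ℂ) ^ j) * ∫ z, z ^ i * (starRingEnd ℂ) z ^ j ∂stdG := by
  rw [g1_mom_eq]
  have h := (rotation w).measurePreserving.integral_comp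
    (rotation w).toHomeomorph.measurableEmbedding
    (fun z : ℂ => (Real.exp (-‖z‖ ^ 2) / Real.pi) • (z ^ i * (starRingEnd ℂ) z ^ j))
  conv_lhs => rw [← h]
  rw [← integral_const_mul]
  refine integral_congr_ae (Filter.Eventually.of_forall fun z => ?_)
  simp only [rotation_apply]
  rw [norm_mul, Circle.norm_coe, one_mul, map_mul, mul_pow, mul_pow, Complex.real_smul, Complex.real_smul]
  ring

theorem g1_mom (i j : ℕ) :
    ∫ z, z ^ i * (starRingEnd ℂ) z ^ j ∂stdG = if i = j then (i.factorial : ℂ) else 0 := by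
  by_cases hij : i = j
  · subst hij
    rw [if_pos rfl, g1_mom_eq]
    have e : ∀ z : ℂ, (Real.exp (-‖z‖ ^ 2) / Real.pi) • (z ^ i * (starRingEnd ℂ) z ^ i) =
        ((‖z‖ ^ (2 * i) * Real.exp (-‖z‖ ^ 2) / Real.pi : ℝ) : ℂ) := by
      intro z
      rw [← mul_pow, Complex.mul_conj, Complex.normSq_eq_norm_sq, Complex.real_smul]
      push_cast
      rw [pow_mul]
      ring
    simp only [e]
    rw [integral_complex_ofReal, integral_div, g1_real]
    have h1 : (((2 * i : ℕ) : ℝ) + 2) / 2 = (i : ℝ) + 1 := by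
      push_cast
      ring
    rw [h1, Real.Gamma_nat_eq_factorial]
    have : Real.pi * (i.factorial : ℝ) / Real.pi = (i.factorial : ℝ) := by
      field_simp
    rw [this]
    norm_cast
  · rw [if_neg hij]
    by_contra hm
    have key : ∀ w : Circle, (w : ℂ) ^ i * (starRingEnd ℂ) (w : ℂ) ^ j = 1 := by
      intro w
      have h := g1_rot i j w
      have h2 : ((w : ℂ) ^ i * (starRingEnd ℂ) (w : ℂ) ^ j - 1) *
          (∫ z, z ^ i * (starRingEnd ℂ) z ^ j ∂stdG) = 0 := by
        rw [sub_mul, ← h, one_mul, sub_self]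
      rcases mul_eq_zero.1 h2 with h3 | h3
      · exact sub_eq_zero.1 h3
      · exact absurd h3 hm
    -- all powers agree
    have key2 : ∀ w : Circle, (w : ℂ) ^ i = (w : ℂ) ^ j := by
      intro w
      have h := key w
      have hw : (w : ℂ) * (starRingEnd ℂ) (w : ℂ) = 1 := by
        rw [Complex.mul_conj, Complex.normSq_eq_norm_sq, Circle.norm_coe]
        norm_num
      calc (w : ℂ) ^ i = (w : ℂ) ^ i * ((w : ℂ) * (starRingEnd ℂ) (w : ℂ)) ^ j := by rw [hw, one_pow, mul_one]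
        _ = ((w : ℂ) ^ i * (starRingEnd ℂ) (w : ℂ) ^ j) * (w : ℂ) ^ j := by rw [mul_pow]; ring
        _ = (w : ℂ) ^ j := by rw [h, one_mul]
    -- the element exp(1) has infinite order
    have h1 := key2 (Circle.exp 1)
    rw [Circle.coe_exp, ← Complex.exp_nat_mul, ← Complex.exp_nat_mul, Complex.exp_eq_exp_iff_exists_int] at h1
    obtain ⟨n, hn⟩ := h1
    have h2 : ((i : ℝ) - j) = n * (2 * Real.pi) := by
      have h3 : (((i : ℝ) - j : ℝ) : ℂ) * Complex.I = ((n * (2 * Real.pi) : ℝ) : ℂ) * Complex.I := by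
        push_cast
        have h4 : (i : ℂ) * (((1 : ℝ) : ℂ) * Complex.I) = (j : ℂ) * (((1 : ℝ) : ℂ) * Complex.I) + n * (2 * Real.pi * Complex.I) := hn
        push_cast at h4
        linear_combination h4
      have h5 := mul_right_cancel₀ Complex.I_ne_zero h3
      exact_mod_cast h5
    have hn0 : n ≠ 0 := by
      rintro rfl
      apply hij
      have : (i : ℝ) - j = 0 := by rw [h2]; simp
      have h6 : (i : ℝ) = j := by linarith
      exact_mod_cast h6
    have hirr := irrational_pi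
    apply hirr
    refine ⟨((i : ℤ) - j : ℤ) / (2 * n : ℤ), ?_⟩
    have hn1 : (n : ℝ) ≠ 0 := by exact_mod_cast hn0
    push_cast
    rw [h2]
    field_simp

end H2K
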