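import Pool.Agent.Lib.H2K.G1

/-!
# H2K chunk G2 (M): polynomials are integrable for `muG`, moments of monomials

`muG r = Measure.pi`; `Integrable.fintype_prod` (or `MeasureTheory.Integrable.fintype_prod_dep`) and
`MeasureTheory.integral_fintype_prod_eq_prod` with the one-dimensional facts of G1.  A polynomial is a finite
linear combination of monomials: `MvPolynomial.eval_eq'` or induction (`MvPolynomial.induction_on'`/
`Finsupp` sums), `integrable_finset_sum`.
-/

open MeasureTheory MvPolynomial

namespace H2K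

theorem g2_prob (r : Type) [Fintype r] : IsProbabilityMeasure (muG r) := by
  haveI := g1_prob
  unfold muG
  infer_instance

theorem g2_form {r : Type} [Fintype r] (I J : r → ℕ) (g : r → ℂ) :
    (∏ a, g a ^ I a) * (starRingEnd ℂ) (∏ a, g a ^ J a) =
      ∏ a, (g a ^ I a * (starRingEnd ℂ) (g a) ^ J a) := by
  rw [map_prod, ← Finset.prod_mul_distrib]
  refine Finset.prod_congr rfl fun a _ => ?_
  rw [map_pow]

theorem g2_mon_int {r : Type} [Fintype r] (I J : r → ℕ) :
    Integrable (fun g : r → ℂ => (∏ a, g a ^ I a) * (starRingEnd ℂ) (∏ a, g a ^ J a)) (muG r) := by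
  haveI := g1_prob
  simp only [g2_form]
  unfold muG
  exact Integrable.fintype_prod (μ := fun _ : r => stdG)
    (f := fun (a : r) (z : ℂ) => z ^ I a * (starRingEnd ℂ) z ^ J a) fun a => g1_int (I a) (J a)

theorem g2_mon {r : Type} [Fintype r] (I J : r → ℕ) :
    ∫ g : r → ℂ, (∏ a, g a ^ I a) * (starRingEnd ℂ) (∏ a, g a ^ J a) ∂muG r =
      if I = J then ∏ a, ((I a).factorial : ℂ) else 0 := by
  haveI := g1_prob
  simp only [g2_form]
  unfold muG
  rw [integral_fintype_prod_eq_prod (μ := fun _ : r => stdG)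
    (fun (a : r) (z : ℂ) => z ^ I a * (starRingEnd ℂ) z ^ J a)]
  simp only [g1_mom]
  by_cases h : I = J
  · subst h
    simp
  · rw [if_neg h]
    obtain ⟨a, ha⟩ := Function.ne_iff.1 h
    exact Finset.prod_eq_zero (Finset.mem_univ a) (if_neg ha)

theorem g2_int {r : Type} [Fintype r] (P Q : MvPolynomial r ℂ) :
    Integrable (fun g => eval g P * (starRingEnd ℂ) (eval g Q)) (muG r) := by
  have e : (fun g : r → ℂ => eval g P * (starRingEnd ℂ) (eval g Q)) = fun g : r → ℂ =>
      ∑ d ∈ P.support, ∑ c ∈ Q.support, (P.coeff d * (starRingEnd ℂ) (Q.coeff c)) *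
        ((∏ a, g a ^ d a) * (starRingEnd ℂ) (∏ a, g a ^ c a)) := by
    funext g
    rw [MvPolynomial.eval_eq', MvPolynomial.eval_eq', map_sum, Finset.sum_mul_sum]
    refine Finset.sum_congr rfl fun d _ => Finset.sum_congr rfl fun c _ => ?_
    rw [map_mul]
    ring
  rw [e]
  refine integrable_finset_sum _ fun d _ => integrable_finset_sum _ fun c _ => ?_
  exact (g2_mon_int (fun a => d a) (fun a => c a)).const_mul _

end H2K
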