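import Pool.Agent.Lib.H2K.G2

/-!
# H2K chunk G3 (M): Gaussian integration by parts for polynomials

`E g_s P(g) conj(Q(g)) = E P(g) conj((∂_s Q)(g))`.  Both sides are additive in `P` (linear) and in `Q`
(conjugate linear), all functions are integrable (`g2_int`), so it is enough to take monomials
(`MvPolynomial.induction_on'` or `as_sum`): `P = X^I`, `Q = X^J`: the left side is
`[I + e_s = J] J!`, the right side `J_s [I = J - e_s] (J - e_s)!` (`g2_mon`; `pderiv_monomial`).
-/

open MeasureTheory MvPolynomial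

namespace H2K

theorem g3_single {r : Type} [Fintype r] [DecidableEq r] (g : r → ℂ) (s : r) :
    ∏ a, g a ^ ((Pi.single s 1 : r → ℕ) a) = g s := by
  rw [Fintype.prod_eq_single s]
  · rw [Pi.single_eq_same, pow_one]
  · intro x hx
    rw [Pi.single_eq_of_ne hx, pow_zero]

theorem g3_mul {r : Type} [Fintype r] [DecidableEq r] (g : r → ℂ) (s : r) (I : r → ℕ) :
    g s * ∏ a, g a ^ I a = ∏ a, g a ^ ((I + Pi.single s 1 : r → ℕ) a) := by
  have : ∀ a, g a ^ ((I + Pi.single s 1 : r → ℕ) a) = g a ^ I a * g a ^ ((Pi.single s 1 : r → ℕ) a) := by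
    intro a
    rw [Pi.add_apply, pow_add]
  simp only [this]
  rw [Finset.prod_mul_distrib, g3_single, mul_comm]

theorem g3_fact {r : Type} [Fintype r] [DecidableEq r] (s : r) (I : r → ℕ) :
    ∏ a, ((((I + Pi.single s 1 : r → ℕ) a).factorial : ℕ) : ℂ) =
      ((I s + 1 : ℕ) : ℂ) * ∏ a, ((I a).factorial : ℂ) := by
  rw [← Finset.mul_prod_erase Finset.univ _ (Finset.mem_univ s),
    ← Finset.mul_prod_erase Finset.univ (fun a => ((I a).factorial : ℂ)) (Finset.mem_univ s)]
  have h1 : ∏ x ∈ Finset.univ.erase s, ((((I + Pi.single s 1 : r → ℕ) x).factorial : ℕ) : ℂ) =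
      ∏ x ∈ Finset.univ.erase s, ((I x).factorial : ℂ) := by
    refine Finset.prod_congr rfl fun x hx => ?_
    rw [Pi.add_apply, Pi.single_eq_of_ne (Finset.ne_of_mem_erase hx), add_zero]
  rw [h1, Pi.add_apply, Pi.single_eq_same, Nat.factorial_succ, Nat.cast_mul, mul_assoc]

theorem g3_mono {r : Type} [Fintype r] [DecidableEq r] (I J : r → ℕ) (s : r) :
    ∫ g : r → ℂ, (g s * ∏ a, g a ^ I a) * (starRingEnd ℂ) (∏ a, g a ^ J a) ∂muG r =
      (J s : ℂ) * ∫ g : r → ℂ, (∏ a, g a ^ I a) *
        (starRingEnd ℂ) (∏ a, g a ^ ((J - Pi.single s 1 : r → ℕ) a)) ∂muG r := by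
  simp only [g3_mul]
  rw [g2_mon, g2_mon]
  by_cases hJ : J s = 0
  · rw [hJ, Nat.cast_zero, zero_mul, if_neg]
    intro h
    have := congrFun h s
    rw [Pi.add_apply, Pi.single_eq_same, hJ] at this
    omega
  · by_cases h : I + Pi.single s 1 = J
    · subst h
      rw [if_pos rfl, if_pos (by rw [add_tsub_cancel_right]), g3_fact, Pi.add_apply,
        Pi.single_eq_same]
    · rw [if_neg h, if_neg, mul_zero]
      intro h2
      apply h
      rw [h2]
      funext a
      rw [Pi.add_apply, Pi.sub_apply]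
      by_cases ha : a = s
      · subst ha
        rw [Pi.single_eq_same]
        omega
      · rw [Pi.single_eq_of_ne ha]
        omega

theorem g3_eval_monomial {r : Type} [Fintype r] (g : r → ℂ) (I : r →₀ ℕ) (a : ℂ) :
    eval g (monomial I a) = a * ∏ i, g i ^ I i := by
  rw [eval_monomial, Finsupp.prod_fintype]
  intro i
  exact pow_zero _

theorem g3_mm {r : Type} [Fintype r] (I J : r →₀ ℕ) (a b : ℂ) (s : r) :
    ∫ g : r → ℂ, g s * eval g (monomial I a) * (starRingEnd ℂ) (eval g (monomial J b)) ∂muG r =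
      ∫ g : r → ℂ, eval g (monomial I a) *
        (starRingEnd ℂ) (eval g (pderiv s (monomial J b))) ∂muG r := by
  classical
  rw [pderiv_monomial]
  simp only [g3_eval_monomial]
  have h1 : ∀ g : r → ℂ, g s * (a * ∏ i, g i ^ I i) * (starRingEnd ℂ) (b * ∏ i, g i ^ J i) =
      (a * (starRingEnd ℂ) b) * ((g s * ∏ i, g i ^ I i) * (starRingEnd ℂ) (∏ i, g i ^ J i)) := by
    intro g
    rw [map_mul]
    ring
  have h2 : ∀ g : r → ℂ, (a * ∏ i, g i ^ I i) * (starRingEnd ℂ)
        (b * ((J s : ℕ) : ℂ) * ∏ i, g i ^ (J - Finsupp.single s 1 : r →₀ ℕ) i) =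
      (a * (starRingEnd ℂ) b) * (((J s : ℕ) : ℂ) * ((∏ i, g i ^ I i) *
        (starRingEnd ℂ) (∏ i, g i ^ ((⇑J - Pi.single s 1 : r → ℕ) i)))) := by
    intro g
    have h3 : ∀ i, (J - Finsupp.single s 1 : r →₀ ℕ) i = (⇑J - Pi.single s 1 : r → ℕ) i := by
      intro i
      rw [Finsupp.tsub_apply, Pi.sub_apply, Finsupp.single_eq_pi_single]
    simp only [h3]
    rw [map_mul, map_mul]
    have h4 : (starRingEnd ℂ) ((J s : ℕ) : ℂ) = ((J s : ℕ) : ℂ) := map_natCast _ _
    rw [h4]
    ring
  simp only [h1, h2]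
  rw [integral_const_mul, integral_const_mul, integral_const_mul, g3_mono]

theorem g3_stein {r : Type} [Fintype r] (P Q : MvPolynomial r ℂ) (s : r) :
    ∫ g : r → ℂ, g s * eval g P * (starRingEnd ℂ) (eval g Q) ∂muG r =
      ∫ g : r → ℂ, eval g P * (starRingEnd ℂ) (eval g (pderiv s Q)) ∂muG r := by
  induction P using MvPolynomial.induction_on' with
  | monomial I a =>
    induction Q using MvPolynomial.induction_on' with
    | monomial J b => exact g3_mm I J a b s
    | add p q hp hq =>
      have e1 : ∀ g : r → ℂ, g s * eval g (monomial I a) * (starRingEnd ℂ) (eval g (p + q)) =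
          eval g (X s * monomial I a) * (starRingEnd ℂ) (eval g p) +
          eval g (X s * monomial I a) * (starRingEnd ℂ) (eval g q) := by
        intro g
        rw [map_add, map_add, map_mul, eval_X]
        ring
      have e2 : ∀ g : r → ℂ, eval g (monomial I a) * (starRingEnd ℂ) (eval g (pderiv s (p + q))) =
          eval g (monomial I a) * (starRingEnd ℂ) (eval g (pderiv s p)) +
          eval g (monomial I a) * (starRingEnd ℂ) (eval g (pderiv s q)) := by
        intro g
        rw [map_add, map_add, map_add]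
        ring
      simp only [e1, e2]
      rw [integral_add (g2_int _ _) (g2_int _ _), integral_add (g2_int _ _) (g2_int _ _), ← hp, ← hq]
      simp only [map_mul, eval_X]
  | add p q hp hq =>
    have e1 : ∀ g : r → ℂ, g s * eval g (p + q) * (starRingEnd ℂ) (eval g Q) =
        eval g (X s * p) * (starRingEnd ℂ) (eval g Q) +
        eval g (X s * q) * (starRingEnd ℂ) (eval g Q) := by
      intro g
      rw [map_add, map_mul, map_mul, eval_X]
      ring
    have e2 : ∀ g : r → ℂ, eval g (p + q) * (starRingEnd ℂ) (eval g (pderiv s Q)) =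
        eval g p * (starRingEnd ℂ) (eval g (pderiv s Q)) +
        eval g q * (starRingEnd ℂ) (eval g (pderiv s Q)) := by
      intro g
      rw [map_add]
      ring
    simp only [e1, e2]
    rw [integral_add (g2_int _ _) (g2_int _ _), integral_add (g2_int _ _) (g2_int _ _), ← hp, ← hq]
    simp only [map_mul, eval_X]

end H2K
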