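import Pool.Agent.Lib.H2K.G4B

/-!
# H2K chunk G4 (M): the functional `WW` depends only on `M Nᴴ`

`g4_one`: `WS a b M N 1 H = conj (WS b a N M H 1)` (`g4_swap`) and induction on `H` with `g4_rec`
(`pderiv j 1 = 0`; `muG` is a probability measure).
`g4_li`: induction on `G` (`MvPolynomial.induction_on`), for all `H` simultaneously: constants: both sides are
`c * conj (eval b H)` (`g4_one`); sums (`g4_int`, `integral_add`); `p * X i`: `g4_rec` for both sides.
-/

open MeasureTheory MvPolynomial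

namespace H2K

theorem g4_addl {ι ι' r : Type} [Fintype ι] [Fintype ι'] [Fintype r] (a : ι → ℂ) (b : ι' → ℂ)
    (M : Matrix ι r ℂ) (N : Matrix ι' r ℂ) (G G' : MvPolynomial ι ℂ) (H : MvPolynomial ι' ℂ) :
    WS a b M N (G + G') H = WS a b M N G H + WS a b M N G' H := by
  unfold WS
  rw [← integral_add (g4_int a b M N G H) (g4_int a b M N G' H)]
  refine integral_congr_ae (Filter.Eventually.of_forall fun g => ?_)
  simp only [map_add, add_mul]

theorem g4_zeror {ι ι' r : Type} [Fintype ι] [Fintype ι'] [Fintype r] (a : ι → ℂ) (b : ι' → ℂ)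
    (M : Matrix ι r ℂ) (N : Matrix ι' r ℂ) (G : MvPolynomial ι ℂ) :
    WS a b M N G (0 : MvPolynomial ι' ℂ) = 0 := by
  unfold WS
  simp

theorem g4_Cl {ι ι' r : Type} [Fintype ι] [Fintype ι'] [Fintype r] (a : ι → ℂ) (b : ι' → ℂ)
    (M : Matrix ι r ℂ) (N : Matrix ι' r ℂ) (c : ℂ) (H : MvPolynomial ι' ℂ) :
    WS a b M N (C c) H = c * WS a b M N 1 H := by
  unfold WS
  rw [← integral_const_mul]
  refine integral_congr_ae (Filter.Eventually.of_forall fun g => ?_)
  simp only [eval_C, map_one, one_mul]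

theorem g4_aux {ι ι' r : Type} [Fintype ι] [Fintype ι'] [Fintype r] (a : ι → ℂ) (b : ι' → ℂ)
    (M : Matrix ι r ℂ) (N : Matrix ι' r ℂ) (G : MvPolynomial ι ℂ) :
    WS a b M N G (1 : MvPolynomial ι' ℂ) = eval a G := by
  have := g2_prob r
  induction G using MvPolynomial.induction_on with
  | C c =>
    rw [g4_Cl]
    unfold WS
    simp
  | add p q hp hq => rw [g4_addl, hp, hq, map_add]
  | mul_X p i hp =>
    rw [mul_comm, g4_rec, hp]
    have h0 : ∀ j : ι', pderiv j (1 : MvPolynomial ι' ℂ) = 0 := fun j => pderiv_one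
    simp only [h0, g4_zeror, mul_zero, Finset.sum_const_zero, add_zero, map_mul, eval_X]

theorem g4_one {ι ι' r : Type} [Fintype ι] [Fintype ι'] [Fintype r] (a : ι → ℂ) (b : ι' → ℂ)
    (M : Matrix ι r ℂ) (N : Matrix ι' r ℂ) (H : MvPolynomial ι' ℂ) :
    WS a b M N 1 H = (starRingEnd ℂ) (eval b H) := by
  rw [g4_swap, g4_aux]

theorem g4_li {ι ι' r r' : Type} [Fintype ι] [Fintype ι'] [Fintype r] [Fintype r']
    (a : ι → ℂ) (b : ι' → ℂ) (M : Matrix ι r ℂ) (N : Matrix ι' r ℂ) (M' : Matrix ι r' ℂ)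
    (N' : Matrix ι' r' ℂ) (h : M * N.conjTranspose = M' * N'.conjTranspose)
    (G : MvPolynomial ι ℂ) (H : MvPolynomial ι' ℂ) :
    WS a b M N G H = WS a b M' N' G H := by
  induction G using MvPolynomial.induction_on generalizing H with
  | C c => rw [g4_Cl, g4_Cl, g4_one, g4_one]
  | add p q hp hq => rw [g4_addl, g4_addl, hp, hq]
  | mul_X p i hp =>
    rw [mul_comm, g4_rec, g4_rec, hp, h]
    congr 1
    exact Finset.sum_congr rfl fun j _ => by rw [hp]

/-- without shifts -/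
theorem g4_WW {ι ι' r r' : Type} [Fintype ι] [Fintype ι'] [Fintype r] [Fintype r']
    (M : Matrix ι r ℂ) (N : Matrix ι' r ℂ) (M' : Matrix ι r' ℂ)
    (N' : Matrix ι' r' ℂ) (h : M * N.conjTranspose = M' * N'.conjTranspose)
    (G : MvPolynomial ι ℂ) (H : MvPolynomial ι' ℂ) :
    WW M N G H = WW M' N' G H := by
  have := g4_li 0 0 M N M' N' h G H
  simpa [WS, WW] using this

theorem g4_W {ι r : Type} [Fintype ι] [DecidableEq ι] [Fintype r] (M N : Matrix ι r ℂ)
    (G H : MvPolynomial ι ℂ) : W (M * N.conjTranspose) G H = WW M N G H := by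
  unfold W
  exact g4_WW _ _ _ _ (by simp) G H

end H2K
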