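import Pool.Agent.Lib.H2K.G3

/-!
# H2K chunk G4A (S/M): affine substitutions and the functional `WS`

`g4_pderiv` (chain rule): induction on `G` (`MvPolynomial.induction_on`): constants 0; sums; `G * X i`: `pderiv`
of a product, `pderiv s (C (a i) + ∑ s', C (M i s') * X s') = C (M i s)`.
`g4_int`: `eval_aff` and `g2_int`.   `g4_swap`: `integral_conj` (complex conjugation of the integral).
-/

open MeasureTheory MvPolynomial

namespace H2K

/-- `E G(a + M g) conj(H(b + N g))` -/
noncomputable def WS {ι ι' r : Type} [Fintype r] (a : ι → ℂ) (b : ι' → ℂ) (M : Matrix ι r ℂ)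
    (N : Matrix ι' r ℂ) (G : MvPolynomial ι ℂ) (H : MvPolynomial ι' ℂ) : ℂ :=
  ∫ g, eval (a + M.mulVec g) G * (starRingEnd ℂ) (eval (b + N.mulVec g) H) ∂muG r

theorem g4a_lin {ι r : Type} [Fintype r] (a : ι → ℂ) (M : Matrix ι r ℂ) (i : ι) (s : r) :
    pderiv s (C (a i) + ∑ s', C (M i s') * X s' : MvPolynomial r ℂ) = C (M i s) := by
  classical
  rw [map_add, pderiv_C, zero_add, map_sum, Finset.sum_eq_single s]
  · rw [pderiv_C_mul, pderiv_X_self, mul_one]
  · intro t _ ht
    rw [pderiv_C_mul, pderiv_X_of_ne ht, mul_zero]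
  · intro h
    exact absurd (Finset.mem_univ s) h

theorem g4a_add {ι r : Type} [Fintype r] (a : ι → ℂ) (M : Matrix ι r ℂ)
    (p q : MvPolynomial ι ℂ) : aff a M (p + q) = aff a M p + aff a M q := by
  unfold aff
  rw [map_add]

theorem g4a_mul {ι r : Type} [Fintype r] (a : ι → ℂ) (M : Matrix ι r ℂ)
    (p q : MvPolynomial ι ℂ) : aff a M (p * q) = aff a M p * aff a M q := by
  unfold aff
  rw [map_mul]

theorem g4a_C {ι r : Type} [Fintype r] (a : ι → ℂ) (M : Matrix ι r ℂ) (c : ℂ) :
    aff a M (C c) = C c := by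
  unfold aff
  rw [bind₁_C_right]

theorem g4a_X {ι r : Type} [Fintype r] (a : ι → ℂ) (M : Matrix ι r ℂ) (i : ι) :
    aff a M (X i) = C (a i) + ∑ s', C (M i s') * X s' := by
  unfold aff
  rw [bind₁_X_right]

theorem g4_pderiv {ι r : Type} [Fintype ι] [Fintype r] (a : ι → ℂ) (M : Matrix ι r ℂ)
    (G : MvPolynomial ι ℂ) (s : r) :
    pderiv s (aff a M G) = ∑ i, C (M i s) * aff a M (pderiv i G) := by
  classical
  induction G using MvPolynomial.induction_on with
  | C c =>
    rw [g4a_C, pderiv_C]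
    symm
    apply Finset.sum_eq_zero
    intro i _
    have h0 : aff a M (0 : MvPolynomial ι ℂ) = 0 := by
      unfold aff
      rw [map_zero]
    rw [pderiv_C, h0, mul_zero]
  | add p q hp hq =>
    rw [g4a_add, map_add, hp, hq, ← Finset.sum_add_distrib]
    apply Finset.sum_congr rfl
    intro i _
    rw [map_add, g4a_add, mul_add]
  | mul_X p i hp =>
    rw [g4a_mul, pderiv_mul, hp, g4a_X, g4a_lin]
    have h1 : ∀ j, C (M j s) * aff a M (pderiv j (p * X i)) =
        C (M j s) * aff a M (pderiv j p) * (C (a i) + ∑ s', C (M i s') * X s') +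
          (if j = i then aff a M p * C (M i s) else 0) := by
      intro j
      rw [pderiv_mul, g4a_add, g4a_mul, g4a_mul, g4a_X]
      by_cases hj : j = i
      · subst hj
        rw [if_pos rfl, pderiv_X_self]
        have h2 : aff a M (1 : MvPolynomial ι ℂ) = 1 := by
          unfold aff
          rw [map_one]
        rw [h2]
        ring
      · rw [if_neg hj, pderiv_X_of_ne (fun h => hj h.symm)]
        have h2 : aff a M (0 : MvPolynomial ι ℂ) = 0 := by
          unfold aff
          rw [map_zero]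
        rw [h2]
        ring
    rw [Finset.sum_congr rfl (fun j _ => h1 j), Finset.sum_add_distrib, ← Finset.sum_mul,
      Finset.sum_ite_eq' Finset.univ i, if_pos (Finset.mem_univ i)]

theorem g4_int {ι ι' r : Type} [Fintype r] (a : ι → ℂ) (b : ι' → ℂ) (M : Matrix ι r ℂ)
    (N : Matrix ι' r ℂ) (G : MvPolynomial ι ℂ) (H : MvPolynomial ι' ℂ) :
    Integrable (fun g : r → ℂ => eval (a + M.mulVec g) G *
      (starRingEnd ℂ) (eval (b + N.mulVec g) H)) (muG r) := by
  have h := g2_int (aff a M G) (aff b N H)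
  simpa only [eval_aff] using h

theorem g4_swap {ι ι' r : Type} [Fintype r] (a : ι → ℂ) (b : ι' → ℂ) (M : Matrix ι r ℂ)
    (N : Matrix ι' r ℂ) (G : MvPolynomial ι ℂ) (H : MvPolynomial ι' ℂ) :
    WS a b M N G H = (starRingEnd ℂ) (WS b a N M H G) := by
  unfold WS
  rw [← integral_conj]
  congr 1
  funext g
  rw [map_mul, starRingEnd_self_apply, mul_comm]

end H2K
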