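import Pool.Agent.Lib.H2K.G4A

/-!
# H2K chunk G4B (M): the recursion

`eval (a + M g) (X i * G) = (a i + ∑ s, M i s * g s) * eval (a + M g) G`; write
`eval (a + M g) G = eval g (aff a M G)`, `eval (b + N g) H = eval g (aff b N H)` (`eval_aff`), apply `g3_stein` for
every `s` and the chain rule `g4_pderiv`: `conj (eval g (pderiv s (aff b N H))) =
∑ j, conj (N j s) * conj (eval (b + N g) (pderiv j H))`; sum over `s`: `∑ s, M i s * conj (N j s) = (M Nᴴ) i j`.
Integrability from `g4_int`, `g2_int`.
-/

open MeasureTheory MvPolynomial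

namespace H2K

theorem g4_rec {ι ι' r : Type} [Fintype ι'] [Fintype r] (a : ι → ℂ) (b : ι' → ℂ)
    (M : Matrix ι r ℂ) (N : Matrix ι' r ℂ) (G : MvPolynomial ι ℂ) (H : MvPolynomial ι' ℂ) (i : ι) :
    WS a b M N (X i * G) H = a i * WS a b M N G H +
      ∑ j, (M * N.conjTranspose) i j * WS a b M N G (pderiv j H) := by
  have h1 : ∀ s : r, ∫ g : r → ℂ, g s * eval (a + M.mulVec g) G *
      (starRingEnd ℂ) (eval (b + N.mulVec g) H) ∂muG r =
      ∑ j, (starRingEnd ℂ) (N j s) * WS a b M N G (pderiv j H) := by
    intro s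
    have h2 := g3_stein (aff a M G) (aff b N H) s
    simp only [eval_aff] at h2
    rw [h2]
    have h3 : ∀ g : r → ℂ, eval (a + M.mulVec g) G *
        (starRingEnd ℂ) (eval g (pderiv s (aff b N H))) =
        ∑ j, (starRingEnd ℂ) (N j s) * (eval (a + M.mulVec g) G *
          (starRingEnd ℂ) (eval (b + N.mulVec g) (pderiv j H))) := by
      intro g
      rw [g4_pderiv, map_sum, map_sum, Finset.mul_sum]
      apply Finset.sum_congr rfl
      intro j _
      rw [map_mul, map_mul, eval_C, eval_aff]
      ring
    simp only [h3]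
    rw [integral_finsetSum]
    · apply Finset.sum_congr rfl
      intro j _
      rw [integral_const_mul]
      rfl
    · intro j _
      exact (g4_int a b M N G (pderiv j H)).const_mul _
  have hi : ∀ s : r, Integrable (fun g : r → ℂ => g s * eval (a + M.mulVec g) G *
      (starRingEnd ℂ) (eval (b + N.mulVec g) H)) (muG r) := by
    intro s
    have h2 := g2_int (X s * aff a M G) (aff b N H)
    simpa only [map_mul, eval_X, eval_aff] using h2
  have h4 : ∀ g : r → ℂ, eval (a + M.mulVec g) (X i * G) *
      (starRingEnd ℂ) (eval (b + N.mulVec g) H) =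
      a i * (eval (a + M.mulVec g) G * (starRingEnd ℂ) (eval (b + N.mulVec g) H)) +
        ∑ s, M i s * (g s * eval (a + M.mulVec g) G *
          (starRingEnd ℂ) (eval (b + N.mulVec g) H)) := by
    intro g
    have h5 : (a + M.mulVec g) i = a i + ∑ s, M i s * g s := rfl
    rw [map_mul, eval_X, h5, add_mul, add_mul, Finset.sum_mul, Finset.sum_mul]
    congr 1
    · ring
    · apply Finset.sum_congr rfl
      intro s _
      ring
  have h6 : WS a b M N (X i * G) H = ∫ g : r → ℂ,
      (a i * (eval (a + M.mulVec g) G * (starRingEnd ℂ) (eval (b + N.mulVec g) H)) +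
        ∑ s, M i s * (g s * eval (a + M.mulVec g) G *
          (starRingEnd ℂ) (eval (b + N.mulVec g) H))) ∂muG r := by
    unfold WS
    exact congrArg (fun f => ∫ g, f g ∂muG r) (funext h4)
  rw [h6, integral_add ((g4_int a b M N G H).const_mul _)
    (integrable_finsetSum _ (fun s _ => (hi s).const_mul _)), integral_const_mul,
    integral_finsetSum _ (fun s _ => (hi s).const_mul _)]
  congr 1
  have h7 : ∀ s, ∫ g : r → ℂ, M i s * (g s * eval (a + M.mulVec g) G *
      (starRingEnd ℂ) (eval (b + N.mulVec g) H)) ∂muG r =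
      ∑ j, M i s * (starRingEnd ℂ) (N j s) * WS a b M N G (pderiv j H) := by
    intro s
    rw [integral_const_mul, h1 s, Finset.mul_sum]
    apply Finset.sum_congr rfl
    intro j _
    ring
  rw [Finset.sum_congr rfl (fun s _ => h7 s), Finset.sum_comm]
  apply Finset.sum_congr rfl
  intro j _
  rw [← Finset.sum_mul]
  rfl

end H2K
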