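import Pool.Agent.Lib.H2K.G4

/-!
# H2K chunk G5 (M): splitting off an honest Gaussian vector

`M Mᴴ + γ = [M, γ] [M, Q]ᴴ` because `γ Qᴴ = γ` (block matrices `Matrix.fromCols M γ : Matrix ι (r ⊕ ι) ℂ`,
`Matrix.fromCols_mulVec`...), so `W (M Mᴴ + γ) G G = WW [M, γ] [M, Q] G G` (`g4_W`).  `muG (r ⊕ ι)` is the image of
`muG r × muG ι` (`MeasureTheory.measurePreserving_sumPiEquivProdPi` or its inverse; `muG` is `Measure.pi`), then
Fubini (`integral_prod`); integrability on the product from `g4_int`; the inner integral is integrable by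
`Integrable.integral_prod_left`.
-/

open MeasureTheory MvPolynomial

namespace H2K

/-- `φ(v) = E_γ |G(v + ζ)|²` (formal): `∫ G(v + γ g') conj(G(v + Q g'))` -/
noncomputable def phi {ι : Type} [Fintype ι] (γ Q : Matrix ι ι ℂ) (G : MvPolynomial ι ℂ)
    (v : ι → ℂ) : ℂ :=
  ∫ g' : ι → ℂ, eval (v + γ.mulVec g') G * (starRingEnd ℂ) (eval (v + Q.mulVec g') G) ∂muG ι

theorem g5_mp {ι r : Type} [Fintype ι] [Fintype r] :
    MeasurePreserving (MeasurableEquiv.sumPiEquivProdPi (fun _ : r ⊕ ι => ℂ))
      (muG (r ⊕ ι)) ((muG r).prod (muG ι)) := by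
  have : IsProbabilityMeasure stdG := g1_prob
  exact measurePreserving_sumPiEquivProdPi (fun _ : r ⊕ ι => stdG)

theorem g5_fromCols {ι r : Type} [Fintype ι] [DecidableEq ι] [Fintype r] (M : Matrix ι r ℂ)
    (γ : Matrix ι ι ℂ) (g : r ⊕ ι → ℂ) :
    (Matrix.fromCols M γ).mulVec g = M.mulVec (fun s => g (Sum.inl s)) +
      γ.mulVec (fun s => g (Sum.inr s)) := by
  rw [Matrix.fromCols_mulVec]
  rfl

theorem g5_split {ι r : Type} [Fintype ι] [DecidableEq ι] [Fintype r] (M : Matrix ι r ℂ)
    (γ Q : Matrix ι ι ℂ) (hQ : γ * Q.conjTranspose = γ) (G : MvPolynomial ι ℂ) :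
    Integrable (fun g : r → ℂ => phi γ Q G (M.mulVec g)) (muG r) ∧
    W (M * M.conjTranspose + γ) G G = ∫ g : r → ℂ, phi γ Q G (M.mulVec g) ∂muG r := by
  classical
  have := g2_prob r
  have := g2_prob ι
  have h1 : M * M.conjTranspose + γ =
      Matrix.fromCols M γ * (Matrix.fromCols M Q).conjTranspose := by
    rw [Matrix.conjTranspose_fromCols_eq_fromRows_conjTranspose, Matrix.fromCols_mul_fromRows, hQ]
  set f : (r → ℂ) × (ι → ℂ) → ℂ := fun p => eval (M.mulVec p.1 + γ.mulVec p.2) G *
    (starRingEnd ℂ) (eval (M.mulVec p.1 + Q.mulVec p.2) G) with hf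
  have h2 : ∀ g : r ⊕ ι → ℂ, eval ((Matrix.fromCols M γ).mulVec g) G *
      (starRingEnd ℂ) (eval ((Matrix.fromCols M Q).mulVec g) G) =
      f (MeasurableEquiv.sumPiEquivProdPi (fun _ : r ⊕ ι => ℂ) g) := by
    intro g
    rw [g5_fromCols, g5_fromCols]
    rfl
  have hint0 : Integrable (fun g : r ⊕ ι → ℂ => eval ((Matrix.fromCols M γ).mulVec g) G *
      (starRingEnd ℂ) (eval ((Matrix.fromCols M Q).mulVec g) G)) (muG (r ⊕ ι)) := by
    simpa using g4_int (0 : ι → ℂ) (0 : ι → ℂ) (Matrix.fromCols M γ) (Matrix.fromCols M Q) G G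
  have hint : Integrable f ((muG r).prod (muG ι)) := by
    rw [← g5_mp.integrable_comp_emb (MeasurableEquiv.measurableEmbedding _)]
    simp_rw [h2] at hint0
    exact hint0
  have h3 : W (M * M.conjTranspose + γ) G G = ∫ p, f p ∂((muG r).prod (muG ι)) := by
    rw [h1, g4_W, WW, ← g5_mp.integral_comp (MeasurableEquiv.measurableEmbedding _)]
    exact integral_congr_ae (Filter.Eventually.of_forall h2)
  refine ⟨hint.integral_prod_left, ?_⟩
  rw [h3, integral_prod _ hint]
  rfl

theorem g5_WS_cont {ι : Type} [Fintype ι] (γ Q : Matrix ι ι ℂ) (G : MvPolynomial ι ℂ) :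
    ∀ H : MvPolynomial ι ℂ, Continuous fun v : ι → ℂ => WS v v γ Q G H := by
  induction G using MvPolynomial.induction_on with
  | C c =>
    intro H
    have h : (fun v : ι → ℂ => WS v v γ Q (C c) H) =
        fun v : ι → ℂ => c * (starRingEnd ℂ) (eval v H) := by
      funext v
      rw [← g4_one v v γ Q H]
      unfold WS
      rw [← integral_const_mul]
      congr 1
      funext g
      simp
    rw [h]
    exact continuous_const.mul (Complex.continuous_conj.comp (MvPolynomial.continuous_eval H))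
  | add p q hp hq =>
    intro H
    have h : (fun v : ι → ℂ => WS v v γ Q (p + q) H) =
        fun v : ι → ℂ => WS v v γ Q p H + WS v v γ Q q H := by
      funext v
      unfold WS
      rw [← integral_add (g4_int v v γ Q p H) (g4_int v v γ Q q H)]
      congr 1
      funext g
      rw [map_add, add_mul]
    rw [h]
    exact (hp H).add (hq H)
  | mul_X p i hp =>
    intro H
    have h : (fun v : ι → ℂ => WS v v γ Q (p * X i) H) =
        fun v : ι → ℂ => v i * WS v v γ Q p H +
          ∑ j, (γ * Q.conjTranspose) i j * WS v v γ Q p (pderiv j H) := by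
      funext v
      rw [mul_comm p, g4_rec]
    rw [h]
    exact ((continuous_apply i).mul (hp H)).add
      (continuous_finsetSum _ fun j _ => continuous_const.mul (hp _))

/-- `φ` is continuous: `WS v v γ Q G H` is continuous in `v` for all `G`, `H`, by induction on `G` with `g4_rec`
and `g4_one` (no analysis needed). -/
theorem g5_cont {ι : Type} [Fintype ι] (γ Q : Matrix ι ι ℂ) (G : MvPolynomial ι ℂ) :
    Continuous (phi γ Q G) := g5_WS_cont γ Q G G

end H2K
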