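import Pool.Agent.Lib.H2K.G4

/-!
# H2K chunk G6 (M): Wick's theorem for products of coordinates

`E ∏ κ_(a i) conj(∏ κ_(b j)) = ∑_π ∏ β (a i) (b (π i))`.  Induction on `n` with `g4_rec` (shifts 0):
`WS 0 0 β 1 (X (a 0) * G) H = ∑ j, β (a 0) j * WS 0 0 β 1 G (pderiv j H)`; for `H = ∏ X (b j)`:
`∑ j, β (a 0) j * pderiv j H = ∑_l β (a 0) (b l) ∏_(j ≠ l) X (b j)` (product rule), so one gets the expansion
of a permanent along the first row (`Fin.prod_univ_succ`, `Equiv.Perm.decomposeFin`).
-/

open MeasureTheory MvPolynomial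

namespace H2K

theorem g6_pd {ι κ : Type} [DecidableEq κ] (s : Finset κ) (f : κ → MvPolynomial ι ℂ) (j : ι) :
    pderiv j (∏ l ∈ s, f l) = ∑ l ∈ s, pderiv j (f l) * ∏ l' ∈ s.erase l, f l' := by
  induction s using Finset.induction_on with
  | empty => simp
  | insert a s ha ih =>
    rw [Finset.prod_insert ha, Derivation.leibniz, ih, Finset.sum_insert ha, Finset.erase_insert ha,
      smul_eq_mul, smul_eq_mul, Finset.mul_sum]
    have h : ∀ l ∈ s, f a * (pderiv j (f l) * ∏ l' ∈ s.erase l, f l') =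
        pderiv j (f l) * ∏ l' ∈ (insert a s).erase l, f l' := by
      intro l hl
      have hne : a ≠ l := by
        rintro rfl
        exact ha hl
      rw [Finset.erase_insert_of_ne hne, Finset.prod_insert (fun h => ha (Finset.mem_of_mem_erase h))]
      ring
    rw [Finset.sum_congr rfl h]
    ring

theorem g6_erase {M : Type} [CommMonoid M] (n : ℕ) (l : Fin (n + 1)) (F : Fin (n + 1) → M) :
    ∏ l' ∈ Finset.univ.erase l, F l' = ∏ x : Fin n, F (Equiv.swap 0 l x.succ) := by
  have h1 : ∏ l' ∈ Finset.univ.erase (0 : Fin (n + 1)), F (Equiv.swap 0 l l') =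
      ∏ l' ∈ Finset.univ.erase l, F l' := by
    refine Finset.prod_equiv (Equiv.swap 0 l) ?_ (fun _ _ => rfl)
    intro i
    simp only [Finset.mem_erase, Finset.mem_univ, and_true, ne_eq]
    rw [not_iff_not]
    constructor
    · rintro rfl
      exact Equiv.swap_apply_left _ _
    · intro h
      refine (Equiv.swap 0 l).injective ?_
      rw [h, Equiv.swap_apply_left]
  rw [← h1]
  have h2 : Finset.univ.erase (0 : Fin (n + 1)) = Finset.univ.map (Fin.succEmb n) := by
    ext i
    simp only [Finset.mem_erase, Finset.mem_univ, and_true, Finset.mem_map, true_and, ne_eq,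
      Fin.coe_succEmb]
    constructor
    · intro h
      exact ⟨i.pred h, Fin.succ_pred i h⟩
    · rintro ⟨a, rfl⟩
      exact Fin.succ_ne_zero a
  rw [h2, Finset.prod_map]
  rfl

theorem g6_X {ι : Type} [DecidableEq ι] (n : ℕ) (b : Fin (n + 1) → ι) (j : ι) :
    pderiv j (∏ l, X (b l) : MvPolynomial ι ℂ) =
      ∑ l, (if b l = j then 1 else 0) * ∏ x : Fin n, X (b (Equiv.swap 0 l x.succ)) := by
  rw [g6_pd]
  refine Finset.sum_congr rfl fun l _ => ?_
  rw [g6_erase n l (fun l' => (X (b l') : MvPolynomial ι ℂ)), pderiv_X]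
  congr 1
  by_cases h : b l = j
  · subst h
    simp
  · rw [if_neg h, Pi.single_eq_of_ne h]

theorem g6_W0 {ι : Type} [Fintype ι] [DecidableEq ι] (β : Matrix ι ι ℂ)
    (G H : MvPolynomial ι ℂ) : W β G H = WS 0 0 β 1 G H := by
  simp [WS, W, WW]

theorem g6_add {ι : Type} [Fintype ι] [DecidableEq ι] (β : Matrix ι ι ℂ)
    (G H H' : MvPolynomial ι ℂ) : W β G (H + H') = W β G H + W β G H' := by
  rw [g6_W0, g6_W0, g6_W0]
  unfold WS
  rw [← integral_add (g4_int _ _ _ _ _ _) (g4_int _ _ _ _ _ _)]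
  refine integral_congr_ae (Filter.Eventually.of_forall fun g => ?_)
  simp only [map_add]
  ring

theorem g6_zero {ι : Type} [Fintype ι] [DecidableEq ι] (β : Matrix ι ι ℂ)
    (G : MvPolynomial ι ℂ) : W β G 0 = 0 := by
  simp [W, WW]

theorem g6_sum {ι κ : Type} [Fintype ι] [DecidableEq ι] (β : Matrix ι ι ℂ)
    (G : MvPolynomial ι ℂ) (s : Finset κ) (H : κ → MvPolynomial ι ℂ) :
    W β G (∑ l ∈ s, H l) = ∑ l ∈ s, W β G (H l) := by
  classical
  induction s using Finset.induction_on with
  | empty => simp [g6_zero]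
  | insert a s ha ih => rw [Finset.sum_insert ha, Finset.sum_insert ha, g6_add, ih]

theorem g6_rec {ι : Type} [Fintype ι] [DecidableEq ι] (β : Matrix ι ι ℂ)
    (G H : MvPolynomial ι ℂ) (i : ι) :
    W β (X i * G) H = ∑ j, β i j * W β G (pderiv j H) := by
  rw [g6_W0, g4_rec]
  simp only [g6_W0]
  simp

theorem g6_wick {ι : Type} [Fintype ι] [DecidableEq ι] (β : Matrix ι ι ℂ) (n : ℕ)
    (a b : Fin n → ι) :
    W β (∏ i, X (a i)) (∏ j, X (b j)) = ∑ π : Equiv.Perm (Fin n), ∏ i, β (a i) (b (π i)) := by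
  induction n with
  | zero =>
    have h : W β (1 : MvPolynomial ι ℂ) 1 = 1 := by
      rw [g6_W0, g4_one]
      simp
    simpa using h
  | succ n ih =>
    rw [Fin.prod_univ_succ, g6_rec]
    have h1 : ∀ j, W β (∏ i : Fin n, X (a i.succ)) (pderiv j (∏ l, X (b l))) =
        ∑ l, (if b l = j then 1 else 0) *
          ∑ π : Equiv.Perm (Fin n), ∏ i, β (a i.succ) (b (Equiv.swap 0 l (π i).succ)) := by
      intro j
      rw [g6_X, g6_sum]
      refine Finset.sum_congr rfl fun l _ => ?_
      split_ifs with h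
      · rw [one_mul, one_mul]
        exact ih (fun i => a i.succ) (fun x => b (Equiv.swap 0 l x.succ))
      · rw [zero_mul, zero_mul, g6_zero]
    simp only [h1]
    simp only [Finset.mul_sum (s := (Finset.univ : Finset (Fin (n + 1))))]
    rw [Finset.sum_comm]
    have h2 : ∀ l : Fin (n + 1), ∑ j, β (a 0) j * ((if b l = j then 1 else 0) *
          ∑ π : Equiv.Perm (Fin n), ∏ i, β (a i.succ) (b (Equiv.swap 0 l (π i).succ))) =
        ∑ π : Equiv.Perm (Fin n), β (a 0) (b l) *
          ∏ i : Fin n, β (a i.succ) (b (Equiv.swap 0 l (π i).succ)) := by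
      intro l
      rw [Finset.sum_eq_single (b l)]
      · rw [if_pos rfl, one_mul, Finset.mul_sum]
      · intro j _ hj
        rw [if_neg (Ne.symm hj), zero_mul, mul_zero]
      · intro h
        exact absurd (Finset.mem_univ _) h
    simp only [h2]
    rw [← Equiv.sum_comp (Equiv.Perm.decomposeFin (n := n)).symm
      (fun π : Equiv.Perm (Fin (n + 1)) => ∏ i, β (a i) (b (π i))), Fintype.sum_prod_type]
    refine Finset.sum_congr rfl fun l _ => Finset.sum_congr rfl fun π _ => ?_
    rw [Fin.prod_univ_succ]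
    simp only [Equiv.Perm.decomposeFin_symm_apply_zero, Equiv.Perm.decomposeFin_symm_apply_succ]

end H2K
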