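import Pool.Agent.Lib.H2K.G6

/-!
# H2K chunk G7 (M): `E |hPf|² = n! GB`

Expand `hPf` on both sides (`W` is additive in the first and conjugate linear in the second argument; all
integrands are integrable, `g4_int`), `g6_wick`: `∑_σ ∑_τ sign σ sign τ ∑_π ∏ i, β (σ i-th pair) (τ (π i)-th pair)`.
For `π : Perm (Fin n)` let `pp π : Perm (Fin (2 n))` be the permutation which sends `fst i` to `fst (π i)` and
`snd i` to `snd (π i)` (transport `π × id` along `Fin n × Fin 2 ≃ Fin (2 n)`, `(i, e) ↦ 2 i + e`); its sign is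
`sign π ^ 2 = 1` (`Equiv.Perm.sign_prodCongrLeft/Right`, or: `pp` is a homomorphism and the sign of `pp` of a
transposition is 1).  Substitute `τ → τ * (pp π)⁻¹` in the inner sum: every `π` contributes the same.
-/

open MeasureTheory MvPolynomial Pool.Agent.H69Hopf

namespace H2K

theorem g7_bilin {ι κ κ' : Type} [Fintype ι] [DecidableEq ι] [Fintype κ] [Fintype κ']
    (β : Matrix ι ι ℂ) (c : κ → ℂ) (G : κ → MvPolynomial ι ℂ) (d : κ' → ℂ)
    (H : κ' → MvPolynomial ι ℂ) :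
    W β (∑ s, C (c s) * G s) (∑ t, C (d t) * H t) =
      ∑ s, ∑ t, c s * (starRingEnd ℂ) (d t) * W β (G s) (H t) := by
  unfold W WW
  have hint : ∀ s t, Integrable (fun g : ι → ℂ => eval (β.mulVec g) (G s) *
      (starRingEnd ℂ) (eval ((1 : Matrix ι ι ℂ).mulVec g) (H t))) (muG ι) := by
    intro s t
    simpa using g4_int (0 : ι → ℂ) (0 : ι → ℂ) β (1 : Matrix ι ι ℂ) (G s) (H t)
  have h1 : ∀ g : ι → ℂ, eval (β.mulVec g) (∑ s, C (c s) * G s) *
      (starRingEnd ℂ) (eval ((1 : Matrix ι ι ℂ).mulVec g) (∑ t, C (d t) * H t)) =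
      ∑ s, ∑ t, c s * (starRingEnd ℂ) (d t) * (eval (β.mulVec g) (G s) *
      (starRingEnd ℂ) (eval ((1 : Matrix ι ι ℂ).mulVec g) (H t))) := by
    intro g
    simp only [map_sum, map_mul, eval_C]
    rw [Finset.sum_mul_sum]
    refine Finset.sum_congr rfl fun s _ => Finset.sum_congr rfl fun t _ => ?_
    ring
  simp_rw [h1]
  rw [integral_finsetSum]
  · refine Finset.sum_congr rfl fun s _ => ?_
    rw [integral_finsetSum]
    · refine Finset.sum_congr rfl fun t _ => ?_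
      rw [integral_const_mul]
    · intro t _
      exact (hint s t).const_mul _
  · intro s _
    refine integrable_finsetSum _ fun t _ => (hint s t).const_mul _

/-- `(i, e) ↦ 2 i + e` -/
def g7_e (n : ℕ) : Fin n × Fin 2 ≃ Fin (2 * n) :=
  finProdFinEquiv.trans (finCongr (mul_comm n 2))

theorem g7_e0 (n : ℕ) (i : Fin n) : g7_e n (i, 0) = fst i := by
  apply Fin.ext
  simp [g7_e, fst]

theorem g7_e1 (n : ℕ) (i : Fin n) : g7_e n (i, 1) = snd i := by
  apply Fin.ext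
  simp [g7_e, snd]
  omega

/-- the permutation of the pairs -/
def g7_pp (n : ℕ) (π : Equiv.Perm (Fin n)) : Equiv.Perm (Fin (2 * n)) :=
  (g7_e n).permCongr (Equiv.prodCongrLeft fun _ : Fin 2 => π)

theorem g7_pp_fst (n : ℕ) (π : Equiv.Perm (Fin n)) (i : Fin n) :
    g7_pp n π (fst i) = fst (π i) := by
  rw [← g7_e0, ← g7_e0, g7_pp, Equiv.permCongr_apply, Equiv.symm_apply_apply]
  rfl

theorem g7_pp_snd (n : ℕ) (π : Equiv.Perm (Fin n)) (i : Fin n) :
    g7_pp n π (snd i) = snd (π i) := by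
  rw [← g7_e1, ← g7_e1, g7_pp, Equiv.permCongr_apply, Equiv.symm_apply_apply]
  rfl

theorem g7_pp_sign (n : ℕ) (π : Equiv.Perm (Fin n)) : Equiv.Perm.sign (g7_pp n π) = 1 := by
  rw [g7_pp, Equiv.Perm.sign_permCongr, Equiv.Perm.sign_prodCongrLeft, Fin.prod_univ_two]
  exact Int.units_mul_self _

theorem g7_W (n : ℕ) (S : Arr (2 * n)) :
    W (cov S) (hPf n) (hPf n) = (n.factorial : ℂ) * (gaussBonnet n S : ℂ) := by
  classical
  unfold hPf
  rw [g7_bilin]
  simp_rw [g6_wick]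
  have h1 : ∀ (σ : Equiv.Perm (Fin (2 * n))) (π : Equiv.Perm (Fin n)),
      (∑ τ : Equiv.Perm (Fin (2 * n)), ((((Equiv.Perm.sign σ : ℤ)) : ℂ)) *
        (starRingEnd ℂ) ((((Equiv.Perm.sign τ : ℤ)) : ℂ)) *
        ∏ i : Fin n, cov S (σ (fst i), σ (snd i)) (τ (fst (π i)), τ (snd (π i)))) =
      (∑ τ : Equiv.Perm (Fin (2 * n)), ((((Equiv.Perm.sign σ : ℤ)) : ℂ)) *
        ((((Equiv.Perm.sign τ : ℤ)) : ℂ)) *
        ∏ i : Fin n, cov S (σ (fst i), σ (snd i)) (τ (fst i), τ (snd i))) := by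
    intro σ π
    rw [← Equiv.sum_comp (Equiv.mulRight (g7_pp n π)) (fun τ : Equiv.Perm (Fin (2 * n)) =>
      ((((Equiv.Perm.sign σ : ℤ)) : ℂ)) * ((((Equiv.Perm.sign τ : ℤ)) : ℂ)) *
        ∏ i : Fin n, cov S (σ (fst i), σ (snd i)) (τ (fst i), τ (snd i)))]
    refine Finset.sum_congr rfl fun τ _ => ?_
    rw [Equiv.coe_mulRight, map_mul, g7_pp_sign, mul_one, map_intCast]
    congr 1
    refine Finset.prod_congr rfl fun i _ => ?_
    rw [Equiv.Perm.mul_apply, Equiv.Perm.mul_apply, g7_pp_fst, g7_pp_snd]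
  have h2 : ∀ σ : Equiv.Perm (Fin (2 * n)),
      (∑ τ : Equiv.Perm (Fin (2 * n)), ((((Equiv.Perm.sign σ : ℤ)) : ℂ)) *
        (starRingEnd ℂ) ((((Equiv.Perm.sign τ : ℤ)) : ℂ)) *
        ∑ π : Equiv.Perm (Fin n),
        ∏ i : Fin n, cov S (σ (fst i), σ (snd i)) (τ (fst (π i)), τ (snd (π i)))) =
      (n.factorial : ℂ) * (∑ τ : Equiv.Perm (Fin (2 * n)), ((((Equiv.Perm.sign σ : ℤ)) : ℂ)) *
        ((((Equiv.Perm.sign τ : ℤ)) : ℂ)) *
        ∏ i : Fin n, cov S (σ (fst i), σ (snd i)) (τ (fst i), τ (snd i))) := by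
    intro σ
    simp_rw [Finset.mul_sum (Finset.univ : Finset (Equiv.Perm (Fin n)))]
    rw [Finset.sum_comm, Finset.sum_congr rfl fun π _ => h1 σ π, Finset.sum_const,
      Finset.card_univ, Fintype.card_perm, Fintype.card_fin, nsmul_eq_mul]
  rw [Finset.sum_congr rfl fun σ _ => h2 σ, ← Finset.mul_sum]
  congr 1
  unfold gaussBonnet cov
  push_cast
  rfl

end H2K
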