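import Pool.Agent.Lib.H2K.I0B

/-!
# H2K chunk I0 (S/M): elementary facts on the Hermitian form `qf`

`i0_TU`: `qf (A β Aᴴ) ξ = qf β (Aᵀ ξ)`, `Aᵀ ξ = push u ξ` for `A = TU u`.
`i0_skew`: a Hermitian form which is skew in the first index pair sees only `ξ(p,q) - ξ(q,p)` (it is skew in the
second index pair too: `β c (p, q) = conj (β (p,q) c)`): `2 ∑ ξ(p,q) β(p,q) c = ∑ (ξ(p,q) - ξ(q,p)) β(p,q) c`.
`i0_weak`: if `biv z w` is symmetric then `qf = qf 0 = 0` by `i0_skew`, else `StrictPos`.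
-/

namespace H2K

/-- `qf` as a product -/
theorem i0_qf {ι : Type} [Fintype ι] (β : Matrix ι ι ℂ) (ξ : ι → ℂ) :
    qf β ξ = ξ ⬝ᵥ β.mulVec (star ξ) := by
  unfold qf
  simp only [dotProduct, Matrix.mulVec]
  apply Finset.sum_congr rfl
  intro a _
  rw [Finset.mul_sum]
  apply Finset.sum_congr rfl
  intro b _
  have : (star ξ) b = (starRingEnd ℂ) (ξ b) := rfl
  rw [this]
  ring

/-- `qf (A β Aᴴ) ξ = qf β (Aᵀ ξ)` -/
theorem i0_mul {ι κ : Type} [Fintype ι] [Fintype κ] (A : Matrix ι κ ℂ) (β : Matrix κ κ ℂ)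
    (ξ : ι → ℂ) : qf (A * β * A.conjTranspose) ξ = qf β (Matrix.vecMul ξ A) := by
  rw [i0_qf, i0_qf, Matrix.star_vecMul, ← Matrix.mulVec_mulVec, ← Matrix.mulVec_mulVec,
    Matrix.dotProduct_mulVec]

theorem i0_TU {J : Type} [Fintype J] (u : Matrix J J ℂ) (β : Matrix (J × J) (J × J) ℂ)
    (ξ : J × J → ℂ) : qf (TU u * β * (TU u).conjTranspose) ξ = qf β (push u ξ) := by
  rw [i0_mul]
  congr 1
  funext c
  unfold push
  simp only [Matrix.vecMul, dotProduct, TU]
  rw [Fintype.sum_prod_type]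
  apply Finset.sum_congr rfl
  intro p _
  apply Finset.sum_congr rfl
  intro q _
  ring

theorem i0_herm {ι : Type} [Fintype ι] (β : Matrix ι ι ℂ) (hβ : β.IsHermitian) (ξ : ι → ℂ) :
    (qf β ξ).im = 0 := by
  rw [← Complex.conj_eq_iff_im]
  unfold qf
  simp only [map_sum, map_mul, Complex.conj_conj]
  rw [Finset.sum_comm]
  apply Finset.sum_congr rfl
  intro b _
  apply Finset.sum_congr rfl
  intro a _
  have h : (starRingEnd ℂ) (β a b) = β b a := hβ.apply b a
  rw [h]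
  ring

theorem i0_sum {J : Type} [Fintype J] (β : Matrix (J × J) (J × J) ℂ)
    (hs : ∀ p q c, β (p, q) c = -β (q, p) c) (ξ η : J × J → ℂ)
    (h : ∀ p q, ξ (p, q) - ξ (q, p) = η (p, q) - η (q, p)) (c : J × J) :
    ∑ a, ξ a * β a c = ∑ a, η a * β a c := by
  have h0 : ∑ a, (ξ a - η a) * β a c = 0 := by
    have h1 : ∑ a, (ξ a - η a) * β a c = -∑ a, (ξ a - η a) * β a c := by
      conv_lhs => rw [Fintype.sum_prod_type, Finset.sum_comm]
      rw [Fintype.sum_prod_type, ← Finset.sum_neg_distrib]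
      apply Finset.sum_congr rfl
      intro p _
      rw [← Finset.sum_neg_distrib]
      apply Finset.sum_congr rfl
      intro q _
      rw [hs q p c]
      have := h p q
      have h2 : ξ (q, p) - η (q, p) = ξ (p, q) - η (p, q) := by linear_combination -this
      rw [h2]
      ring
    have h3 : (2 : ℂ) * ∑ a, (ξ a - η a) * β a c = 0 := by linear_combination h1
    rcases mul_eq_zero.mp h3 with h4 | h4
    · norm_num at h4
    · exact h4
  have h5 : ∑ a, (ξ a - η a) * β a c = ∑ a, ξ a * β a c - ∑ a, η a * β a c := by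
    rw [← Finset.sum_sub_distrib]
    apply Finset.sum_congr rfl
    intro a _
    ring
  rw [h5] at h0
  exact sub_eq_zero.mp h0

theorem i0_skew {J : Type} [Fintype J] (β : Matrix (J × J) (J × J) ℂ) (hβ : β.IsHermitian)
    (hs : ∀ p q c, β (p, q) c = -β (q, p) c) (ξ η : J × J → ℂ)
    (h : ∀ p q, ξ (p, q) - ξ (q, p) = η (p, q) - η (q, p)) : qf β ξ = qf β η := by
  have h1 := i0_sum β hs ξ η h
  have h2 : ∀ a, ∑ b, (starRingEnd ℂ) (ξ b) * β a b = ∑ b, (starRingEnd ℂ) (η b) * β a b := by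
    intro a
    have h3 := congrArg (starRingEnd ℂ) (h1 a)
    rw [map_sum, map_sum] at h3
    have h4 : ∀ b, (starRingEnd ℂ) (β b a) = β a b := fun b => hβ.apply a b
    simpa only [map_mul, h4] using h3
  have h5 : ∀ ζ : J × J → ℂ, qf β ζ = ∑ a, ζ a * ∑ b, (starRingEnd ℂ) (ζ b) * β a b := by
    intro ζ
    unfold qf
    apply Finset.sum_congr rfl
    intro a _
    rw [Finset.mul_sum]
    apply Finset.sum_congr rfl
    intro b _
    ring
  rw [h5, h5]
  simp only [h2]
  have h6 : ∀ ζ : J × J → ℂ, ∑ a, ζ a * ∑ b, (starRingEnd ℂ) (η b) * β a b =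
      ∑ b, (starRingEnd ℂ) (η b) * ∑ a, ζ a * β a b := by
    intro ζ
    simp only [Finset.mul_sum]
    rw [Finset.sum_comm]
    apply Finset.sum_congr rfl
    intro b _
    apply Finset.sum_congr rfl
    intro a _
    ring
  rw [h6, h6]
  simp only [h1]

theorem i0_weak (n k : ℕ)
    (α : Matrix (Fin (2 * n) × Fin (2 * n)) (Fin (2 * n) × Fin (2 * n)) ℂ) (hα : α.IsHermitian)
    (hs : ∀ p q c, α (p, q) c = -α (q, p) c) (hp : StrictPos n k α)
    (z w : Fin k → Fin (2 * n) → ℂ) : 0 ≤ (qf α (biv z w)).re := by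
  by_cases h : ∃ a b, biv z w (a, b) ≠ biv z w (b, a)
  · exact (hp z w h).le
  · push Not at h
    rw [i0_skew α hα hs (biv z w) 0]
    · simp [qf]
    · intro p q
      rw [h p q]
      simp

end H2K
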