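import Pool.Agent.Lib.H2K.Defs

/-!
# H2K chunk I0A (S/M): the index maps `ix`, `eH` and the matrix `uu`

`ix n j` has value `j` for `j < 2 n`; the indices `p < i`, `s`, `m + q` (`i ≤ s < m`, `q < i`) are different.
`i0_det`: `uu` is the identity plus a matrix whose only nonzero entries are in the column `s` and the rows `m + q`
(`≠ s`): e.g. `Matrix.det_one_add_mul_comm` / `det_one_add_replicateCol_mul_replicateRow` with the column
`-∑ a_q e_(m+q)` and the row `e_s` (inner product 0).
-/

namespace H2K

theorem i0_ix (n : ℕ) [NeZero n] (j : ℕ) (hj : j < 2 * n) : (ix n j).val = j := by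
  unfold ix
  exact Nat.mod_eq_of_lt hj

theorem i0_eH (n : ℕ) [NeZero n] (m s i : ℕ) (hi : i ≤ s) (hs : s < m) (hm : m + i ≤ 2 * n) :
    Function.Injective (eH n m s i) := by
  intro x y hxy
  rcases x with ⟨t1, t2⟩ | p <;> rcases y with ⟨u1, u2⟩ | r
  · simp only [eH, Prod.mk.injEq] at hxy
    obtain ⟨h1, h2⟩ := hxy
    have h1' := congrArg Fin.val h1
    have h2' := congrArg Fin.val h2
    rw [i0_ix n _ (by omega), i0_ix n _ (by omega)] at h1' h2'
    have e1 : t1 = u1 := Fin.ext (by omega)
    have e2 : t2 = u2 := Fin.ext (by omega)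
    rw [e1, e2]
  · simp only [eH, Prod.mk.injEq] at hxy
    obtain ⟨h1, h2⟩ := hxy
    have h2' := congrArg Fin.val h2
    rw [i0_ix n _ (by omega), i0_ix n _ (by omega)] at h2'
    omega
  · simp only [eH, Prod.mk.injEq] at hxy
    obtain ⟨h1, h2⟩ := hxy
    have h2' := congrArg Fin.val h2
    rw [i0_ix n _ (by omega), i0_ix n _ (by omega)] at h2'
    omega
  · simp only [eH, Prod.mk.injEq] at hxy
    obtain ⟨h1, h2⟩ := hxy
    have h1' := congrArg Fin.val h1
    rw [i0_ix n _ (by omega), i0_ix n _ (by omega)] at h1'
    have e1 : p = r := Fin.ext (by omega)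
    rw [e1]

/-- the entries of `uu` -/
theorem i0_uu (n : ℕ) [NeZero n] (m s : ℕ) {i : ℕ} (hs : s < m) (hm : m + i ≤ 2 * n)
    (a : Fin i → ℂ) (p q : Fin (2 * n)) :
    uu n m s a p q = if q.val = s then
      (if h : m ≤ p.val ∧ p.val - m < i then -a ⟨p.val - m, h.2⟩ else if p = q then 1 else 0)
      else if p = q then 1 else 0 := by
  have hkey : uu n m s a p q = (if p = q then (1 : ℂ) else 0) -
      ∑ r : Fin i, a r * (if ix n (m + r) = p ∧ ix n s = q then 1 else 0) := by
    unfold uu
    rw [Matrix.sub_apply, Matrix.sum_apply, Matrix.one_apply]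
    rfl
  rw [hkey]
  by_cases hq : q.val = s
  · rw [if_pos hq]
    by_cases hp : m ≤ p.val ∧ p.val - m < i
    · rw [dif_pos hp]
      have hpq : p ≠ q := by
        intro h
        rw [h] at hp
        omega
      rw [if_neg hpq, Finset.sum_eq_single (⟨p.val - m, hp.2⟩ : Fin i)]
      · have h1 : ix n (m + (⟨p.val - m, hp.2⟩ : Fin i).val) = p := by
          apply Fin.ext
          rw [i0_ix n _ (by simp only; omega)]
          simp only
          omega
        have h2 : ix n s = q := by
          apply Fin.ext
          rw [i0_ix n _ (by omega)]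
          exact hq.symm
        rw [if_pos ⟨h1, h2⟩]
        ring
      · intro r _ hr
        have : ¬ (ix n (m + r) = p ∧ ix n s = q) := by
          rintro ⟨h1, -⟩
          have h1' := congrArg Fin.val h1
          rw [i0_ix n _ (by omega)] at h1'
          apply hr
          apply Fin.ext
          simp only
          omega
        rw [if_neg this]
        ring
      · intro h
        exact absurd (Finset.mem_univ _) h
    · rw [dif_neg hp]
      rw [Finset.sum_eq_zero]
      · ring
      · intro r _
        have : ¬ (ix n (m + r) = p ∧ ix n s = q) := by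
          rintro ⟨h1, -⟩
          have h1' := congrArg Fin.val h1
          rw [i0_ix n _ (by omega)] at h1'
          apply hp
          omega
        rw [if_neg this]
        ring
  · rw [if_neg hq]
    rw [Finset.sum_eq_zero]
    · ring
    · intro r _
      have : ¬ (ix n (m + r) = p ∧ ix n s = q) := by
        rintro ⟨-, h2⟩
        have h2' := congrArg Fin.val h2
        rw [i0_ix n _ (by omega)] at h2'
        exact hq h2'.symm
      rw [if_neg this]
      ring

theorem i0_det (n : ℕ) [NeZero n] (m s : ℕ) {i : ℕ} (hs : s < m) (hm : m + i ≤ 2 * n)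
    (a : Fin i → ℂ) : (uu n m s a).det = 1 := by
  have hsn : s < 2 * n := by omega
  have h : uu n m s a = 1 + Matrix.replicateCol Unit
      (fun p : Fin (2 * n) => if h : m ≤ p.val ∧ p.val - m < i then -a ⟨p.val - m, h.2⟩ else 0) *
      Matrix.replicateRow Unit (Pi.single (ix n s) (1 : ℂ)) := by
    ext p q
    rw [i0_uu n m s hs hm a p q, Matrix.add_apply, Matrix.mul_apply, Matrix.one_apply]
    simp only [Finset.univ_unique, Finset.sum_singleton, Matrix.replicateCol_apply,
      Matrix.replicateRow_apply]
    by_cases hq : q.val = s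
    · rw [if_pos hq]
      have hq' : q = ix n s := by
        apply Fin.ext
        rw [i0_ix n s hsn]
        exact hq
      rw [hq', Pi.single_eq_same]
      by_cases hp : m ≤ p.val ∧ p.val - m < i
      · rw [dif_pos hp, dif_pos hp]
        have hpq : p ≠ ix n s := by
          intro h
          have := congrArg Fin.val h
          rw [i0_ix n s hsn] at this
          omega
        rw [if_neg hpq]
        ring
      · rw [dif_neg hp, dif_neg hp]
        ring
    · rw [if_neg hq]
      have hq' : q ≠ ix n s := by
        intro h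
        apply hq
        rw [h, i0_ix n s hsn]
      rw [Pi.single_eq_of_ne hq']
      ring
  rw [h, Matrix.det_one_add_replicateCol_mul_replicateRow]
  have h0 : (Pi.single (ix n s) (1 : ℂ)) ⬝ᵥ
      (fun p : Fin (2 * n) => if h : m ≤ p.val ∧ p.val - m < i then -a ⟨p.val - m, h.2⟩ else 0) =
      0 := by
    rw [single_dotProduct]
    rw [dif_neg]
    · ring
    · rw [i0_ix n s hsn]
      omega
  rw [h0]
  ring

end H2K
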