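import Pool.Agent.Lib.H2K.I0A

/-!
# H2K chunk I0B (S/M): elementary facts on `push`, `biv`, `TU`

Finite sums.  `push g ξ` is the matrix `g * Matrix.of (ξ(p,q)) * gᵀ`: it may be convenient to prove this first
(`push g ξ (a,b) = (g * (Matrix.of fun p q => ξ (p,q)) * gᵀ) a b`) and to use matrix algebra for the rest.
-/

namespace H2K

/-- the matrix of the entries of `ξ` -/
def i0m {J : Type} (ξ : J × J → ℂ) : Matrix J J ℂ := Matrix.of fun p q => ξ (p, q)

theorem i0_mat {J : Type} [Fintype J] (g : Matrix J J ℂ) (ξ : J × J → ℂ) :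
    push g ξ = fun c => (g * i0m ξ * g.transpose) c.1 c.2 := by
  funext c
  simp only [push, Matrix.mul_apply, Matrix.transpose_apply, i0m, Matrix.of_apply, Finset.sum_mul]
  rw [Finset.sum_comm]

theorem i0_mm {J : Type} [Fintype J] (g : Matrix J J ℂ) (ξ : J × J → ℂ) :
    i0m (push g ξ) = g * i0m ξ * g.transpose := by
  rw [i0_mat]
  rfl

theorem i0_inj {J : Type} {ξ η : J × J → ℂ} (h : i0m ξ = i0m η) : ξ = η := by
  funext c
  exact congrFun (congrFun h c.1) c.2

theorem i0_biv {J : Type} [Fintype J] {k : ℕ} (g : Matrix J J ℂ) (z w : Fin k → J → ℂ) :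
    push g (biv z w) = biv (fun l => g.mulVec (z l)) (fun l => g.mulVec (w l)) := by
  funext c
  simp only [push, biv, Matrix.mulVec, dotProduct, Finset.mul_sum, Finset.sum_mul]
  rw [Finset.sum_comm]
  simp only [Finset.sum_comm (s := (Finset.univ : Finset J)) (t := (Finset.univ : Finset (Fin k)))]
  refine Finset.sum_congr rfl fun l _ => Finset.sum_congr rfl fun p _ =>
    Finset.sum_congr rfl fun q _ => ?_
  ring

theorem i0_push {J : Type} [Fintype J] (g u : Matrix J J ℂ) (ξ : J × J → ℂ) :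
    push g (push u ξ) = push (g * u) ξ := by
  apply i0_inj
  simp only [i0_mm, Matrix.transpose_mul, Matrix.mul_assoc]

theorem i0_add {J : Type} [Fintype J] (g : Matrix J J ℂ) (ξ η : J × J → ℂ) :
    push g (ξ + η) = push g ξ + push g η := by
  funext c
  simp only [push, Pi.add_apply, mul_add, add_mul, Finset.sum_add_distrib]

theorem i0_one {J : Type} [Fintype J] [DecidableEq J] (ξ : J × J → ℂ) :
    push (1 : Matrix J J ℂ) ξ = ξ := by
  apply i0_inj
  rw [i0_mm, Matrix.transpose_one, Matrix.mul_one, Matrix.one_mul]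

/-- `TU u κ = uᵀ κ u` -/
theorem i0_TUv {J : Type} [Fintype J] (u : Matrix J J ℂ) (κ : J × J → ℂ) :
    (TU u).mulVec κ = fun c => ∑ a, ∑ b, u a c.1 * κ (a, b) * u b c.2 := by
  funext c
  simp only [TU, Matrix.mulVec, dotProduct]
  rw [Fintype.sum_prod_type]
  refine Finset.sum_congr rfl fun a _ => Finset.sum_congr rfl fun b _ => ?_
  ring

/-- `push g` preserves equality of skew parts -/
theorem i0_part {J : Type} [Fintype J] (g : Matrix J J ℂ) (ξ η : J × J → ℂ)
    (h : ∀ p q, ξ (p, q) - ξ (q, p) = η (p, q) - η (q, p)) (p q : J) :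
    push g ξ (p, q) - push g ξ (q, p) = push g η (p, q) - push g η (q, p) := by
  have key : i0m ξ - (i0m ξ).transpose = i0m η - (i0m η).transpose := by
    ext a b
    exact h a b
  have h2 : ∀ ζ : J × J → ℂ, push g ζ (p, q) - push g ζ (q, p) =
      (g * (i0m ζ - (i0m ζ).transpose) * g.transpose) p q := by
    intro ζ
    rw [Matrix.mul_sub, Matrix.sub_mul, Matrix.sub_apply]
    have e1 : push g ζ (p, q) = (g * i0m ζ * g.transpose) p q := congrFun (i0_mat g ζ) (p, q)
    have e2 : push g ζ (q, p) = (g * (i0m ζ).transpose * g.transpose) p q := by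
      have : push g ζ (q, p) = (g * i0m ζ * g.transpose) q p := congrFun (i0_mat g ζ) (q, p)
      rw [this, ← Matrix.transpose_apply (g * i0m ζ * g.transpose) p q]
      simp only [Matrix.transpose_mul, Matrix.transpose_transpose, Matrix.mul_assoc]
    rw [e1, e2]
  rw [h2, h2, key]

/-- for invertible `g`, `push g ξ` is symmetric only if `ξ` is -/
theorem i0_nonsym {J : Type} [Fintype J] [DecidableEq J] (g : Matrix J J ℂ) (hg : IsUnit g.det)
    (ξ : J × J → ℂ) (h : ∃ a b, ξ (a, b) ≠ ξ (b, a)) :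
    ∃ a b, push g ξ (a, b) ≠ push g ξ (b, a) := by
  by_contra hc
  push Not at hc
  obtain ⟨a, b, hab⟩ := h
  apply hab
  have h1 : ∀ p q, push g ξ (p, q) - push g ξ (q, p) =
      push g (0 : J × J → ℂ) (p, q) - push g (0 : J × J → ℂ) (q, p) := by
    intro p q
    rw [hc p q, sub_self]
    simp [push]
  have h2 := i0_part g⁻¹ (push g ξ) (push g 0) h1 a b
  rw [i0_push, i0_push, Matrix.nonsing_inv_mul g hg, i0_one, i0_one] at h2
  simpa [sub_eq_zero] using h2

end H2K
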