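import Pool.Agent.Lib.H2K.I0

/-!
# H2K chunk I1 (M): the stage invariant after a step

Notation: `m = 2n - k`, `i = min s k`, `e = eH n m s i`, `u = uu n m s a`, `β'' = TU u β' (TU u)ᴴ`.
`push u (single (p, s) 1) = single (p, s) 1 - ∑ q, a q • single (p, m+q) 1` for `p < i` (`i0_uu`; `p ≠ s`): so the
correction in `hform` is `push u (∑ p, s p • single (ix p, ix s) 1)`; and `push u σ = σ` for `σ` supported on
`p < k`, `p < q < s` (columns `≠ s` of `u` are those of `1`).
herm: clear.  skew: `β'` is skew in the first pair by `hrel` with `η = single (p,q) + single (q,p)`, and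
`β'' (p,q) c = ∑ u a p u b q β' (a,b) ..`.
zero: `p < k`, `p < q < s`: `β'' (p,q) c` is a combination of the `β' (p, q) d`, which vanish by `hrel` (`η = single (p,q)`)
and `zero` of the stage `s`; `q = s` (then `p < s`, `p < k`, so `p < i`): `κ''(p,s) = κ'(p,s) - ∑ q a_q κ'(p,m+q) = 0` by
`hb`.  unit: `det (g u) = det g`.
form: `qf β'' ξ = qf β' (push u ξ)` (`i0_TU`) `= qf β (push u ξ + push u (..)) = qf α (push g (push u ξ + push u .. + σ))`
`= qf α (push (g u) (ξ + .. + σ))`.
-/

namespace H2K

theorem i1_smul {J : Type} [Fintype J] (u : Matrix J J ℂ) (t : ℂ) (ξ : J × J → ℂ) :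
    push u (t • ξ) = t • push u ξ := by
  funext c
  simp only [push, Pi.smul_apply, smul_eq_mul, Finset.mul_sum]
  apply Finset.sum_congr rfl
  intro p _
  apply Finset.sum_congr rfl
  intro q _
  ring

theorem i1_sum {J K : Type} [Fintype J] [Fintype K] (u : Matrix J J ℂ) (t : K → ℂ)
    (v : K → J × J → ℂ) : push u (∑ p, t p • v p) = ∑ p, t p • push u (v p) := by
  have h := map_sum (AddMonoidHom.mk' (push u) (i0_add u)) (fun p => t p • v p) Finset.univ
  simp only [AddMonoidHom.mk'_apply] at h
  rw [h]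
  apply Finset.sum_congr rfl
  intro p _
  exact i1_smul u (t p) (v p)

/-- column `s` of `uu` -/
theorem i1_col (n : ℕ) [NeZero n] (m s : ℕ) {i : ℕ} (a : Fin i → ℂ) (b : Fin (2 * n)) :
    uu n m s a b (ix n s) = (if b = ix n s then 1 else 0) -
      ∑ q, a q * (if b = ix n (m + q) then 1 else 0) := by
  unfold uu
  rw [Matrix.sub_apply, Matrix.sum_apply, Matrix.one_apply]
  congr 1
  apply Finset.sum_congr rfl
  intro r _
  rw [Matrix.smul_apply, Matrix.single_apply, smul_eq_mul]
  by_cases h : b = ix n (m + r)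
  · rw [if_pos ⟨h.symm, rfl⟩, if_pos h]
  · rw [if_neg (fun hh => h hh.1.symm), if_neg h]

theorem i1_col' (n : ℕ) [NeZero n] (m s : ℕ) {i : ℕ} (hs : s < m) (hm : m + i ≤ 2 * n)
    (a : Fin i → ℂ) (b q : Fin (2 * n)) (hq : q.val ≠ s) :
    uu n m s a b q = if b = q then 1 else 0 := by
  rw [i0_uu n m s hs hm a b q, if_neg hq]

theorem i1_single {J : Type} [Fintype J] [DecidableEq J] (u : Matrix J J ℂ) (p q : J) :
    push u (Pi.single (p, q) (1 : ℂ)) = fun c => u c.1 p * u c.2 q := by
  funext c
  unfold push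
  rw [Finset.sum_eq_single p, Finset.sum_eq_single q]
  · rw [Pi.single_eq_same]
    ring
  · intro q' _ hq'
    rw [Pi.single_eq_of_ne (fun h => hq' (Prod.ext_iff.mp h).2)]
    ring
  · intro h
    exact absurd (Finset.mem_univ _) h
  · intro p' _ hp'
    apply Finset.sum_eq_zero
    intro q' _
    rw [Pi.single_eq_of_ne (fun h => hp' (Prod.ext_iff.mp h).1)]
    ring
  · intro h
    exact absurd (Finset.mem_univ _) h

theorem i1_corr (n : ℕ) [NeZero n] (m s : ℕ) {i : ℕ} (hi : i ≤ s) (hs : s < m)
    (hm : m + i ≤ 2 * n) (a : Fin i → ℂ) (p : Fin i) :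
    push (uu n m s a) (Pi.single (ix n p, ix n s) (1 : ℂ)) =
      Pi.single (eH n m s i (Sum.inr p)) (1 : ℂ) -
        ∑ q, a q • Pi.single (eH n m s i (Sum.inl (p, q))) (1 : ℂ) := by
  rw [i1_single]
  funext c
  have hp : (ix n p).val ≠ s := by
    rw [i0_ix n _ (by omega)]
    omega
  rw [i1_col' n m s hs hm a c.1 (ix n p) hp, i1_col]
  simp only [eH, Pi.sub_apply, Finset.sum_apply, Pi.smul_apply, smul_eq_mul, Pi.single_apply,
    Prod.ext_iff]
  by_cases h1 : c.1 = ix n p
  · simp only [h1, if_true, true_and]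
    ring
  · simp only [h1, if_false, false_and]
    simp

theorem i1_fix (n : ℕ) [NeZero n] (m s : ℕ) {i : ℕ} (hs : s < m) (hm : m + i ≤ 2 * n)
    (a : Fin i → ℂ) (σ : Fin (2 * n) × Fin (2 * n) → ℂ)
    (h : ∀ p q, σ (p, q) ≠ 0 → p.val ≠ s ∧ q.val ≠ s) : push (uu n m s a) σ = σ := by
  funext c
  unfold push
  have h1 : ∀ p q, uu n m s a c.1 p * σ (p, q) * uu n m s a c.2 q =
      (if c.1 = p then 1 else 0) * σ (p, q) * (if c.2 = q then 1 else 0) := by
    intro p q
    by_cases h0 : σ (p, q) = 0
    · rw [h0]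
      ring
    · obtain ⟨hp, hq⟩ := h p q h0
      rw [i1_col' n m s hs hm a c.1 p hp, i1_col' n m s hs hm a c.2 q hq]
  simp only [h1]
  rw [Finset.sum_eq_single c.1, Finset.sum_eq_single c.2]
  · simp
  · intro q _ hq
    have h2 : (if c.2 = q then (1 : ℂ) else 0) = 0 := if_neg (fun hh => hq hh.symm)
    rw [h2]
    ring
  · intro hh
    exact absurd (Finset.mem_univ _) hh
  · intro p _ hp
    apply Finset.sum_eq_zero
    intro q _
    have h2 : (if c.1 = p then (1 : ℂ) else 0) = 0 := if_neg (fun hh => hp hh.symm)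
    rw [h2]
    ring
  · intro hh
    exact absurd (Finset.mem_univ _) hh

theorem i1_inv (n k s : ℕ) [NeZero n] (hk : k ≤ n) (hs : 1 ≤ s) (hsm : s < 2 * n - k)
    (α β β' : Matrix (Fin (2 * n) × Fin (2 * n)) (Fin (2 * n) × Fin (2 * n)) ℂ)
    (g : Matrix (Fin (2 * n)) (Fin (2 * n)) ℂ) (h : Inv n k α s β g)
    (a : Fin (min s k) → ℂ) (hh : β'.IsHermitian)
    (hform : ∀ ξ : Fin (2 * n) × Fin (2 * n) → ℂ, ∃ t : Fin (min s k) → ℂ,
      qf β' ξ = qf β (ξ + ∑ p, t p •
        (Pi.single (eH n (2 * n - k) s (min s k) (Sum.inr p)) (1 : ℂ) -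
          ∑ q, a q • Pi.single (eH n (2 * n - k) s (min s k) (Sum.inl (p, q))) (1 : ℂ))))
    (hb : ∀ p c, β' (eH n (2 * n - k) s (min s k) (Sum.inr p)) c =
      ∑ q, a q * β' (eH n (2 * n - k) s (min s k) (Sum.inl (p, q))) c)
    (hrel : ∀ η : Fin (2 * n) × Fin (2 * n) → ℂ, (∀ d, ∑ c, η c * β c d = 0) →
      ∀ d, ∑ c, η c * β' c d = 0) :
    Inv n k α (s + 1)
      (TU (uu n (2 * n - k) s a) * β' * (TU (uu n (2 * n - k) s a)).conjTranspose)
      (g * uu n (2 * n - k) s a) := by
  have hn : 0 < n := Nat.pos_of_ne_zero (NeZero.ne n)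
  have hi1 : min s k ≤ s := min_le_left _ _
  have hi2 : min s k ≤ k := min_le_right _ _
  have hm : 2 * n - k + min s k ≤ 2 * n := by omega
  set u := uu n (2 * n - k) s a with hu
  set Y := β' * (TU u).conjTranspose with hY
  have hYrel : ∀ η : Fin (2 * n) × Fin (2 * n) → ℂ, (∀ d, ∑ c, η c * β' c d = 0) →
      ∀ d, ∑ c, η c * Y c d = 0 := by
    intro η hη d
    have h1 : Matrix.vecMul η β' = 0 := by
      funext e
      exact hη e
    have h2 : Matrix.vecMul η Y = 0 := by
      rw [hY, ← Matrix.vecMul_vecMul, h1, Matrix.zero_vecMul]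
    exact congrFun h2 d
  have hβ'skew : ∀ p q c, β' (p, q) c = -β' (q, p) c := by
    intro p q c
    have h1 := hrel (Pi.single (p, q) 1 + Pi.single (q, p) 1) (by
      intro d
      simp only [Pi.add_apply, add_mul, Finset.sum_add_distrib]
      simp only [Pi.single_apply, ite_mul, one_mul, zero_mul, Finset.sum_ite_eq',
        Finset.mem_univ, if_true]
      rw [h.skew p q d]
      ring) c
    simp only [Pi.add_apply, add_mul, Finset.sum_add_distrib] at h1
    simp only [Pi.single_apply, ite_mul, one_mul, zero_mul, Finset.sum_ite_eq',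
      Finset.mem_univ, if_true] at h1
    linear_combination h1
  have hYskew : ∀ p q c, Y (p, q) c = -Y (q, p) c := by
    intro p q c
    simp only [hY, Matrix.mul_apply]
    rw [← Finset.sum_neg_distrib]
    apply Finset.sum_congr rfl
    intro d _
    rw [hβ'skew p q d]
    ring
  have hent : ∀ p q c, (TU u * β' * (TU u).conjTranspose) (p, q) c =
      ∑ a', ∑ b', u a' p * u b' q * Y (a', b') c := by
    intro p q c
    rw [Matrix.mul_assoc, ← hY, Matrix.mul_apply, Fintype.sum_prod_type]
    rfl
  refine ⟨?_, ?_, ?_, ?_, ?_⟩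
  · exact Matrix.isHermitian_mul_mul_conjTranspose (TU u) hh
  · intro p q c
    rw [hent, hent, Finset.sum_comm, ← Finset.sum_neg_distrib]
    apply Finset.sum_congr rfl
    intro b' _
    rw [← Finset.sum_neg_distrib]
    apply Finset.sum_congr rfl
    intro a' _
    rw [hYskew a' b' c]
    ring
  · intro p q hpk hpq hqs c
    rw [hent]
    have hps : p.val ≠ s := by omega
    have h1 : ∑ a', ∑ b', u a' p * u b' q * Y (a', b') c = ∑ b', u b' q * Y (p, b') c := by
      rw [Finset.sum_eq_single p]
      · apply Finset.sum_congr rfl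
        intro b' _
        rw [hu, i1_col' n _ s hsm hm a p p hps, if_pos rfl]
        ring
      · intro a' _ ha'
        apply Finset.sum_eq_zero
        intro b' _
        rw [hu, i1_col' n _ s hsm hm a a' p hps, if_neg ha']
        ring
      · intro hh
        exact absurd (Finset.mem_univ _) hh
    rw [h1]
    by_cases hqs' : q.val = s
    · have hq' : q = ix n s := by
        apply Fin.ext
        rw [i0_ix n s (by omega)]
        exact hqs'
      have hpi : p.val < min s k := by omega
      have hp' : ix n p.val = p := by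
        apply Fin.ext
        rw [i0_ix n _ p.isLt]
      have h2 : Y (p, ix n s) c = ∑ r, a r * Y (p, ix n (2 * n - k + r)) c := by
        have h3 := fun d => hb ⟨p.val, hpi⟩ d
        simp only [eH, hp'] at h3
        simp only [hY, Matrix.mul_apply, h3, Finset.sum_mul, Finset.mul_sum]
        rw [Finset.sum_comm]
        apply Finset.sum_congr rfl
        intro r _
        apply Finset.sum_congr rfl
        intro d _
        ring
      rw [hq', hu]
      simp only [i1_col, sub_mul, Finset.sum_sub_distrib, ite_mul, one_mul, zero_mul,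
        Finset.sum_ite_eq', Finset.mem_univ, if_true]
      rw [h2, sub_eq_zero]
      simp only [Finset.sum_mul]
      rw [Finset.sum_comm]
      apply Finset.sum_congr rfl
      intro r _
      rw [Finset.sum_eq_single (ix n (2 * n - k + r))]
      · rw [if_pos rfl]
        ring
      · intro b' _ hb'
        rw [if_neg hb']
        ring
      · intro hh
        exact absurd (Finset.mem_univ _) hh
    · have h2 : ∀ d, β' (p, q) d = 0 := by
        intro d
        have h3 := hrel (Pi.single (p, q) 1) (by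
          intro d
          simp only [Pi.single_apply, ite_mul, one_mul, zero_mul, Finset.sum_ite_eq',
            Finset.mem_univ, if_true]
          exact h.zero p q hpk hpq (by omega) d) d
        simpa only [Pi.single_apply, ite_mul, one_mul, zero_mul, Finset.sum_ite_eq',
          Finset.mem_univ, if_true] using h3
      rw [Finset.sum_eq_single q]
      · have h3 : Y (p, q) c = 0 := by
          rw [hY, Matrix.mul_apply]
          apply Finset.sum_eq_zero
          intro d _
          rw [h2 d, zero_mul]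
        rw [h3, mul_zero]
      · intro b' _ hb'
        rw [hu, i1_col' n _ s hsm hm a b' q hqs', if_neg hb', zero_mul]
      · intro hh
        exact absurd (Finset.mem_univ _) hh
  · rw [Matrix.det_mul, hu, i0_det n _ s hsm hm a, mul_one]
    exact h.unit
  · intro ξ
    obtain ⟨t, ht⟩ := hform (push u ξ)
    have hc : ∑ p, t p • (Pi.single (eH n (2 * n - k) s (min s k) (Sum.inr p)) (1 : ℂ) -
          ∑ q, a q • Pi.single (eH n (2 * n - k) s (min s k) (Sum.inl (p, q))) (1 : ℂ)) =
        push u (∑ p : Fin (min s k), t p • Pi.single (ix n p, ix n s) (1 : ℂ)) := by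
      rw [i1_sum]
      apply Finset.sum_congr rfl
      intro p _
      rw [hu, i1_corr n _ s hi1 hsm hm a p]
    rw [hc] at ht
    set τ : Fin (2 * n) × Fin (2 * n) → ℂ :=
      ∑ p : Fin (min s k), t p • Pi.single (ix n p, ix n s) (1 : ℂ) with hτ
    obtain ⟨σ, hσ1, hσ2⟩ := h.form (push u ξ + push u τ)
    have hfix : push u σ = σ := by
      rw [hu]
      apply i1_fix n _ s hsm hm a σ
      intro p q hpq
      obtain ⟨h1, h2, h3⟩ := hσ1 p q hpq
      constructor <;> omega
    refine ⟨τ + σ, ?_, ?_⟩
    · intro p q hpq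
      by_cases h1 : σ (p, q) = 0
      · have h2 : τ (p, q) ≠ 0 := by
          intro h2
          apply hpq
          rw [Pi.add_apply, h1, h2, add_zero]
        rw [hτ, Finset.sum_apply] at h2
        obtain ⟨r, -, hr⟩ := Finset.exists_ne_zero_of_sum_ne_zero h2
        rw [Pi.smul_apply, Pi.single_apply] at hr
        by_cases h3 : (p, q) = (ix n r, ix n s)
        · rw [Prod.mk.injEq] at h3
          have h4 := congrArg Fin.val h3.1
          have h5 := congrArg Fin.val h3.2
          rw [i0_ix n _ (by omega)] at h4 h5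
          have := r.isLt
          omega
        · rw [if_neg h3] at hr
          simp at hr
      · obtain ⟨h2, h3, h4⟩ := hσ1 p q h1
        omega
    · rw [i0_TU, ht, hσ2, ← i0_push, i0_add u ξ (τ + σ), i0_add u τ σ, hfix, add_assoc]

end H2K
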