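import Pool.Agent.Lib.H2K.I0

/-!
# H2K chunk I2 (M): the honest block is positive definite

`i = min s k`, `e = eH n m s i`.  Let `x : H → ℂ`, `x ≠ 0`, `ξ (e h) = conj (x h)`, `ξ = 0` outside the image of `e`
(`i0_eH`).  Then `star x ⬝ᵥ (β_HH x) = qf β ξ = qf α (push g (ξ + σ))` (`form`).  `A = ξ + σ` vanishes in the rows
`p ≥ k`, so `A = biv (fun l => single l 1) (fun l => A (l, ·))`, and `push g A = biv ..` (`i0_biv`).  `A` is not
symmetric: if `ξ (p, m+q) ≠ 0` then `A (p, m+q) = ξ (p, m+q)` (`σ (p, m+q) = 0` because `m + q ≥ s`) and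
`A (m+q, p) = 0` (row `m + q ≥ k`); if `ξ (p, s) ≠ 0` (`p < i ≤ s`) then `A (p, s) = ξ (p, s)` and `A (s, p) = 0`
(`σ (s, p) ≠ 0` needs `s < p`; `(s, p)` is not in the image of `e`, as `p < s`, `p < m`).  So `i0_nonsym` and
`StrictPos` give `0 < re`; `i0_herm` gives that it is real.
-/

open scoped ComplexOrder

namespace H2K

/-- the vector with entries `conj (x a)` at `j a` -/
noncomputable def i2_xi {ι A : Type} [DecidableEq ι] [Fintype A] (j : A → ι) (x : A → ℂ) : ι → ℂ :=
  fun c => ∑ a, if c = j a then star (x a) else 0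

theorem i2_sub {ι A : Type} [Fintype ι] [DecidableEq ι] [Fintype A] (β : Matrix ι ι ℂ) (j : A → ι)
    (x : A → ℂ) : star x ⬝ᵥ (β.submatrix j j).mulVec x = qf β (i2_xi j x) := by
  have hP : (Matrix.of fun (a : A) (c : ι) => if c = j a then (1 : ℂ) else 0) * β *
      (Matrix.of fun (a : A) (c : ι) => if c = j a then (1 : ℂ) else 0).conjTranspose =
      β.submatrix j j := by
    ext a b
    simp [Matrix.mul_apply, Matrix.conjTranspose_apply]
  have h := i0_mul (Matrix.of fun (a : A) (c : ι) => if c = j a then (1 : ℂ) else 0) β (star x)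
  rw [hP, i0_qf, star_star] at h
  rw [h]
  congr 1
  funext c
  simp only [Matrix.vecMul, dotProduct, i2_xi, Matrix.of_apply, mul_ite, mul_one, mul_zero,
    Pi.star_apply]

theorem i2_xi_apply {ι A : Type} [DecidableEq ι] [Fintype A] (j : A → ι)
    (hj : Function.Injective j) (x : A → ℂ) (a : A) : i2_xi j x (j a) = star (x a) := by
  unfold i2_xi
  rw [Finset.sum_eq_single a]
  · rw [if_pos rfl]
  · intro b _ hb
    rw [if_neg (fun h => hb (hj h).symm)]
  · intro h
    exact absurd (Finset.mem_univ _) h

theorem i2_xi_zero {ι A : Type} [DecidableEq ι] [Fintype A] (j : A → ι) (x : A → ℂ) (c : ι)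
    (h : ∀ a, c ≠ j a) : i2_xi j x c = 0 := by
  unfold i2_xi
  apply Finset.sum_eq_zero
  intro a _
  rw [if_neg (h a)]

/-- an array which vanishes in the rows `≥ k` is a `biv` -/
theorem i2_rows (n k : ℕ) [NeZero n] (hk : k ≤ n) (A : Fin (2 * n) × Fin (2 * n) → ℂ)
    (h : ∀ p q, k ≤ p.val → A (p, q) = 0) :
    A = biv (fun l : Fin k => Pi.single (ix n l) (1 : ℂ)) (fun l q => A (ix n l, q)) := by
  have hn : 0 < n := Nat.pos_of_ne_zero (NeZero.ne n)
  funext c
  unfold biv
  by_cases hc : c.1.val < k
  · have hl : ix n c.1.val = c.1 := by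
      apply Fin.ext
      rw [i0_ix n _ c.1.isLt]
    rw [Finset.sum_eq_single (⟨c.1.val, hc⟩ : Fin k)]
    · simp only [hl, Pi.single_eq_same, one_mul]
    · intro l _ hl'
      have : c.1 ≠ ix n l := by
        intro h1
        apply hl'
        apply Fin.ext
        have := congrArg Fin.val h1
        rw [i0_ix n _ (by omega)] at this
        exact this.symm
      simp only [Pi.single_eq_of_ne this, zero_mul]
    · intro h1
      exact absurd (Finset.mem_univ _) h1
  · rw [Finset.sum_eq_zero]
    · exact h c.1 c.2 (by omega)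
    · intro l _
      have : c.1 ≠ ix n l := by
        intro h1
        have := congrArg Fin.val h1
        rw [i0_ix n _ (by omega)] at this
        omega
      simp only [Pi.single_eq_of_ne this, zero_mul]

theorem i2_posDef (n k s : ℕ) [NeZero n] (hk : k ≤ n) (hs : 1 ≤ s) (hsm : s < 2 * n - k)
    (α β : Matrix (Fin (2 * n) × Fin (2 * n)) (Fin (2 * n) × Fin (2 * n)) ℂ)
    (g : Matrix (Fin (2 * n)) (Fin (2 * n)) ℂ) (hp : StrictPos n k α) (h : Inv n k α s β g) :
    (β.submatrix (eH n (2 * n - k) s (min s k)) (eH n (2 * n - k) s (min s k))).PosDef := by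
  have hn : 0 < n := Nat.pos_of_ne_zero (NeZero.ne n)
  have hi1 : min s k ≤ s := min_le_left _ _
  have hi2 : min s k ≤ k := min_le_right _ _
  have hm : 2 * n - k + min s k ≤ 2 * n := by omega
  rw [Matrix.posDef_iff_dotProduct_mulVec]
  refine ⟨h.herm.submatrix _, ?_⟩
  intro x hx
  rw [i2_sub]
  set e := eH n (2 * n - k) s (min s k) with he
  have hinj : Function.Injective e := i0_eH n _ s _ hi1 hsm hm
  have hfst : ∀ a, (e a).1.val < min s k := by
    intro a
    rcases a with t | p
    · simp only [he, eH]
      rw [i0_ix n _ (by omega)]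
      exact t.1.isLt
    · simp only [he, eH]
      rw [i0_ix n _ (by omega)]
      exact p.isLt
  obtain ⟨σ, hσ1, hσ2⟩ := h.form (i2_xi e x)
  set A := i2_xi e x + σ with hA
  have hrow : ∀ p q, k ≤ p.val → A (p, q) = 0 := by
    intro p q hpk
    rw [hA, Pi.add_apply, i2_xi_zero e x (p, q), zero_add]
    · by_contra h1
      have := (hσ1 p q h1).1
      omega
    · intro a ha
      have := hfst a
      rw [← ha] at this
      simp only at this
      omega
  have hns : ∃ a b, A (a, b) ≠ A (b, a) := by
    obtain ⟨a, ha⟩ := Function.ne_iff.mp hx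
    have ha' : star (x a) ≠ 0 := by
      rw [star_ne_zero]
      exact ha
    refine ⟨(e a).1, (e a).2, ?_⟩
    have h1 : A ((e a).1, (e a).2) = star (x a) := by
      have h2 : σ ((e a).1, (e a).2) = 0 := by
        by_contra h2
        have h3 := (hσ1 _ _ h2).2.2
        rcases a with t | p
        · simp only [he, eH] at h3
          rw [i0_ix n _ (by omega)] at h3
          omega
        · simp only [he, eH] at h3
          rw [i0_ix n _ (by omega)] at h3
          omega
      rw [hA, Pi.add_apply, h2, add_zero]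
      exact i2_xi_apply e hinj x a
    have h2 : A ((e a).2, (e a).1) = 0 := by
      rcases a with t | p
      · apply hrow
        simp only [he, eH]
        rw [i0_ix n _ (by omega)]
        omega
      · rw [hA, Pi.add_apply, i2_xi_zero e x, zero_add]
        · by_contra h2
          have h3 := (hσ1 _ _ h2).2.1
          simp only [he, eH] at h3
          rw [i0_ix n _ (by omega), i0_ix n _ (by omega)] at h3
          omega
        · intro a' ha'
          have h3 := hfst a'
          rw [← ha'] at h3
          simp only [he, eH] at h3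
          rw [i0_ix n _ (by omega)] at h3
          omega
    rw [h1, h2]
    exact ha'
  have hpush := i0_nonsym g h.unit A hns
  have hbiv := i2_rows n k hk A hrow
  rw [hσ2, Complex.lt_def]
  constructor
  · rw [hbiv, i0_biv]
    apply hp
    rw [← i0_biv, ← hbiv]
    exact hpush
  · rw [← hσ2, i0_herm β h.herm]
    rfl

end H2K
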