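import Pool.Agent.Lib.H2K.P2
import Pool.Agent.Lib.H2K.I0A

/-!
# H2K chunk I3A (M): the last stage polynomial on the subspace `E0`

`E0`: `v` skew, `v (p, q) = 0` for `p < k`, `q < m = 2n - k`.  `FF n k m = (∏ DD n m (min t k)) * hPf n` and
`hPf v = DD n m k (v) · hPf (stdK v)` (`p2_factor`).  `f` = `(∏ DD n m (min t k)) * DD n m k` with the substitution
`X c ↦ X (c.1, c.2 - m)` if `c.1 < k`, `m ≤ c.2`, and `0` otherwise (`bind₁`); `g` = `hPf n` with the substitution
`X c ↦ stdK`: `X (c.1 - k, c.2 - k)` if `k ≤ c.1, c.2 < m`, the constants `1`, `-1`, `0` of `stdK` otherwise.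
Evaluate (`eval₂Hom_bind₁`/`eval_bind₁`, `aeval_bind₁`); in `DD n m i`, `i ≤ k`, only variables `X (ix p, ix (m+q))`,
`p, q < i ≤ k` occur (`i0_ix`).
-/

open MvPolynomial

namespace H2K

/-- the coordinates `T` (`κ(p, m+q)`, `p, q < k`) and `Y` (`κ(k+p, k+q)`) -/
def jj (n k : ℕ) [NeZero n] : (Fin k × Fin k) ⊕ (Fin (2 * n - 2 * k) × Fin (2 * n - 2 * k)) →
    Fin (2 * n) × Fin (2 * n)
  | Sum.inl t => (ix n t.1, ix n (2 * n - k + t.2))
  | Sum.inr t => (ix n (k + t.1), ix n (k + t.2))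

theorem i3a_bind {ι κ : Type} (φ : ι → MvPolynomial κ ℂ) (w : κ → ℂ) (P : MvPolynomial ι ℂ) :
    eval w (bind₁ φ P) = eval (fun c => eval w (φ c)) P := by
  unfold eval
  rw [eval₂Hom_bind₁]

theorem i3a_DD (n : ℕ) [NeZero n] (m i : ℕ) (w : Fin (2 * n) × Fin (2 * n) → ℂ) :
    eval w (DD n m i) = Matrix.det (Matrix.of fun p q : Fin i => w (ix n p, ix n (m + q))) := by
  unfold DD
  rw [RingHom.map_det]
  congr 1
  ext p q
  simp

/-- substitution for `f` -/
noncomputable def i3a_phi (n k : ℕ) (c : Fin (2 * n) × Fin (2 * n)) :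
    MvPolynomial (Fin k × Fin k) ℂ :=
  if h : c.1.val < k ∧ c.2.val - (2 * n - k) < k then
    X (⟨c.1.val, h.1⟩, ⟨c.2.val - (2 * n - k), h.2⟩) else 0

/-- substitution for `g` -/
noncomputable def i3a_psi (n k : ℕ) (c : Fin (2 * n) × Fin (2 * n)) :
    MvPolynomial (Fin (2 * n - 2 * k) × Fin (2 * n - 2 * k)) ℂ :=
  if h : k ≤ c.1.val ∧ k ≤ c.2.val ∧ c.1.val < 2 * n - k ∧ c.2.val < 2 * n - k then
    X (⟨c.1.val - k, by omega⟩, ⟨c.2.val - k, by omega⟩)
  else if c.1.val < k ∧ c.2.val = 2 * n - k + c.1.val then 1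
  else if c.2.val < k ∧ c.1.val = 2 * n - k + c.2.val then -1
  else 0

theorem i3_poly (n k : ℕ) [NeZero n] (hk : k ≤ n) :
    ∃ (f : MvPolynomial (Fin k × Fin k) ℂ)
      (g : MvPolynomial (Fin (2 * n - 2 * k) × Fin (2 * n - 2 * k)) ℂ),
      ∀ v : Fin (2 * n) × Fin (2 * n) → ℂ, (∀ p q, v (p, q) = -v (q, p)) →
        (∀ p q : Fin (2 * n), p.val < k → q.val < 2 * n - k → v (p, q) = 0) →
        eval v (FF n k (2 * n - k)) =
          eval (fun t => v (jj n k (Sum.inl t))) f * eval (fun t => v (jj n k (Sum.inr t))) g := by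
  have hn : 0 < n := Nat.pos_of_ne_zero (NeZero.ne n)
  refine ⟨bind₁ (i3a_phi n k) ((∏ t ∈ Finset.Ico 1 (2 * n - k), DD n (2 * n - k) (min t k)) *
    DD n (2 * n - k) k), bind₁ (i3a_psi n k) (hPf n), ?_⟩
  intro v hskew hzero
  rw [i3a_bind, i3a_bind]
  have hD : ∀ i, i ≤ k → eval (fun c => eval (fun t => v (jj n k (Sum.inl t))) (i3a_phi n k c))
      (DD n (2 * n - k) i) = eval v (DD n (2 * n - k) i) := by
    intro i hi
    rw [i3a_DD, i3a_DD]
    congr 1
    ext p q
    simp only [Matrix.of_apply]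
    have hp : (ix n p.val).val = p.val := i0_ix n _ (by omega)
    have hq : (ix n (2 * n - k + q.val)).val = 2 * n - k + q.val := i0_ix n _ (by omega)
    unfold i3a_phi
    have h : (ix n p.val).val < k ∧ (ix n (2 * n - k + q.val)).val - (2 * n - k) < k := by
      rw [hp, hq]
      omega
    rw [dif_pos h, eval_X]
    simp only [jj, hp, hq]
    congr 3
    omega
  have hP : (fun c => eval (fun t => v (jj n k (Sum.inr t))) (i3a_psi n k c)) = stdK n k v := by
    funext c
    unfold i3a_psi stdK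
    by_cases h1 : k ≤ c.1.val ∧ k ≤ c.2.val ∧ c.1.val < 2 * n - k ∧ c.2.val < 2 * n - k
    · rw [dif_pos h1, if_pos h1, eval_X]
      simp only [jj]
      congr 1
      apply Prod.ext
      · apply Fin.ext
        simp only
        rw [i0_ix n _ (by omega)]
        omega
      · apply Fin.ext
        simp only
        rw [i0_ix n _ (by omega)]
        omega
    · rw [dif_neg h1, if_neg h1]
      by_cases h2 : c.1.val < k ∧ c.2.val = 2 * n - k + c.1.val
      · rw [if_pos h2, if_pos h2, map_one]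
      · rw [if_neg h2, if_neg h2]
        by_cases h3 : c.2.val < k ∧ c.1.val = 2 * n - k + c.2.val
        · rw [if_pos h3, if_pos h3, map_neg, map_one]
        · rw [if_neg h3, if_neg h3, map_zero]
  rw [hP]
  unfold FF
  rw [map_mul, map_mul, map_prod, map_prod, hD k le_rfl, p2_factor n k hk v hskew hzero]
  rw [Finset.prod_congr rfl (fun t _ => hD (min t k) (min_le_right _ _))]
  ring

end H2K
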