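import Mathlib

/-!
# H2K chunk P3 (S/M, pure linear algebra): skew matrices have small rank as bivectors

Every skew `A` (over `ℂ`, `N × N`) supported on a set `s` of indices is `∑_(l < d) (z_l ⊗ w_l - w_l ⊗ z_l)` as soon as
`card s ≤ 2 d + 1`.  Induction on `d`: if `A = 0` take zeros.  (For `d = 0`: `card s ≤ 1` and skewness give `A = 0`.)
Otherwise `c = A p q ≠ 0`, `p, q ∈ s`, `p ≠ q`; take `z = c⁻¹ A(·, q)`, `w = A(p, ·)`,
`A' i j = A i j - c⁻¹ (A i q * A p j - A p i * A j q)`.  `A'` is skew, `A' p j = A p j - c⁻¹ (A p q * A p j) + 0 = 0`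
(`A p p = 0`), `A' q j = A q j - c⁻¹ (0 - A p q * A j q) = A q j + A j q = 0`; so `A'` is supported on `s \ {p, q}`, of
cardinality `≤ 2 (d - 1) + 1`.
-/

namespace H2K

theorem p3_diag {N : ℕ} {A : Fin N → Fin N → ℂ} (hA : ∀ i j, A i j = -A j i) (i : Fin N) : A i i = 0 := by
  have h := hA i i
  have h2 : (2 : ℂ) * A i i = 0 := by linear_combination h
  exact (mul_eq_zero.1 h2).resolve_left two_ne_zero

theorem p3_skew (N d : ℕ) (s : Finset (Fin N)) (hs : s.card ≤ 2 * d + 1) (A : Fin N → Fin N → ℂ)
    (hA : ∀ i j, A i j = -A j i) (hsupp : ∀ i j, A i j ≠ 0 → i ∈ s ∧ j ∈ s) :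
    ∃ z w : Fin d → Fin N → ℂ, ∀ i j, A i j = ∑ l, (z l i * w l j - w l i * z l j) := by
  induction d generalizing s A with
  | zero =>
    refine ⟨fun l => l.elim0, fun l => l.elim0, fun i j => ?_⟩
    rw [Finset.univ_eq_empty, Finset.sum_empty]
    by_contra h
    obtain ⟨hi, hj⟩ := hsupp i j h
    have hij : i = j := Finset.card_le_one.1 (by omega) i hi j hj
    rw [← hij] at h
    exact h (p3_diag hA i)
  | succ d ih =>
    by_cases h0 : ∀ i j, A i j = 0
    · exact ⟨fun _ _ => 0, fun _ _ => 0, fun i j => by simp [h0 i j]⟩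
    push Not at h0
    obtain ⟨p, q, hpq⟩ := h0
    obtain ⟨hp, hq⟩ := hsupp p q hpq
    have hne : p ≠ q := fun h => hpq (by rw [← h]; exact p3_diag hA p)
    set c := A p q with hc
    have hpp := p3_diag hA p
    have hqq := p3_diag hA q
    set A' : Fin N → Fin N → ℂ := fun i j => A i j - c⁻¹ * (A i q * A p j - A p i * A j q) with hA'
    have hA's : ∀ i j, A' i j = -A' j i := by
      intro i j
      simp only [hA']
      linear_combination hA i j
    have hp0 : ∀ j, A' p j = 0 := by
      intro j
      simp only [hA']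
      rw [← hc, hpp]
      field_simp
      ring
    have hq0 : ∀ j, A' q j = 0 := by
      intro j
      simp only [hA']
      rw [← hc, hqq, hA q j]
      field_simp
      ring
    have hsupp' : ∀ i j, A' i j ≠ 0 → i ∈ (s.erase p).erase q ∧ j ∈ (s.erase p).erase q := by
      have key : ∀ i j, A' i j ≠ 0 → i ∈ (s.erase p).erase q := by
        intro i j hij
        have h1 : i ≠ p := fun h => hij (by rw [h]; exact hp0 j)
        have h2 : i ≠ q := fun h => hij (by rw [h]; exact hq0 j)
        refine Finset.mem_erase.2 ⟨h2, Finset.mem_erase.2 ⟨h1, ?_⟩⟩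
        by_contra his
        have e1 : ∀ k, A i k = 0 := fun k => by
          by_contra h; exact his (hsupp i k h).1
        have e2 : ∀ k, A k i = 0 := fun k => by
          by_contra h; exact his (hsupp k i h).2
        apply hij
        simp only [hA']
        rw [e1, e1, e2]
        ring
      intro i j hij
      refine ⟨key i j hij, key j i ?_⟩
      intro h
      apply hij
      rw [hA's, h, neg_zero]
    have hcard : ((s.erase p).erase q).card ≤ 2 * d + 1 := by
      have h1 : q ∈ s.erase p := Finset.mem_erase.2 ⟨fun h => hne h.symm, hq⟩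
      rw [Finset.card_erase_of_mem h1, Finset.card_erase_of_mem hp]
      omega
    obtain ⟨z, w, hzw⟩ := ih _ hcard A' hA's hsupp'
    refine ⟨Fin.cons (fun i => c⁻¹ * A i q) z, Fin.cons (fun j => A p j) w, fun i j => ?_⟩
    rw [Fin.sum_univ_succ]
    simp only [Fin.cons_zero, Fin.cons_succ]
    rw [← hzw i j]
    simp only [hA']
    ring

end H2K
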