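import Pool.Agent.Lib.H2K.I0
import Pool.Agent.Lib.H2K.I2
import Pool.Agent.Lib.H2K.I3A
import Pool.Agent.Lib.H2K.P3

/-!
# H2K chunk I3B (M): the two honest blocks of the last stage are positive semidefinite

`m = 2n - k`, `β` at stage `m`.  For `x` put `ξ (jj (inl t)) = conj (x t)` (resp. `inr`), `0` elsewhere (`jj` is
injective on each half).  Then `star x ⬝ᵥ (β_block x) = qf β ξ = qf α (push g (ξ + σ))` (`form`), `σ` supported on
`p < k`, `p < q < m`.
T block: `ξ + σ` vanishes in the rows `≥ k`: `ξ + σ = biv (single l 1) (row l)`, `i0_biv`, `hw`.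
Y block: `ξ + σ` is supported on `{p, q < m}`; `A (p,q) = (ξ+σ)(p,q) - (ξ+σ)(q,p)` is skew and supported on the set
`{p < m}` of cardinality `m ≤ 2 k + 1`; `p3_skew` gives `z, w : Fin k → ..` with `A = z ∧ w`; so `ξ + σ` and `biv z w`
have the same skew part, `i0_part`, `i0_skew`, `i0_biv`, `hw`.
-/

open scoped ComplexOrder

namespace H2K

theorem i3_psd1 (n k : ℕ) [NeZero n] (hk : k ≤ n)
    (α β : Matrix (Fin (2 * n) × Fin (2 * n)) (Fin (2 * n) × Fin (2 * n)) ℂ)
    (g : Matrix (Fin (2 * n)) (Fin (2 * n)) ℂ)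
    (hw : ∀ z w : Fin k → Fin (2 * n) → ℂ, 0 ≤ (qf α (biv z w)).re)
    (h : Inv n k α (2 * n - k) β g) :
    (β.submatrix (fun t => jj n k (Sum.inl t)) (fun t => jj n k (Sum.inl t))).PosSemidef := by
  have hn : 0 < n := Nat.pos_of_ne_zero (NeZero.ne n)
  rw [Matrix.posSemidef_iff_dotProduct_mulVec]
  refine ⟨h.herm.submatrix _, ?_⟩
  intro x
  rw [i2_sub, Complex.le_def]
  refine ⟨?_, (i0_herm β h.herm _).symm⟩
  obtain ⟨σ, hσ1, hσ2⟩ := h.form (i2_xi (fun t => jj n k (Sum.inl t)) x)
  rw [hσ2]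
  have hrow : ∀ p q, k ≤ p.val →
      (i2_xi (fun t => jj n k (Sum.inl t)) x + σ) (p, q) = 0 := by
    intro p q hpk
    rw [Pi.add_apply, i2_xi_zero _ x (p, q), zero_add]
    · by_contra h1
      have := (hσ1 p q h1).1
      omega
    · intro t ht
      have h1 := congrArg (fun c : Fin (2 * n) × Fin (2 * n) => c.1.val) ht
      simp only [jj] at h1
      rw [i0_ix n _ (by omega)] at h1
      omega
  rw [i2_rows n k hk _ hrow, i0_biv]
  exact hw _ _

theorem i3_psd2 (n k : ℕ) [NeZero n] (hk : k ≤ n) (hnk : 2 * n ≤ 3 * k + 1)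
    (α β : Matrix (Fin (2 * n) × Fin (2 * n)) (Fin (2 * n) × Fin (2 * n)) ℂ)
    (hα : α.IsHermitian) (hs : ∀ p q c, α (p, q) c = -α (q, p) c)
    (g : Matrix (Fin (2 * n)) (Fin (2 * n)) ℂ)
    (hw : ∀ z w : Fin k → Fin (2 * n) → ℂ, 0 ≤ (qf α (biv z w)).re)
    (h : Inv n k α (2 * n - k) β g) :
    (β.submatrix (fun t => jj n k (Sum.inr t)) (fun t => jj n k (Sum.inr t))).PosSemidef := by
  have hn : 0 < n := Nat.pos_of_ne_zero (NeZero.ne n)
  rw [Matrix.posSemidef_iff_dotProduct_mulVec]
  refine ⟨h.herm.submatrix _, ?_⟩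
  intro x
  rw [i2_sub, Complex.le_def]
  refine ⟨?_, (i0_herm β h.herm _).symm⟩
  obtain ⟨σ, hσ1, hσ2⟩ := h.form (i2_xi (fun t => jj n k (Sum.inr t)) x)
  rw [hσ2]
  set A := i2_xi (fun t => jj n k (Sum.inr t)) x + σ with hA
  have hsup : ∀ p q, A (p, q) ≠ 0 → p.val < 2 * n - k ∧ q.val < 2 * n - k := by
    intro p q hpq
    by_contra hc
    apply hpq
    rw [hA, Pi.add_apply, i2_xi_zero _ x (p, q), zero_add]
    · by_contra h1
      have := hσ1 p q h1
      omega
    · intro t ht
      have h1 := congrArg (fun c : Fin (2 * n) × Fin (2 * n) => c.1.val) ht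
      have h2 := congrArg (fun c : Fin (2 * n) × Fin (2 * n) => c.2.val) ht
      simp only [jj] at h1 h2
      rw [i0_ix n _ (by omega)] at h1 h2
      omega
  have hcard : (Finset.univ.filter fun p : Fin (2 * n) => p.val < 2 * n - k).card ≤ 2 * k + 1 := by
    have h1 : (Finset.univ.filter fun p : Fin (2 * n) => p.val < 2 * n - k).card ≤
        (Finset.range (2 * n - k)).card := by
      apply Finset.card_le_card_of_injOn (fun p : Fin (2 * n) => p.val)
      · intro p hp
        have hp' := Finset.mem_coe.mp hp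
        rw [Finset.mem_filter] at hp'
        exact Finset.mem_coe.mpr (Finset.mem_range.mpr hp'.2)
      · intro p _ q _ hpq
        exact Fin.ext hpq
    rw [Finset.card_range] at h1
    omega
  obtain ⟨z, w, hzw⟩ := p3_skew (2 * n) k
    (Finset.univ.filter fun p : Fin (2 * n) => p.val < 2 * n - k) hcard
    (fun p q => A (p, q) - A (q, p)) (by intro i j; ring) (by
      intro i j hij
      simp only [Finset.mem_filter, Finset.mem_univ, true_and]
      by_cases h1 : A (i, j) = 0
      · have h2 : A (j, i) ≠ 0 := by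
          intro h2
          apply hij
          rw [h1, h2, sub_zero]
        have := hsup j i h2
        omega
      · have := hsup i j h1
        omega)
  have hpart : ∀ p q, A (p, q) - A (q, p) = biv z w (p, q) - biv z w (q, p) := by
    intro p q
    rw [hzw p q]
    unfold biv
    rw [← Finset.sum_sub_distrib]
    apply Finset.sum_congr rfl
    intro l _
    ring
  rw [i0_skew α hα hs (push g A) (push g (biv z w)) (i0_part g A (biv z w) hpart), i0_biv]
  exact hw _ _

end H2K
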