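import Pool.Agent.Lib.H2K.G4

/-!
# H2K chunk R1 (S): linear images and restriction to a subspace

`r1_push`: `TU β TUᴴ` is the covariance of `κ'' = TU κ`: `W (TU β TUᴴ) G G = WW (TU β) TU G G` (`g4_W`; here for any
matrix `P`) `= ∫ G(P β g) conj(G(P g))`.  If `G(P v) = G(v)` for all `v` this is `W β G G`.
`r1_restrict`: `W β F F = WW (P β) P F F` (as `P β Pᴴ = β`), `F(P v) = F0 ((P v) ∘ j)`, and
`(P β Pᴴ).submatrix j j = β.submatrix j j` (`g4_WW` for `(P β).submatrix j id`, `P.submatrix j id`).
-/

open MeasureTheory MvPolynomial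

namespace H2K

theorem r1_push {ι : Type} [Fintype ι] [DecidableEq ι] (β P : Matrix ι ι ℂ) (G : MvPolynomial ι ℂ)
    (h : ∀ v : ι → ℂ, eval (P.mulVec v) G = eval v G) :
    W (P * β * P.conjTranspose) G G = W β G G := by
  rw [g4_W]
  unfold W WW
  refine integral_congr_ae (Filter.Eventually.of_forall fun g => ?_)
  simp only
  rw [← Matrix.mulVec_mulVec, h, h, Matrix.one_mulVec]

theorem r1_restrict {ι A : Type} [Fintype ι] [DecidableEq ι] [Fintype A] [DecidableEq A]
    (β P : Matrix ι ι ℂ) (j : A → ι) (hP : P * β * P.conjTranspose = β)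
    (F : MvPolynomial ι ℂ) (F0 : MvPolynomial A ℂ)
    (h : ∀ v : ι → ℂ, eval (P.mulVec v) F = eval (fun a => P.mulVec v (j a)) F0) :
    W β F F = W (β.submatrix j j) F0 F0 := by
  have e : β.submatrix j j = (P * β).submatrix j id * (P.submatrix j id).conjTranspose := by
    have h0 := Matrix.submatrix_mul_equiv (P * β) P.conjTranspose j (Equiv.refl ι) j
    rw [hP] at h0
    exact h0.symm
  have e1 : W β F F = W (P * β * P.conjTranspose) F F := by rw [hP]
  rw [e1, g4_W, e, g4_W]
  unfold WW
  refine integral_congr_ae (Filter.Eventually.of_forall fun g => ?_)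
  simp only
  have h1 : ((P * β).submatrix j id).mulVec g = fun a => P.mulVec (β.mulVec g) (j a) := by
    funext a
    rw [Matrix.mulVec_mulVec]
    rfl
  have h2 : (P.submatrix j id).mulVec g = fun a => P.mulVec g (j a) := by
    funext a
    rfl
  rw [h1, h2, ← Matrix.mulVec_mulVec, h, h]

end H2K
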