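import Pool.Agent.Lib.H2K.X1

/-!
# H2K chunk X2 (S): Lemma X

`PosSemidef` matrices are `a aᴴ` (`Matrix.posSemidef_iff_eq_conjTranspose_mul_self` /
`CStarAlgebra.nonneg_iff_eq_star_mul_self`, take the Hermitian square root or conjugate transpose the factor),
`β = fromBlocks ..` (`Matrix.fromBlocks_toBlocks`, Hermitian: the lower left block is `cᴴ`), `x1_identity`, and
`z * conj z = |z|²`, integral of nonnegative reals.
-/

open MeasureTheory MvPolynomial
open scoped ComplexOrder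

namespace H2K

section

open scoped MatrixOrder

theorem x2_sqrt {A : Type} [Fintype A] [DecidableEq A] (M : Matrix A A ℂ) (hM : M.PosSemidef) :
    ∃ a : Matrix A A ℂ, M = a * a.conjTranspose := by
  obtain ⟨x, hx⟩ := CStarAlgebra.nonneg_iff_eq_star_mul_self.1 hM.nonneg
  exact ⟨x.conjTranspose, by rw [Matrix.conjTranspose_conjTranspose]; exact hx⟩

end

theorem x2_lemmaX {A B : Type} [Fintype A] [Fintype B] [DecidableEq A] [DecidableEq B]
    (β : Matrix (A ⊕ B) (A ⊕ B) ℂ) (hβ : β.IsHermitian) (hA : β.toBlocks₁₁.PosSemidef)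
    (hB : β.toBlocks₂₂.PosSemidef) (f : MvPolynomial A ℂ) (g : MvPolynomial B ℂ) :
    0 ≤ (W β (rename Sum.inl f * rename Sum.inr g) (rename Sum.inl f * rename Sum.inr g)).re := by
  obtain ⟨a, ha⟩ := x2_sqrt _ hA
  obtain ⟨b, hb⟩ := x2_sqrt _ hB
  have hc : β.toBlocks₂₁ = β.toBlocks₁₂.conjTranspose := by
    ext i j
    have h := congrFun (congrFun hβ.symm (Sum.inr i)) (Sum.inl j)
    rw [Matrix.conjTranspose_apply] at h
    rw [Matrix.conjTranspose_apply]
    exact h
  have e : β = Matrix.fromBlocks (a * a.conjTranspose) β.toBlocks₁₂ β.toBlocks₁₂.conjTranspose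
      (b * b.conjTranspose) := by
    rw [← ha, ← hb, ← hc, Matrix.fromBlocks_toBlocks]
  rw [e, x1_identity]
  have e2 : (fun p : (A → ℂ) × (B → ℂ) =>
      WS (a.mulVec p.1) (b.mulVec p.2) β.toBlocks₁₂ (1 : Matrix B B ℂ) f g *
      (starRingEnd ℂ) (WS (a.mulVec p.1) (b.mulVec p.2) β.toBlocks₁₂ (1 : Matrix B B ℂ) f g)) =
      fun p => ((‖WS (a.mulVec p.1) (b.mulVec p.2) β.toBlocks₁₂ (1 : Matrix B B ℂ) f g‖ ^ 2 :
        ℝ) : ℂ) := by
    funext p
    rw [Complex.mul_conj, Complex.normSq_eq_norm_sq]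
  rw [e2, integral_complex_ofReal, Complex.ofReal_re]
  exact integral_nonneg fun p => by positivity

end H2K
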