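import Pool.Agent.Lib.H2K.I3B
import Pool.Agent.Lib.H2K.R1
import Pool.Agent.Lib.H2K.X2

/-!
# H2K chunk I3C (M): the last stage

`PE`: the projection onto `E0` (skew, zero at `(p, q)` if `p < k`, `q < m` or vice versa):
`(PE v) c = 0` or `(v (c.1, c.2) - v (c.2, c.1)) / 2`.  `PE β = β` by `zero` and `skew` of the invariant (the entries
`(p, q)`, `q < p < k`, by skewness; the diagonal ones too), so `PE β PEᴴ = β PEᴴ = (PE β)ᴴ = β`.
`r1_restrict` with `P = PE`, `j = jj n k`, `F0 = rename Sum.inl f * rename Sum.inr g` (`i3_poly` for `v = PE v'`, which is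
in `E0`; `eval_rename`), then `x2_lemmaX` for `β.submatrix j j` with `i3_psd1`, `i3_psd2`.
-/

open MvPolynomial
open scoped ComplexOrder

namespace H2K

/-- the entries which vanish on `E0` -/
def i3c_Z (n k : ℕ) (c : Fin (2 * n) × Fin (2 * n)) : Prop :=
  (c.1.val < k ∧ c.2.val < 2 * n - k) ∨ (c.2.val < k ∧ c.1.val < 2 * n - k)

instance (n k : ℕ) (c : Fin (2 * n) × Fin (2 * n)) : Decidable (i3c_Z n k c) := by
  unfold i3c_Z
  infer_instance

/-- the projection onto `E0` -/
noncomputable def i3c_PE (n k : ℕ) :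
    Matrix (Fin (2 * n) × Fin (2 * n)) (Fin (2 * n) × Fin (2 * n)) ℂ := fun c d =>
  if i3c_Z n k c then 0
  else ((if d = c then 1 else 0) - (if d = (c.2, c.1) then 1 else 0)) / 2

theorem i3c_sum (n k : ℕ) (c : Fin (2 * n) × Fin (2 * n)) (v : Fin (2 * n) × Fin (2 * n) → ℂ) :
    ∑ d, i3c_PE n k c d * v d = if i3c_Z n k c then 0 else (v c - v (c.2, c.1)) / 2 := by
  unfold i3c_PE
  by_cases h : i3c_Z n k c
  · simp [h]
  · simp only [h, if_false]
    have h1 : ∀ d, ((if d = c then (1 : ℂ) else 0) - (if d = (c.2, c.1) then 1 else 0)) / 2 * v d =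
        (if d = c then v d / 2 else 0) - (if d = (c.2, c.1) then v d / 2 else 0) := by
      intro d
      split_ifs <;> ring
    simp only [h1, Finset.sum_sub_distrib, Finset.sum_ite_eq', Finset.mem_univ, if_true]
    ring

theorem i3_last (n k : ℕ) [NeZero n] (hk : k ≤ n) (hnk : 2 * n ≤ 3 * k + 1)
    (α β : Matrix (Fin (2 * n) × Fin (2 * n)) (Fin (2 * n) × Fin (2 * n)) ℂ)
    (hα : α.IsHermitian) (hs : ∀ p q c, α (p, q) c = -α (q, p) c)
    (g : Matrix (Fin (2 * n)) (Fin (2 * n)) ℂ)
    (hw : ∀ z w : Fin k → Fin (2 * n) → ℂ, 0 ≤ (qf α (biv z w)).re)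
    (h : Inv n k α (2 * n - k) β g) :
    0 ≤ (W β (FF n k (2 * n - k)) (FF n k (2 * n - k))).re := by
  have hn : 0 < n := Nat.pos_of_ne_zero (NeZero.ne n)
  have hz : ∀ p q : Fin (2 * n), p.val < k → q.val < 2 * n - k → ∀ d, β (p, q) d = 0 := by
    intro p q hp hq d
    rcases lt_trichotomy p.val q.val with h1 | h1 | h1
    · exact h.zero p q hp h1 hq d
    · have h2 : p = q := Fin.ext h1
      rw [← h2]
      have h3 := h.skew p p d
      have h4 : (2 : ℂ) * β (p, p) d = 0 := by linear_combination h3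
      rcases mul_eq_zero.mp h4 with h5 | h5
      · norm_num at h5
      · exact h5
    · rw [h.skew p q d, h.zero q p (by omega) h1 (by omega) d, neg_zero]
  have hPb : i3c_PE n k * β = β := by
    ext c d
    rw [Matrix.mul_apply, i3c_sum n k c (fun e => β e d)]
    by_cases hc : i3c_Z n k c
    · rw [if_pos hc]
      rcases hc with hc | hc
      · exact (hz c.1 c.2 hc.1 hc.2 d).symm
      · have h1 := h.skew c.1 c.2 d
        rw [hz c.2 c.1 hc.1 hc.2 d, neg_zero] at h1
        exact h1.symm
    · rw [if_neg hc]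
      have h1 := h.skew c.1 c.2 d
      have h2 : β c d = β (c.1, c.2) d := rfl
      rw [h2, h1]
      ring
  have hPbP : i3c_PE n k * β * (i3c_PE n k).conjTranspose = β := by
    rw [hPb]
    have h1 := congrArg Matrix.conjTranspose hPb
    rw [Matrix.conjTranspose_mul, h.herm.eq] at h1
    exact h1
  obtain ⟨f, g', hfg⟩ := i3_poly n k hk
  have hR := r1_restrict β (i3c_PE n k) (jj n k) hPbP (FF n k (2 * n - k))
    (rename Sum.inl f * rename Sum.inr g') (by
      intro v
      have hv : ∀ c, (i3c_PE n k).mulVec v c = if i3c_Z n k c then 0 else (v c - v (c.2, c.1)) / 2 :=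
        fun c => i3c_sum n k c v
      rw [hfg ((i3c_PE n k).mulVec v)]
      · rw [map_mul, eval_rename, eval_rename]
        rfl
      · intro p q
        rw [hv, hv]
        by_cases hc : i3c_Z n k (p, q)
        · have hc' : i3c_Z n k (q, p) := by
            unfold i3c_Z at hc ⊢
            exact hc.symm
          rw [if_pos hc, if_pos hc', neg_zero]
        · have hc' : ¬ i3c_Z n k (q, p) := by
            intro h1
            apply hc
            unfold i3c_Z at h1 ⊢
            exact h1.symm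
          rw [if_neg hc, if_neg hc']
          ring
      · intro p q hp hq
        have hc : i3c_Z n k (p, q) := Or.inl ⟨hp, hq⟩
        rw [hv, if_pos hc])
  rw [hR]
  apply x2_lemmaX
  · exact h.herm.submatrix _
  · exact i3_psd1 n k hk α β g hw h
  · exact i3_psd2 n k hk hnk α β hα hs g hw h

end H2K
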