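import Pool.Agent.Lib.H2K.P1
import Pool.Agent.Lib.H2K.I0

/-!
# H2K chunk P4 (S/M): the stage polynomial is invariant under the change of coordinates

`TU (uu a) v = uᵀ v u` (`i0_TUv`), `hPf` is invariant (`p1_equivariant`, `i0_det`); in `DD n m (min t k)`, `t ≤ s`,
only the entries `κ(p, m+q)`, `p < s`, occur; the columns `p` and `m + q` (both `≠ s`) of `u` are those of `1`
(`i0_uu`), so these entries do not change (`DD` evaluates to a determinant: `RingHom.map_det`).
-/

open MvPolynomial

namespace H2K

theorem p4_entry (n k s : ℕ) [NeZero n] (hsm : s < 2 * n - k)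
    (a : Fin (min s k) → ℂ) (v : Fin (2 * n) × Fin (2 * n) → ℂ) (c : Fin (2 * n) × Fin (2 * n))
    (h1 : c.1.val ≠ s) (h2 : c.2.val ≠ s) :
    ((TU (uu n (2 * n - k) s a)).mulVec v) c = v c := by
  have hm : 2 * n - k + min s k ≤ 2 * n := by
    have := min_le_right s k
    omega
  rw [i0_TUv]
  simp only [i0_uu n (2 * n - k) s hsm hm, if_neg h1, if_neg h2]
  simp

theorem p4_inv (n k s : ℕ) [NeZero n] (hk : k ≤ n) (hs : 1 ≤ s) (hsm : s < 2 * n - k)
    (a : Fin (min s k) → ℂ) (v : Fin (2 * n) × Fin (2 * n) → ℂ) :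
    eval ((TU (uu n (2 * n - k) s a)).mulVec v) (FF n k (s + 1)) = eval v (FF n k (s + 1)) := by
  have hm : 2 * n - k + min s k ≤ 2 * n := by
    have := min_le_right s k
    omega
  unfold FF
  rw [map_mul, map_mul, map_prod, map_prod]
  congr 1
  · refine Finset.prod_congr rfl fun t ht => ?_
    rw [Finset.mem_Ico] at ht
    unfold DD
    rw [RingHom.map_det, RingHom.map_det]
    congr 1
    ext p q
    simp only [RingHom.mapMatrix_apply, Matrix.map_apply, Matrix.of_apply, eval_X]
    have hp := p.2
    have hq := q.2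
    have h1 := min_le_left t k
    have h2 := min_le_right t k
    apply p4_entry n k s hsm
    · change (ix n p.val).val ≠ s
      rw [i0_ix n _ (by omega)]
      omega
    · change (ix n (2 * n - k + q.val)).val ≠ s
      rw [i0_ix n _ (by omega)]
      omega
  · rw [i0_TUv, p1_equivariant, i0_det n _ s hsm hm, one_mul]

end H2K
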