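import Pool.Agent.Lib.H2K.S3

/-!
# H2K chunk S4 (M): the step

`s1_data`; `W β G G = ∫ φ(M g) dμ(g)` (`g5_split`) `= c ∫_h φ(M S⁻¹ h) exp(-|S⁻¹ h|²) dh` (`k2_gauss`, `k2_gauss'` with
`K = S⁻¹`), `h = (T, b) : (Fin i × Fin i) ⊕ Fin i → ℂ`, written on `(Fin i → Fin i → ℂ) × (Fin i → ℂ)`
(volume preserving equivalences `MeasurableEquiv.sumPiEquivProdPi`, `MeasurableEquiv.curry`-type), continuous
integrand (`g5_cont`); `k1_change`, whose hypothesis is `s3_inner` (`k2_polar` for `B = S⁻¹ J_a`, injective) together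
with the hypothesis `h` of the theorem, verified by `s2_cond`.
-/

open MeasureTheory MvPolynomial
open scoped ComplexOrder

namespace H2K

/-- a linear isomorphism preserves integrability -/
theorem s4_haar {E F : Type} [NormedAddCommGroup E] [NormedSpace ℝ E] [FiniteDimensional ℝ E]
    [MeasurableSpace E] [BorelSpace E] [NormedAddCommGroup F] [NormedSpace ℝ F] [FiniteDimensional ℝ F]
    [MeasurableSpace F] [BorelSpace F] (μ : Measure E) [μ.IsAddHaarMeasure] (ν : Measure F) [ν.IsAddHaarMeasure]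
    (L : E ≃L[ℝ] F) (f : F → ℂ) (hf : Integrable f ν) : Integrable (fun x => f (L x)) μ := by
  have h1 : (μ.map L).IsAddHaarMeasure := inferInstance
  have h2 := Measure.isAddLeftInvariant_eq_smul (μ.map L) ν
  have h3 : Integrable f (μ.map L) := by
    rw [h2]
    exact hf.smul_measure_nnreal
  exact (L.toHomeomorph.toMeasurableEquiv.measurableEmbedding.integrable_map_iff).1 h3

/-- the isomorphism `(T, b) ↦ h` -/
noncomputable def s4_L (i : ℕ) : ((Fin i → Fin i → ℂ) × (Fin i → ℂ)) ≃L[ℝ] ((Fin i × Fin i) ⊕ Fin i → ℂ) :=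
  LinearEquiv.toContinuousLinearEquiv
    (((LinearEquiv.curry ℝ ℂ (Fin i) (Fin i)).symm.prodCongr (LinearEquiv.refl ℝ (Fin i → ℂ))).trans
      (LinearEquiv.sumArrowLequivProdArrow (Fin i × Fin i) (Fin i) ℝ ℂ).symm)

theorem s4_L_apply (i : ℕ) (p : (Fin i → Fin i → ℂ) × (Fin i → ℂ)) :
    s4_L i p = Sum.elim (fun u => p.1 u.1 u.2) p.2 := by
  funext h
  rcases h with u | q <;> rfl

theorem s4_haarP (i : ℕ) : (volume : Measure ((Fin i → Fin i → ℂ) × (Fin i → ℂ))).IsAddHaarMeasure := by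
  have := s3_haarT i
  exact Measure.prod.instIsAddHaarMeasure _ _

theorem s4_inj {i : ℕ} (S : Matrix ((Fin i × Fin i) ⊕ Fin i) ((Fin i × Fin i) ⊕ Fin i) ℂ) (hS : IsUnit S.det)
    (a : Fin i → ℂ) : Function.Injective (S⁻¹ * Ja a).mulVec := by
  intro x y hxy
  have hxy' : (S⁻¹ * Ja a).mulVec x = (S⁻¹ * Ja a).mulVec y := hxy
  have h2 := congrArg S.mulVec hxy'
  rw [Matrix.mulVec_mulVec, Matrix.mulVec_mulVec, ← Matrix.mul_assoc, Matrix.mul_nonsing_inv _ hS,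
    Matrix.one_mul] at h2
  funext u
  have h3 := congrFun h2 (Sum.inl u)
  simpa only [Matrix.mulVec, dotProduct, Ja, ite_mul, one_mul, zero_mul,
      Finset.sum_ite_eq, Finset.mem_univ, if_true] using h3

theorem s4_step {ι : Type} [Fintype ι] [DecidableEq ι] {i : ℕ}
    (e : (Fin i × Fin i) ⊕ Fin i → ι) (he : Function.Injective e) (β : Matrix ι ι ℂ)
    (hβ : β.IsHermitian) (hpos : (β.submatrix e e).PosDef) (G : MvPolynomial ι ℂ)
    (h : ∀ (a : Fin i → ℂ) (β' : Matrix ι ι ℂ), β'.IsHermitian →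
      (∀ ξ : ι → ℂ, ∃ s : Fin i → ℂ, qf β' ξ = qf β (ξ + ∑ p, s p •
        (Pi.single (e (Sum.inr p)) (1 : ℂ) -
          ∑ q, a q • Pi.single (e (Sum.inl (p, q))) (1 : ℂ)))) →
      (∀ p c, β' (e (Sum.inr p)) c = ∑ q, a q * β' (e (Sum.inl (p, q))) c) →
      (∀ η : ι → ℂ, (∀ d, ∑ c, η c * β c d = 0) → ∀ d, ∑ c, η c * β' c d = 0) →
      0 ≤ (W β' (detT e * G) (detT e * G)).re) :
    0 ≤ (W β G G).re := by
  obtain ⟨S, M, γ, Q, hS, hM, hβM, hγ, hγ0, hQ, hQ0, hrel⟩ := s1_data e he β hβ hpos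
  obtain ⟨hint, hW⟩ := g5_split M γ Q hQ G
  have hS' : IsUnit (S⁻¹).det := by
    rw [Matrix.det_nonsing_inv, Ring.inverse_eq_inv']
    exact (IsUnit.mk0 _ (inv_ne_zero hS.ne_zero))
  obtain ⟨c, hc, h1⟩ := k2_gauss S⁻¹ hS'
  have h2 := k2_gauss' S⁻¹ hS' _ hint
  have h3 := h1 (fun g => phi γ Q G (M.mulVec g))
  have hP := s4_haarP i
  obtain ⟨c', hc', h4⟩ := s3_haar (volume : Measure ((Fin i → Fin i → ℂ) × (Fin i → ℂ)))
    (volume : Measure ((Fin i × Fin i) ⊕ Fin i → ℂ)) (s4_L i)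
  set Ψ : ((Fin i × Fin i) ⊕ Fin i → ℂ) → ℂ := fun x =>
    phi γ Q G (M.mulVec (S⁻¹.mulVec x)) * ((Real.exp (-∑ s, ‖S⁻¹.mulVec x s‖ ^ 2) : ℝ) : ℂ) with hΨ
  have h5 := h4 Ψ
  have h6 : Integrable (fun p => Ψ (s4_L i p)) := s4_haar _ _ (s4_L i) Ψ h2
  have hcont : Continuous (fun p => Ψ (s4_L i p)) := by
    have hΨc : Continuous Ψ := by
      have a1 : Continuous fun x : (Fin i × Fin i) ⊕ Fin i → ℂ => S⁻¹.mulVec x :=
        Continuous.matrix_mulVec continuous_const continuous_id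
      have a2 : Continuous fun x : (Fin i × Fin i) ⊕ Fin i → ℂ => M.mulVec (S⁻¹.mulVec x) :=
        Continuous.matrix_mulVec continuous_const a1
      refine ((g5_cont γ Q G).comp a2).mul ?_
      refine Complex.continuous_ofReal.comp (Real.continuous_exp.comp ?_)
      refine Continuous.neg (continuous_finsetSum _ fun s _ => ?_)
      exact ((continuous_apply s).comp a1).norm.pow 2
    exact hΨc.comp (s4_L i).continuous
  have h7 : 0 ≤ (∫ p : (Fin i → Fin i → ℂ) × (Fin i → ℂ), Ψ (s4_L i p)).re := by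
    refine k1_change i _ hcont h6 fun a => ?_
    obtain ⟨U, K, hK, hU, hB⟩ := k2_polar (S⁻¹ * Ja a) (s4_inj S hS a)
    obtain ⟨c2, hc2, h8⟩ := s3_inner e S M γ Q hS hM hγ0 hQ0 hQ a U K hK hU hB G
    obtain ⟨b1, b2, b3, b4⟩ := s2_cond e he β S M γ hS hM hβM hγ hγ0 hrel a U K hK hU hB _ rfl
    have h9 := h a _ b1 b2 b3 b4
    have h10 : (∫ T : Fin i → Fin i → ℂ, (fun p => Ψ (s4_L i p)) (T, (Matrix.of T).mulVec a) *
        ((‖(Matrix.of T).det‖ ^ 2 : ℝ) : ℂ)) =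
        (c2 : ℂ) * W ((M * U) * (M * U).conjTranspose + γ) (detT e * G) (detT e * G) := by
      rw [← h8]
      refine integral_congr_ae (Filter.Eventually.of_forall fun T => ?_)
      simp only [hΨ, s4_L_apply]
    rw [h10, Complex.re_ofReal_mul]
    exact mul_nonneg hc2.le h9
  have h11 : (∫ p : (Fin i → Fin i → ℂ) × (Fin i → ℂ), Ψ (s4_L i p)) = (c' : ℂ) * ((c : ℂ) * W β G G) := by
    rw [h5, hβM, hW, ← h3]
  rw [h11, Complex.re_ofReal_mul, Complex.re_ofReal_mul] at h7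
  have h12 := (mul_nonneg_iff_of_pos_left hc').1 h7
  exact (mul_nonneg_iff_of_pos_left hc).1 h12

end H2K
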