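import Pool.Agent.Lib.H2K.I1
import Pool.Agent.Lib.H2K.I2
import Pool.Agent.Lib.H2K.I3C
import Pool.Agent.Lib.H2K.P4
import Pool.Agent.Lib.H2K.S4

/-!
# H2K chunk I4 (M): the downward induction

Claim for `1 ≤ s ≤ m = 2n - k`: for all `β`, `g` with `Inv n k α s β g`, `0 ≤ Re W β (FF n k s) (FF n k s)`.
`s = m`: `i3_last` (`hw` from `i0_weak`).  `s + 1 → s`: `s4_step` with `e = eH n m s (min s k)` (`i0_eH`), `i2_posDef`.  Its
hypothesis: for `β'` the invariant of stage `s + 1` holds for `β'' = TU u β' (TU u)ᴴ`, `g u` (`i1_inv`), and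
`W β' (detT e * FF s) (detT e * FF s) = W β' (FF (s+1)) (FF (s+1)) = W β'' (FF (s+1)) (FF (s+1))`
(`Finset.prod_Ico_succ_top`, `detT e = DD n m (min s k)` by definition; `r1_push` and `p4_inv`).
Start: `s = 1`, `β = α`, `g = 1`: `Inv` is clear (`zero` is empty, `σ = 0`, `i0_one`), `FF n k 1 = hPf n`.
-/

open MvPolynomial

namespace H2K

theorem i4_FF (n k s : ℕ) [NeZero n] (hs : 1 ≤ s) :
    detT (eH n (2 * n - k) s (min s k)) * FF n k s = FF n k (s + 1) := by
  have h : detT (eH n (2 * n - k) s (min s k)) = DD n (2 * n - k) (min s k) := rfl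
  unfold FF
  rw [Finset.prod_Ico_succ_top hs, h]
  ring

theorem i4_key (n k : ℕ) [NeZero n] (hk : k ≤ n) (hnk : 2 * n ≤ 3 * k + 1)
    (α : Matrix (Fin (2 * n) × Fin (2 * n)) (Fin (2 * n) × Fin (2 * n)) ℂ)
    (hα : α.IsHermitian) (hs : ∀ p q c, α (p, q) c = -α (q, p) c) (hp : StrictPos n k α) :
    ∀ d s, 1 ≤ s → s + d = 2 * n - k →
      ∀ (β : Matrix (Fin (2 * n) × Fin (2 * n)) (Fin (2 * n) × Fin (2 * n)) ℂ)
        (g : Matrix (Fin (2 * n)) (Fin (2 * n)) ℂ), Inv n k α s β g →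
        0 ≤ (W β (FF n k s) (FF n k s)).re := by
  intro d
  induction d with
  | zero =>
    intro s h1 hsd β g hI
    have : s = 2 * n - k := by omega
    rw [this] at hI ⊢
    exact i3_last n k hk hnk α β hα hs g (i0_weak n k α hα hs hp) hI
  | succ d ih =>
    intro s h1 hsd β g hI
    have hsm : s < 2 * n - k := by omega
    have hi1 : min s k ≤ s := min_le_left _ _
    have hi2 : min s k ≤ k := min_le_right _ _
    have hm : 2 * n - k + min s k ≤ 2 * n := by omega
    apply s4_step (eH n (2 * n - k) s (min s k)) (i0_eH n _ s _ hi1 hsm hm) β hI.herm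
      (i2_posDef n k s hk h1 hsm α β g hp hI) (FF n k s)
    intro a β' hh hform hb hrel
    rw [i4_FF n k s h1]
    have hI' := i1_inv n k s hk h1 hsm α β β' g hI a hh hform hb hrel
    have h2 := ih (s + 1) (by omega) (by omega) _ _ hI'
    rw [r1_push β' (TU (uu n (2 * n - k) s a)) (FF n k (s + 1))
      (p4_inv n k s hk h1 hsm a)] at h2
    exact h2

theorem i4_main (n k : ℕ) [NeZero n] (hk1 : 1 ≤ k) (hk : k ≤ n) (hnk : 2 * n ≤ 3 * k + 1)
    (α : Matrix (Fin (2 * n) × Fin (2 * n)) (Fin (2 * n) × Fin (2 * n)) ℂ)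
    (hα : α.IsHermitian) (hs : ∀ p q c, α (p, q) c = -α (q, p) c) (hp : StrictPos n k α) :
    0 ≤ (W α (hPf n) (hPf n)).re := by
  have hn : 0 < n := Nat.pos_of_ne_zero (NeZero.ne n)
  have hI : Inv n k α 1 α 1 := by
    refine ⟨hα, hs, ?_, ?_, ?_⟩
    · intro p q _ h1 h2
      omega
    · rw [Matrix.det_one]
      exact isUnit_one
    · intro ξ
      refine ⟨0, ?_, ?_⟩
      · intro p q h
        exact absurd rfl h
      · rw [add_zero, i0_one]
  have h1 := i4_key n k hk hnk α hα hs hp (2 * n - k - 1) 1 le_rfl (by omega) α 1 hI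
  have h2 : FF n k 1 = hPf n := by
    unfold FF
    simp
  rw [h2] at h1
  exact h1

end H2K
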