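import Pool.Agent.Lib.H2K.I4
import Pool.Agent.Lib.H2K.G7
import Pool.Agent.Lib.H69.Hopf.Sym

/-!
# H2K chunk I5 (M): the Gauss-Bonnet integrand of a `k`-nonnegative tensor, `2 n ≤ 3 k + 1`

`k' = min k n` (`2 n ≤ 3 k' + 1`; `KN k' S`: extend `z`, `w` by `0` (or cast)).  For `ε > 0` put
`S_ε = S + ε idA`: `cov S_ε` is Hermitian and skew in the first pair and
`qf (cov S_ε) ξ = qf (cov S) ξ + ε/2 ∑ |ξ(a,b) - ξ(b,a)|²`, so `StrictPos n k' (cov S_ε)`.  `i4_main`, `g7_W`
(`n! > 0`): `0 ≤ gaussBonnet n S_ε`; `ε → 0` (continuity in `ε`: finite sums and products).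
`i5_idA`: `qf (cov (idA)) ξ = 1/2 ∑ |ξ(a,b) - ξ(b,a)|²`.
-/

open Pool.Agent.H69Hopf

namespace H2K

theorem i5_sq (x y : ℂ) :
    (x * (starRingEnd ℂ) x).re - (x * (starRingEnd ℂ) y).re + ((y * (starRingEnd ℂ) y).re -
      (y * (starRingEnd ℂ) x).re) = ‖x - y‖ ^ 2 := by
  rw [← Complex.normSq_eq_norm_sq, Complex.normSq_apply]
  simp only [Complex.mul_re, Complex.conj_re, Complex.conj_im, Complex.sub_re, Complex.sub_im]
  ring

theorem i5_qf_idA (n : ℕ) (ξ : Fin (2 * n) × Fin (2 * n) → ℂ) :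
    qf (cov (idA (2 * n))) ξ = ∑ a, ∑ b, (ξ (a, b) * (starRingEnd ℂ) (ξ (a, b)) -
      ξ (a, b) * (starRingEnd ℂ) (ξ (b, a))) := by
  unfold qf
  rw [Fintype.sum_prod_type]
  refine Finset.sum_congr rfl fun a _ => Finset.sum_congr rfl fun b _ => ?_
  rw [Fintype.sum_prod_type]
  simp only [cov, idA]
  have h : ∀ c d : Fin (2 * n), ξ (a, b) * (starRingEnd ℂ) (ξ (c, d)) *
      ((((if a = c then (1 : ℝ) else 0) * (if b = d then 1 else 0) -
        (if a = d then 1 else 0) * (if b = c then 1 else 0) : ℝ)) : ℂ) =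
      (if a = c then (if b = d then ξ (a, b) * (starRingEnd ℂ) (ξ (c, d)) else 0) else 0) -
      (if b = c then (if a = d then ξ (a, b) * (starRingEnd ℂ) (ξ (c, d)) else 0) else 0) := by
    intro c d
    generalize ξ (a, b) * (starRingEnd ℂ) (ξ (c, d)) = u
    split_ifs <;> push_cast <;> ring
  simp only [h, Finset.sum_sub_distrib]
  congr 1
  · simp
  · simp

theorem i5_idA (n : ℕ) (ξ : Fin (2 * n) × Fin (2 * n) → ℂ) :
    (qf (cov (idA (2 * n))) ξ).re = ∑ a, ∑ b, ‖ξ (a, b) - ξ (b, a)‖ ^ 2 / 2 := by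
  rw [i5_qf_idA]
  simp only [Complex.re_sum, Complex.sub_re]
  have h1 : ∑ a : Fin (2 * n), ∑ b : Fin (2 * n), ((ξ (a, b) * (starRingEnd ℂ) (ξ (a, b))).re -
      (ξ (a, b) * (starRingEnd ℂ) (ξ (b, a))).re) =
      ∑ a : Fin (2 * n), ∑ b : Fin (2 * n), ((ξ (b, a) * (starRingEnd ℂ) (ξ (b, a))).re -
      (ξ (b, a) * (starRingEnd ℂ) (ξ (a, b))).re) := Finset.sum_comm
  have h2 : ∑ a : Fin (2 * n), ∑ b : Fin (2 * n), ‖ξ (a, b) - ξ (b, a)‖ ^ 2 / 2 =
      (∑ a : Fin (2 * n), ∑ b : Fin (2 * n), ((ξ (a, b) * (starRingEnd ℂ) (ξ (a, b))).re -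
      (ξ (a, b) * (starRingEnd ℂ) (ξ (b, a))).re) +
      ∑ a : Fin (2 * n), ∑ b : Fin (2 * n), ((ξ (b, a) * (starRingEnd ℂ) (ξ (b, a))).re -
      (ξ (b, a) * (starRingEnd ℂ) (ξ (a, b))).re)) / 2 := by
    rw [← Finset.sum_add_distrib, Finset.sum_div]
    refine Finset.sum_congr rfl fun a _ => ?_
    rw [← Finset.sum_add_distrib, Finset.sum_div]
    refine Finset.sum_congr rfl fun b _ => ?_
    rw [i5_sq]
  rw [h2, ← h1]
  ring

theorem i5_KN_add {n : ℕ} (k r : ℕ) (S : Arr (2 * n)) (h : KN (k + r) S) : KN k S := by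
  intro z w
  have h1 := h (Fin.append z (fun _ => 0)) (Fin.append w (fun _ => 0))
  have h2 : biv (Fin.append z (fun _ : Fin r => (0 : Fin (2 * n) → ℂ)))
      (Fin.append w (fun _ : Fin r => (0 : Fin (2 * n) → ℂ))) = biv z w := by
    funext c
    unfold biv
    rw [Fin.sum_univ_add]
    simp [Fin.append_left, Fin.append_right]
  rwa [h2] at h1

theorem i5_KN_mono {n k k' : ℕ} (hk : k' ≤ k) (S : Arr (2 * n)) (h : KN k S) : KN k' S := by
  obtain ⟨r, rfl⟩ := Nat.exists_eq_add_of_le hk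
  exact i5_KN_add k' r S h

theorem i5_cov_add (n : ℕ) (S : Arr (2 * n)) (ε : ℝ) (ξ : Fin (2 * n) × Fin (2 * n) → ℂ) :
    (qf (cov (fun i j k l => S i j k l + ε * idA (2 * n) i j k l)) ξ).re =
      (qf (cov S) ξ).re + ε * (qf (cov (idA (2 * n))) ξ).re := by
  have h : qf (cov (fun i j k l => S i j k l + ε * idA (2 * n) i j k l)) ξ =
      qf (cov S) ξ + (ε : ℂ) * qf (cov (idA (2 * n))) ξ := by
    unfold qf
    simp only [Finset.mul_sum, ← Finset.sum_add_distrib]
    refine Finset.sum_congr rfl fun a _ => Finset.sum_congr rfl fun b _ => ?_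
    simp only [cov]
    push_cast
    ring
  rw [h, Complex.add_re, Complex.re_ofReal_mul]

theorem i5_eps (n k : ℕ) [NeZero n] (hk1 : 1 ≤ k) (hk : k ≤ n) (hnk : 2 * n ≤ 3 * k + 1)
    (S : Arr (2 * n))
    (hskew : ∀ a b c d, S a b c d = -S b a c d) (hpair : ∀ a b c d, S a b c d = S c d a b)
    (h : KN k S) (ε : ℝ) (hε : 0 < ε) :
    0 ≤ gaussBonnet n (fun i j k l => S i j k l + ε * idA (2 * n) i j k l) := by
  have h1 := i4_main n k hk1 hk hnk (cov (fun i j k l => S i j k l + ε * idA (2 * n) i j k l))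
    (by
      ext c d
      simp only [Matrix.conjTranspose_apply, cov]
      rw [hpair d.1 d.2 c.1 c.2]
      have hid : idA (2 * n) d.1 d.2 c.1 c.2 = idA (2 * n) c.1 c.2 d.1 d.2 := by
        simp only [idA, eq_comm]
        ring
      rw [hid]
      exact Complex.conj_ofReal _)
    (by
      intro p q c
      simp only [cov]
      rw [hskew p q c.1 c.2]
      have hid : idA (2 * n) p q c.1 c.2 = -idA (2 * n) q p c.1 c.2 := by
        simp only [idA]
        ring
      rw [hid]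
      push_cast
      ring)
    (by
      intro z w hzw
      rw [i5_cov_add, i5_idA]
      have h2 := h z w
      have h3 : 0 < ∑ a : Fin (2 * n), ∑ b : Fin (2 * n),
          ‖biv z w (a, b) - biv z w (b, a)‖ ^ 2 / 2 := by
        obtain ⟨a, b, hab⟩ := hzw
        have h4 : 0 < ‖biv z w (a, b) - biv z w (b, a)‖ ^ 2 / 2 := by
          have : 0 < ‖biv z w (a, b) - biv z w (b, a)‖ := norm_pos_iff.mpr (sub_ne_zero.mpr hab)
          positivity
        refine Finset.sum_pos' (fun a _ => Finset.sum_nonneg fun b _ => by positivity)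
          ⟨a, Finset.mem_univ a, ?_⟩
        exact Finset.sum_pos' (fun b _ => by positivity) ⟨b, Finset.mem_univ b, h4⟩
      have h5 : 0 < ε * ∑ a : Fin (2 * n), ∑ b : Fin (2 * n),
          ‖biv z w (a, b) - biv z w (b, a)‖ ^ 2 / 2 := mul_pos hε h3
      linarith)
  rw [g7_W] at h1
  have h2 : (((n.factorial : ℂ) * (gaussBonnet n
      (fun i j k l => S i j k l + ε * idA (2 * n) i j k l) : ℂ)).re) =
      (n.factorial : ℝ) * gaussBonnet n (fun i j k l => S i j k l + ε * idA (2 * n) i j k l) := by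
    rw [← Complex.ofReal_natCast, ← Complex.ofReal_mul, Complex.ofReal_re]
  rw [h2] at h1
  have h3 : (0 : ℝ) < n.factorial := by exact_mod_cast Nat.factorial_pos n
  exact nonneg_of_mul_nonneg_right h1 h3

theorem i5_gb (n k : ℕ) (hn : 1 ≤ n) (hk : 1 ≤ k) (hnk : 2 * n ≤ 3 * k + 1) (S : Arr (2 * n))
    (hskew : ∀ a b c d, S a b c d = -S b a c d) (hpair : ∀ a b c d, S a b c d = S c d a b)
    (h : KN k S) : 0 ≤ gaussBonnet n S := by
  have : NeZero n := ⟨by omega⟩
  have hcont : Continuous fun ε : ℝ =>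
      gaussBonnet n (fun i j k l => S i j k l + ε * idA (2 * n) i j k l) := by
    unfold gaussBonnet
    fun_prop
  have h0 : (fun ε : ℝ => gaussBonnet n (fun i j k l => S i j k l + ε * idA (2 * n) i j k l)) 0 =
      gaussBonnet n S := by
    simp
  have ht : Filter.Tendsto (fun ε : ℝ =>
      gaussBonnet n (fun i j k l => S i j k l + ε * idA (2 * n) i j k l))
      (nhdsWithin 0 (Set.Ioi 0)) (nhds (gaussBonnet n S)) := by
    rw [← h0]
    exact hcont.continuousAt.continuousWithinAt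
  refine ge_of_tendsto ht ?_
  filter_upwards [self_mem_nhdsWithin] with ε hε
  exact i5_eps n (min k n) (by omega) (min_le_right _ _) (by omega) S hskew hpair
    (i5_KN_mono (min_le_left _ _) S h) ε hε

end H2K
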