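import Mathlib

/-!
# H2K chunk K1 (M/L, PURE MEASURE THEORY): the change of variables `(T, b) = (T, T a)`

`T : Fin i → Fin i → ℂ` (a matrix), `b, a : Fin i → ℂ`.
1. For `det T ≠ 0` the map `a ↦ T a` is a complex linear automorphism of `ℂ^i`; its real Jacobian is `|det T|²`:
   `∫ b, F b = |det T|² ∫ a, F (T a)` for every `F` (`MeasureTheory.Measure.addHaar_..`,
   `Real`-determinant of a complex linear map `LinearMap.det_restrictScalars`/`Complex`-norm square; or reduce to
   diagonal and transvection matrices `Matrix.diagonal_transvection_induction_of_det_ne_zero`).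
2. `{T | det T = 0}` has measure zero in `Fin i → Fin i → ℂ` (zero set of a nonzero polynomial; for instance a
   proper analytic/polynomial zero set, or: induction on rows; or `MvPolynomial` null set lemma if in Mathlib).
3. `ψ` integrable on the product.  By 1, 2 and Tonelli for `‖ψ‖` the function
   `(T, a) ↦ ψ (T, T a) |det T|²` is integrable on the product and `∫∫ ψ (T, b) db dT =
   ∫∫ ψ (T, T a) |det T|² da dT = ∫∫ ψ (T, T a) |det T|² dT da` (Fubini).
4. Real parts: the inner integrals over `T` have nonnegative real part for every `a`.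
Measurability of the product function: `ψ` is a.e. strongly measurable; the map `(T, a) ↦ (T, T a)` is continuous
and quasi measure preserving by the Tonelli computation (`|det T|² > 0` a.e.) -- or first replace `ψ` by its
measurable representative.
-/

open MeasureTheory

namespace H2K

/-- the real determinant of `a ↦ T a` is `|det T|²` -/
theorem k1_det {q : Type} [Fintype q] [DecidableEq q] (T : Matrix q q ℂ) :
    LinearMap.det ((Matrix.toLin' T).restrictScalars ℝ) = ‖T.det‖ ^ 2 := by
  rw [LinearMap.det_restrictScalars, Algebra.norm_complex_apply, LinearMap.det_toLin', Complex.normSq_eq_norm_sq]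

/-- the measurable embedding -/
theorem k1_emb {q : Type} [Fintype q] [DecidableEq q] (T : Matrix q q ℂ) (hT : T.det ≠ 0) :
    MeasurableEmbedding (fun a : q → ℂ => T.mulVec a) := by
  have hdet : LinearMap.det ((Matrix.toLin' T).restrictScalars ℝ) ≠ 0 := by
    rw [k1_det]
    exact pow_ne_zero 2 (norm_ne_zero_iff.2 hT)
  let e := (LinearMap.equivOfDetNeZero ((Matrix.toLin' T).restrictScalars ℝ) hdet).toContinuousLinearEquiv
  have h1 : (fun a : q → ℂ => T.mulVec a) = e := by
    funext a
    rfl
  rw [h1]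
  exact e.toHomeomorph.measurableEmbedding

theorem k1_map {q : Type} [Fintype q] [DecidableEq q] (T : Matrix q q ℂ) (hT : T.det ≠ 0) :
    Measure.map (fun a : q → ℂ => T.mulVec a) volume = ENNReal.ofReal ((‖T.det‖ ^ 2)⁻¹) • volume := by
  have hdet : LinearMap.det ((Matrix.toLin' T).restrictScalars ℝ) ≠ 0 := by
    rw [k1_det]
    exact pow_ne_zero 2 (norm_ne_zero_iff.2 hT)
  have h := Measure.map_linearMap_addHaar_eq_smul_addHaar (volume : Measure (q → ℂ)) hdet
  rw [k1_det, abs_of_nonneg (by positivity)] at h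
  exact h

theorem k1_integral {q : Type} [Fintype q] [DecidableEq q] (T : Matrix q q ℂ) (hT : T.det ≠ 0)
    {E : Type} [NormedAddCommGroup E] [NormedSpace ℝ E] (F : (q → ℂ) → E) :
    ∫ a, F (T.mulVec a) = (‖T.det‖ ^ 2)⁻¹ • ∫ b, F b := by
  rw [← (k1_emb T hT).integral_map, k1_map T hT, integral_smul_measure, ENNReal.toReal_ofReal (by positivity)]

theorem k1_integrable {q : Type} [Fintype q] [DecidableEq q] (T : Matrix q q ℂ) (hT : T.det ≠ 0)
    {E : Type} [NormedAddCommGroup E] (F : (q → ℂ) → E) (hF : Integrable F) :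
    Integrable fun a => F (T.mulVec a) := by
  have h := (k1_emb T hT).integrable_map_iff (μ := volume) (g := F)
  rw [k1_map T hT] at h
  exact h.1 (hF.smul_measure ENNReal.ofReal_ne_top)

/-- the matrices of determinant zero are a null set -/
theorem k1_null (i : ℕ) : ∀ᵐ T : Fin i → Fin i → ℂ, (Matrix.of T).det ≠ 0 := by
  set I : Fin i → Fin i → ℂ := fun p q => if p = q then 1 else 0 with hI
  have hcont : Continuous fun x : ℂ × (Fin i → Fin i → ℂ) => (Matrix.of (x.2 + x.1 • I)).det := by
    refine Continuous.matrix_det ?_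
    fun_prop
  set S : Set (ℂ × (Fin i → Fin i → ℂ)) := {x | (Matrix.of (x.2 + x.1 • I)).det = 0} with hS
  have hSm : MeasurableSet S := (isClosed_eq hcont continuous_const).measurableSet
  have h1 : ∀ T : Fin i → Fin i → ℂ, volume {l : ℂ | (l, T) ∈ S} = 0 := by
    intro T
    have hfin : {l : ℂ | (l, T) ∈ S}.Finite := by
      have h2 : {l : ℂ | (l, T) ∈ S} ⊆ {l : ℂ | (-(Matrix.of T)).charpoly.IsRoot l} := by
        intro l hl
        have h3 : (Matrix.of (T + l • I)).det = 0 := hl
        show (-(Matrix.of T)).charpoly.eval l = 0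
        rw [Matrix.eval_charpoly, ← h3]
        congr 1
        ext p q
        simp only [hI, Matrix.sub_apply, Matrix.neg_apply, Matrix.of_apply, Pi.add_apply, Pi.smul_apply, Matrix.scalar_apply,
          Matrix.diagonal_apply, smul_eq_mul]
        split_ifs <;> ring
      exact (Polynomial.finite_setOfPred_isRoot (Matrix.charpoly_monic _).ne_zero).subset h2
    exact hfin.measure_zero _
  have h2 : (volume : Measure (ℂ × (Fin i → Fin i → ℂ))) S = 0 := by
    rw [Measure.volume_eq_prod, ← Measure.prod_swap, Measure.map_apply measurable_swap hSm,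
      Measure.measure_prod_null (measurable_swap hSm)]
    filter_upwards with T
    exact h1 T
  rw [Measure.volume_eq_prod, Measure.measure_prod_null hSm] at h2
  obtain ⟨l, hl⟩ := h2.exists
  have h3 : volume {T : Fin i → Fin i → ℂ | (Matrix.of (T + l • I)).det = 0} = 0 := hl
  have h4 : {T : Fin i → Fin i → ℂ | (Matrix.of (T + l • I)).det = 0} =
      (fun T => T + l • I) ⁻¹' {T | (Matrix.of T).det = 0} := rfl
  rw [h4, measure_preimage_add_right] at h3
  rw [ae_iff]
  simpa using h3

theorem k1_change (i : ℕ) (ψ : (Fin i → Fin i → ℂ) × (Fin i → ℂ) → ℂ) (hc : Continuous ψ)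
    (hψ : Integrable ψ)
    (h : ∀ a : Fin i → ℂ, 0 ≤ (∫ T : Fin i → Fin i → ℂ,
      ψ (T, (Matrix.of T).mulVec a) * ((‖(Matrix.of T).det‖ ^ 2 : ℝ) : ℂ)).re) :
    0 ≤ (∫ p, ψ p).re := by
  set G : (Fin i → Fin i → ℂ) × (Fin i → ℂ) → ℂ := fun x =>
    ψ (x.1, (Matrix.of x.1).mulVec x.2) * ((‖(Matrix.of x.1).det‖ ^ 2 : ℝ) : ℂ) with hG
  have hGc : Continuous G := by
    refine (hc.comp ?_).mul ?_
    · refine Continuous.prodMk continuous_fst ?_
      refine Continuous.matrix_mulVec ?_ continuous_snd
      fun_prop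
    · refine Complex.continuous_ofReal.comp ((Continuous.norm ?_).pow 2)
      refine Continuous.matrix_det ?_
      fun_prop
  rw [Measure.volume_eq_prod] at hψ
  have hψ1 := (integrable_prod_iff hψ.aestronglyMeasurable).1 hψ
  -- the inner integrals
  have hin : ∀ᵐ T : Fin i → Fin i → ℂ, (∫ a, G (T, a)) = ∫ b, ψ (T, b) := by
    filter_upwards [k1_null i] with T hT
    have h1 := k1_integral (Matrix.of T) hT (fun b => ψ (T, b))
    have h2 : ‖(Matrix.of T).det‖ ^ 2 ≠ 0 := pow_ne_zero 2 (norm_ne_zero_iff.2 hT)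
    simp only [hG]
    rw [integral_mul_const, h1, Complex.real_smul, mul_comm, ← mul_assoc, ← Complex.ofReal_mul, mul_inv_cancel₀ h2,
      Complex.ofReal_one, one_mul]
  have hinn : ∀ᵐ T : Fin i → Fin i → ℂ, (∫ a, ‖G (T, a)‖) = ∫ b, ‖ψ (T, b)‖ := by
    filter_upwards [k1_null i] with T hT
    have h1 := k1_integral (Matrix.of T) hT (fun b => ‖ψ (T, b)‖)
    have h2 : ‖(Matrix.of T).det‖ ^ 2 ≠ 0 := pow_ne_zero 2 (norm_ne_zero_iff.2 hT)
    have h3 : ∀ a, ‖G (T, a)‖ = ‖ψ (T, (Matrix.of T).mulVec a)‖ * ‖(Matrix.of T).det‖ ^ 2 := by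
      intro a
      simp only [hG]
      rw [norm_mul, Complex.norm_real, Real.norm_of_nonneg (by positivity)]
    simp only [h3]
    rw [integral_mul_const, h1, smul_eq_mul, mul_comm, ← mul_assoc, mul_inv_cancel₀ h2, one_mul]
  have hGint : Integrable G (volume.prod volume) := by
    rw [integrable_prod_iff hGc.aestronglyMeasurable]
    constructor
    · filter_upwards [k1_null i, hψ1.1] with T hT hT2
      show Integrable (fun a => ψ (T, (Matrix.of T).mulVec a) * ((‖(Matrix.of T).det‖ ^ 2 : ℝ) : ℂ))
      exact (k1_integrable (Matrix.of T) hT (fun b => ψ (T, b)) hT2).mul_const _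
    · refine hψ1.2.congr ?_
      filter_upwards [hinn] with T hT
      exact hT.symm
  have e1 : ∫ p, ψ p = ∫ p, G p ∂(volume.prod volume) := by
    rw [Measure.volume_eq_prod, integral_prod _ hψ, integral_prod _ hGint]
    refine integral_congr_ae ?_
    filter_upwards [hin] with T hT
    exact hT.symm
  have e2 : ∫ p, G p ∂(volume.prod volume) = ∫ a, ∫ T, G (T, a) := by
    rw [integral_prod_symm _ hGint]
  rw [e1, e2]
  have h5 : Integrable (fun a : Fin i → ℂ => ∫ T, G (T, a)) := hGint.integral_prod_right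
  have h6 : (∫ a : Fin i → ℂ, ∫ T, G (T, a)).re = ∫ a : Fin i → ℂ, (∫ T, G (T, a)).re := by
    have := integral_re h5
    exact this.symm
  rw [h6]
  exact integral_nonneg fun a => h a

end H2K
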