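import Pool.Agent.Lib.H2K.Defs

/-!
# H2K chunk K2 (S/M): polar decomposition and Gaussian integrals

`k2_polar`: `Bᴴ B` is positive definite; `Bᴴ B = Kᴴ K` with `K` invertible (as in `H79G.exists_frame`:
`CStarAlgebra.nonneg_iff_eq_star_mul_self`, or Cholesky), `U = B K⁻¹`: `Uᴴ U = K⁻ᴴ Bᴴ B K⁻¹ = 1`.
`k2_gauss`: `muG q` has density `π^(-q) exp(-∑ |g_s|²)` (`Measure.pi` of `withDensity` measures;
`MeasureTheory.pi_withDensity..` or prove by uniqueness of product measures on boxes), and the substitution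
`g = K T` (linear automorphism of a finite dimensional real space, `∫ F (K T) dT = c ∫ F`, `c = |det|⁻¹ > 0`,
e.g. `MeasureTheory.Measure.map_linearMap_addHaar_eq_smul_addHaar`, `integral_map_equiv`): holds for every
function `F`, no measurability needed.
`k2_gauss'`: integrability of `T ↦ F (K T) exp(-∑ |(K T)_s|²)` from integrability of `F`.
-/

open MeasureTheory

namespace H2K

open scoped MatrixOrder ComplexOrder in
theorem k2_factor {h q : Type} [Fintype h] [Fintype q] [DecidableEq q] (B : Matrix h q ℂ) :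
    ∃ K : Matrix q q ℂ, B.conjTranspose * B = K.conjTranspose * K := by
  obtain ⟨K, hK⟩ := CStarAlgebra.nonneg_iff_eq_star_mul_self.mp (Matrix.posSemidef_conjTranspose_mul_self B).nonneg
  exact ⟨K, hK⟩

open scoped ComplexOrder in
theorem k2_zero {h q : Type} [Fintype h] [Fintype q] (B : Matrix h q ℂ) (v : q → ℂ)
    (hv : (B.conjTranspose * B).mulVec v = 0) : B.mulVec v = 0 :=
  (Matrix.conjTranspose_mul_self_mulVec_eq_zero B _).1 hv

theorem k2_polar {h q : Type} [Fintype h] [Fintype q] [DecidableEq h] [DecidableEq q]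
    (B : Matrix h q ℂ) (hB : Function.Injective B.mulVec) :
    ∃ (U : Matrix h q ℂ) (K : Matrix q q ℂ), IsUnit K.det ∧ U.conjTranspose * U = 1 ∧
      B = U * K := by
  obtain ⟨K, hK⟩ := k2_factor B
  have hinj : Function.Injective K.mulVec := by
    intro x y hxy
    have h1 : K.mulVec (x - y) = 0 := by rw [Matrix.mulVec_sub, sub_eq_zero]; exact hxy
    have h2 : (K.conjTranspose * K).mulVec (x - y) = 0 := by
      rw [← Matrix.mulVec_mulVec, h1, Matrix.mulVec_zero]
    rw [← hK] at h2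
    have h3 : B.mulVec (x - y) = 0 := k2_zero B _ h2
    have h4 : x - y = 0 := hB (by rw [h3, Matrix.mulVec_zero])
    exact sub_eq_zero.1 h4
  have hu : IsUnit K.det := (Matrix.isUnit_iff_isUnit_det K).1 (Matrix.mulVec_injective_iff_isUnit.1 hinj)
  have h1 : K * K⁻¹ = 1 := Matrix.mul_nonsing_inv K hu
  have h1' : K⁻¹ * K = 1 := Matrix.nonsing_inv_mul K hu
  refine ⟨B * K⁻¹, K, hu, ?_, ?_⟩
  · calc (B * K⁻¹).conjTranspose * (B * K⁻¹) = (K⁻¹).conjTranspose * (B.conjTranspose * B) * K⁻¹ := by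
          rw [Matrix.conjTranspose_mul]
          simp only [Matrix.mul_assoc]
      _ = (K⁻¹).conjTranspose * (K.conjTranspose * K) * K⁻¹ := by rw [hK]
      _ = (K * K⁻¹).conjTranspose * (K * K⁻¹) := by
          rw [Matrix.conjTranspose_mul]
          simp only [Matrix.mul_assoc]
      _ = 1 := by rw [h1, Matrix.conjTranspose_one, Matrix.one_mul]
  · rw [Matrix.mul_assoc, h1', Matrix.mul_one]

/-- the density of `stdG` -/
noncomputable def k2_d (z : ℂ) : ℝ := Real.exp (-‖z‖ ^ 2) / Real.pi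

theorem k2_d_cont : Continuous k2_d := by
  unfold k2_d
  exact (Real.continuous_exp.comp ((continuous_norm.pow 2).neg)).div_const _

theorem k2_d_pos (z : ℂ) : 0 < k2_d z := div_pos (Real.exp_pos _) Real.pi_pos

theorem k2_d_int : Integrable k2_d := by
  have h := GaussianFourier.integrable_cexp_neg_mul_sq_norm_add (V := ℂ) (b := 1) (by norm_num) 0 0
  have h2 := h.re
  have h3 : (fun v : ℂ => RCLike.re (Complex.exp (-1 * (‖v‖ : ℂ) ^ 2 + 0 * (inner ℝ (0 : ℂ) v : ℝ)))) =
      fun v : ℂ => Real.exp (-‖v‖ ^ 2) := by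
    funext v
    have e : (-1 * (‖v‖ : ℂ) ^ 2 + 0 * ((inner ℝ (0 : ℂ) v : ℝ) : ℂ)) = ((-‖v‖ ^ 2 : ℝ) : ℂ) := by
      push_cast; ring
    rw [e, ← Complex.ofReal_exp]
    rfl
  have h4 : Integrable (fun v : ℂ => Real.exp (-‖v‖ ^ 2)) := by
    rw [← h3]; exact h2
  exact h4.div_const _

/-- the density of `muG` -/
noncomputable def k2_D {q : Type} [Fintype q] (x : q → ℂ) : ℝ := ∏ s, k2_d (x s)

theorem k2_D_cont {q : Type} [Fintype q] : Continuous (k2_D (q := q)) := by
  unfold k2_D
  exact continuous_finsetProd _ fun s _ => k2_d_cont.comp (continuous_apply s)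

theorem k2_D_nonneg {q : Type} [Fintype q] (x : q → ℂ) : 0 ≤ k2_D x :=
  Finset.prod_nonneg fun _ _ => (k2_d_pos _).le

theorem k2_D_eq {q : Type} [Fintype q] (x : q → ℂ) :
    k2_D x = (Real.pi ^ Fintype.card q)⁻¹ * Real.exp (-∑ s, ‖x s‖ ^ 2) := by
  unfold k2_D k2_d
  rw [Finset.prod_div_distrib, ← Real.exp_sum, Finset.sum_neg_distrib, Finset.prod_const, Finset.card_univ]
  ring

theorem k2_muG (q : Type) [Fintype q] :
    muG q = (volume : Measure (q → ℂ)).withDensity fun x => ENNReal.ofReal (k2_D x) := by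
  classical
  have hf : ∀ s : Set ℂ, MeasurableSet s → Integrable (s.indicator k2_d) := fun s hs => k2_d_int.indicator hs
  have hst : ∀ s : Set ℂ, MeasurableSet s → stdG s = ENNReal.ofReal (∫ z, s.indicator k2_d z) := by
    intro s hs
    have e1 : stdG s = ∫⁻ z in s, ENNReal.ofReal (k2_d z) := by
      unfold stdG
      rw [withDensity_apply _ hs]
      rfl
    rw [e1, ← lintegral_indicator hs, ofReal_integral_eq_lintegral_ofReal (hf s hs)]
    · refine lintegral_congr fun z => ?_
      by_cases hz : z ∈ s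
      · rw [Set.indicator_of_mem hz, Set.indicator_of_mem hz]
      · rw [Set.indicator_of_notMem hz, Set.indicator_of_notMem hz, ENNReal.ofReal_zero]
    · filter_upwards with z
      exact Set.indicator_nonneg (fun z _ => (k2_d_pos z).le) z
  have : SigmaFinite stdG := by
    unfold stdG
    exact SigmaFinite.withDensity_ofReal _
  unfold muG
  refine Measure.pi_eq fun s hs => ?_
  rw [withDensity_apply _ (MeasurableSet.univ_pi hs), ← lintegral_indicator (MeasurableSet.univ_pi hs)]
  simp only [hst _ (hs _)]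
  rw [← ENNReal.ofReal_prod_of_nonneg (fun i _ => integral_nonneg fun z =>
    Set.indicator_nonneg (fun z _ => (k2_d_pos z).le) z), ← integral_fintype_prod_volume_eq_prod,
    ofReal_integral_eq_lintegral_ofReal]
  · refine lintegral_congr fun x => ?_
    by_cases hx : x ∈ Set.pi Set.univ s
    · rw [Set.indicator_of_mem hx]
      unfold k2_D
      congr 1
      refine Finset.prod_congr rfl fun i _ => ?_
      rw [Set.indicator_of_mem (hx i (Set.mem_univ i))]
    · rw [Set.indicator_of_notMem hx]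
      have hx' : ∃ i, x i ∉ s i := by
        by_contra hcon
        push Not at hcon
        exact hx fun i _ => hcon i
      obtain ⟨i, hi⟩ := hx'
      rw [Finset.prod_eq_zero (Finset.mem_univ i) (Set.indicator_of_notMem hi _), ENNReal.ofReal_zero]
  · exact Integrable.fintype_prod fun i => hf _ (hs i)
  · filter_upwards with x
    exact Finset.prod_nonneg fun i _ => Set.indicator_nonneg (fun z _ => (k2_d_pos z).le) _

/-- the real determinant of `a ↦ T a` is `|det T|²` -/
theorem k2_det {q : Type} [Fintype q] [DecidableEq q] (T : Matrix q q ℂ) :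
    LinearMap.det ((Matrix.toLin' T).restrictScalars ℝ) = ‖T.det‖ ^ 2 := by
  rw [LinearMap.det_restrictScalars, Algebra.norm_complex_apply, LinearMap.det_toLin', Complex.normSq_eq_norm_sq]

theorem k2_emb {q : Type} [Fintype q] [DecidableEq q] (T : Matrix q q ℂ) (hT : T.det ≠ 0) :
    MeasurableEmbedding (fun a : q → ℂ => T.mulVec a) := by
  have hdet : LinearMap.det ((Matrix.toLin' T).restrictScalars ℝ) ≠ 0 := by
    rw [k2_det]
    exact pow_ne_zero 2 (norm_ne_zero_iff.2 hT)
  let e := (LinearMap.equivOfDetNeZero ((Matrix.toLin' T).restrictScalars ℝ) hdet).toContinuousLinearEquiv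
  have h1 : (fun a : q → ℂ => T.mulVec a) = e := by
    funext a
    rfl
  rw [h1]
  exact e.toHomeomorph.measurableEmbedding

theorem k2_map {q : Type} [Fintype q] [DecidableEq q] (T : Matrix q q ℂ) (hT : T.det ≠ 0) :
    Measure.map (fun a : q → ℂ => T.mulVec a) volume = ENNReal.ofReal ((‖T.det‖ ^ 2)⁻¹) • volume := by
  have hdet : LinearMap.det ((Matrix.toLin' T).restrictScalars ℝ) ≠ 0 := by
    rw [k2_det]
    exact pow_ne_zero 2 (norm_ne_zero_iff.2 hT)
  have h := Measure.map_linearMap_addHaar_eq_smul_addHaar (volume : Measure (q → ℂ)) hdet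
  rw [k2_det, abs_of_nonneg (by positivity)] at h
  exact h

theorem k2_integral {q : Type} [Fintype q] [DecidableEq q] (T : Matrix q q ℂ) (hT : T.det ≠ 0)
    {E : Type} [NormedAddCommGroup E] [NormedSpace ℝ E] (F : (q → ℂ) → E) :
    ∫ a, F (T.mulVec a) = (‖T.det‖ ^ 2)⁻¹ • ∫ b, F b := by
  rw [← (k2_emb T hT).integral_map, k2_map T hT, integral_smul_measure, ENNReal.toReal_ofReal (by positivity)]

theorem k2_integrable {q : Type} [Fintype q] [DecidableEq q] (T : Matrix q q ℂ) (hT : T.det ≠ 0)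
    {E : Type} [NormedAddCommGroup E] (F : (q → ℂ) → E) (hF : Integrable F) :
    Integrable fun a => F (T.mulVec a) := by
  have h := (k2_emb T hT).integrable_map_iff (μ := volume) (g := F)
  rw [k2_map T hT] at h
  exact h.1 (hF.smul_measure ENNReal.ofReal_ne_top)

theorem k2_gauss {q : Type} [Fintype q] [DecidableEq q] (K : Matrix q q ℂ) (hK : IsUnit K.det) :
    ∃ c : ℝ, 0 < c ∧ ∀ F : (q → ℂ) → ℂ,
      ∫ T : q → ℂ, F (K.mulVec T) * ((Real.exp (-∑ s, ‖K.mulVec T s‖ ^ 2) : ℝ) : ℂ) =
        (c : ℂ) * ∫ g, F g ∂muG q := by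
  have hK0 : K.det ≠ 0 := hK.ne_zero
  have hn : 0 < ‖K.det‖ := norm_pos_iff.2 hK0
  refine ⟨(‖K.det‖ ^ 2)⁻¹ * Real.pi ^ Fintype.card q, by positivity, fun F => ?_⟩
  rw [k2_integral K hK0 (fun b => F b * ((Real.exp (-∑ s, ‖b s‖ ^ 2) : ℝ) : ℂ)), k2_muG,
    integral_withDensity_eq_integral_toReal_smul (k2_D_cont.measurable.ennreal_ofReal)
      (Filter.Eventually.of_forall fun x => ENNReal.ofReal_lt_top)]
  have h1 : ∀ x : q → ℂ, (ENNReal.ofReal (k2_D x)).toReal • F x =
      (((Real.pi ^ Fintype.card q)⁻¹ : ℝ) : ℂ) * (F x * ((Real.exp (-∑ s, ‖x s‖ ^ 2) : ℝ) : ℂ)) := by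
    intro x
    rw [ENNReal.toReal_ofReal (k2_D_nonneg x), k2_D_eq, Complex.real_smul, Complex.ofReal_mul]
    ring
  simp only [h1]
  rw [integral_const_mul, Complex.real_smul, ← mul_assoc, ← Complex.ofReal_mul, mul_assoc,
    mul_inv_cancel₀ (by positivity), mul_one]

theorem k2_gauss' {q : Type} [Fintype q] [DecidableEq q] (K : Matrix q q ℂ) (hK : IsUnit K.det)
    (F : (q → ℂ) → ℂ) (hF : Integrable F (muG q)) :
    Integrable fun T : q → ℂ =>
      F (K.mulVec T) * ((Real.exp (-∑ s, ‖K.mulVec T s‖ ^ 2) : ℝ) : ℂ) := by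
  refine k2_integrable K hK.ne_zero (fun b => F b * ((Real.exp (-∑ s, ‖b s‖ ^ 2) : ℝ) : ℂ)) ?_
  rw [k2_muG, integrable_withDensity_iff_integrable_smul' (k2_D_cont.measurable.ennreal_ofReal)
      (Filter.Eventually.of_forall fun x => ENNReal.ofReal_lt_top)] at hF
  have h2 := hF.const_mul (((Real.pi ^ Fintype.card q) : ℝ) : ℂ)
  refine h2.congr (Filter.Eventually.of_forall fun x => ?_)
  show (((Real.pi ^ Fintype.card q) : ℝ) : ℂ) * ((ENNReal.ofReal (k2_D x)).toReal • F x) = _
  rw [ENNReal.toReal_ofReal (k2_D_nonneg x), k2_D_eq, Complex.real_smul, ← mul_assoc, ← Complex.ofReal_mul, ← mul_assoc,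
    mul_inv_cancel₀ (by positivity), one_mul, mul_comm]

end H2K
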