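import Pool.Agent.Lib.H2K.F1
import Pool.Agent.Lib.H87.HopfKC.Main
import Pool.Agent.Lib.H79G.P2

/-!
# H2K file KC6: dimension six, one pair of complex vectors (HopfKC)
-/

open H31R H79G Pool.Agent.H69Hopf

namespace H2K

theorem kc6_kc (R : Arr (2 * 3)) (z w : Fin 1 → Fin (2 * 3) → ℂ) :
    complexCurvK R z w = HopfKC.kc R (z 0) (w 0) := by
  unfold complexCurvK HopfKC.kc
  congr 1
  refine Finset.sum_congr rfl fun i _ => Finset.sum_congr rfl fun j _ =>
    Finset.sum_congr rfl fun p _ => Finset.sum_congr rfl fun q _ => ?_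
  simp only [Finset.univ_unique, Fin.default_eq_zero, Finset.sum_singleton, map_mul]
  ring

theorem kc6_six : Six := by
  intro P hA hP
  rw [gb_three]
  refine HopfKC.gb_nonneg hA fun z w => ?_
  have h := hP (fun _ => z) (fun _ => w)
  rw [← f1_qf, kc6_kc] at h
  exact h

theorem kc6_neg (k : ℕ) (hk : 1 ≤ k) (R : Arr (2 * 3)) (hA : IsAlgCurv R)
    (hK : ∀ z w : Fin k → Fin (2 * 3) → ℂ, complexCurvK R z w ≤ 0)
    (hneg : ∀ x v : Fin 6 → ℝ, LinearIndependent ℝ ![x, v] → realCurv R x v < 0) :
    gaussBonnet 3 R < 0 := by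
  rw [gb_three]
  refine (HopfKC.gb_nonpos hA fun z w => ?_).2 hneg
  have h := hK (fun l => if l.val = 0 then z else 0) (fun l => if l.val = 0 then w else 0)
  have h2 : complexCurvK R (fun l : Fin k => if l.val = 0 then z else 0)
      (fun l : Fin k => if l.val = 0 then w else 0) = HopfKC.kc R z w := by
    have h3 : ∀ i j, ∑ l : Fin k, (if l.val = 0 then z else 0) i *
        (if l.val = 0 then w else 0) j = z i * w j := by
      intro i j
      rw [Finset.sum_eq_single (⟨0, hk⟩ : Fin k)]
      · simp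
      · intro l _ hl
        have : l.val ≠ 0 := fun h0 => hl (Fin.ext h0)
        simp [this]
      · simp
    unfold complexCurvK HopfKC.kc
    simp only [h3, map_mul]
    congr 1
    refine Finset.sum_congr rfl fun i _ => Finset.sum_congr rfl fun j _ =>
      Finset.sum_congr rfl fun p _ => Finset.sum_congr rfl fun q _ => ?_
    ring
  rw [h2] at h
  exact h

end H2K
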