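import Pool.Agent.Lib.H69.Hopf.Main

/-!
# H2K chunk ST (S/M): lower bound for `P + t idA` in a class closed under orthonormal restriction

Copy of `mix_step`, `mix_all` (`Lib/H69/Hopf/Step.lean`) with the class `C` instead of `Pinched`: `mgb (fam c P) ≥ 0` for all
`m ≤ n`, `P` with `C m P`, `c` (induction on `m`: if some `c i = true` use `fam_cons`, `mgb_cons`, `consM_idA`, `scal_nonneg`,
`cof_nonneg`, `pull_fam`; otherwise it is `gaussBonnet m P`).  Then `expand`: the term `A = univ` is
`t^n * mgb (fun _ => idA)`, the others are nonnegative (`Finset.single_le_sum`; compare the end of `Main.lean`).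
-/

open Equiv Finset Pool.Agent.H69Hopf

namespace H2K

theorem st_mix {n : ℕ} (C : (m : ℕ) → Arr (2 * m) → Prop)
    (hgb : ∀ m ≤ n, ∀ P : Arr (2 * m), C m P → 0 ≤ gaussBonnet m P)
    (hpull : ∀ (m : ℕ) (P : Arr (2 * (m + 1))) (v : Fin (2 * m) → (Fin (2 * (m + 1)) → ℝ)),
      ONF v → C (m + 1) P → C m (pull v P)) :
    ∀ m ≤ n, ∀ P : Arr (2 * m), C m P → ∀ c : Fin m → Bool, 0 ≤ mgb (fam c P) := by
  intro m
  induction m with
  | zero =>
    intro hm P hP c
    have h := hgb 0 hm P hP
    rw [gaussBonnet_eq_mgb] at h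
    have : (fam c P) = (fun _ => P) := by
      funext i
      exact i.elim0
    rw [this]
    exact h
  | succ m ih =>
    intro hm P hP c
    by_cases hc : ∃ i₀, c i₀ = true
    · obtain ⟨i₀, hi⟩ := hc
      have h1 : (fun i => fam c P (Equiv.swap 0 i₀ i)) = fam (fun i => c (Equiv.swap 0 i₀ i)) P := rfl
      rw [← mgb_perm (fam c P) (Equiv.swap 0 i₀), h1, fam_cons]
      have h2 : c (Equiv.swap 0 i₀ 0) = true := by rw [Equiv.swap_apply_left]; exact hi
      simp only [h2, if_true]
      refine le_of_le_of_eq ?_ (mgb_cons _ _).symm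
      rw [consM_idA]
      refine mul_nonneg (by norm_num) (scal_nonneg _ (cof_nonneg _ ?_))
      intro v hv
      have h3 := ih (by omega) (pull v P) (hpull m P v hv hP)
        (fun i => c (Equiv.swap 0 i₀ i.succ))
      have h4 := pull_fam (fun i => c (Equiv.swap 0 i₀ i.succ)) P hv
      rw [← h4] at h3
      exact h3
    · have : (fam c P) = (fun _ => P) := by
        funext i
        unfold fam
        rw [if_neg]
        intro h
        exact hc ⟨i, h⟩
      rw [this, ← gaussBonnet_eq_mgb]
      exact hgb (m + 1) hm P hP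

theorem st_lower {n : ℕ} (C : (m : ℕ) → Arr (2 * m) → Prop)
    (hgb : ∀ m ≤ n, ∀ P : Arr (2 * m), C m P → 0 ≤ gaussBonnet m P)
    (hpull : ∀ (m : ℕ) (P : Arr (2 * (m + 1))) (v : Fin (2 * m) → (Fin (2 * (m + 1)) → ℝ)),
      ONF v → C (m + 1) P → C m (pull v P)) (t : ℝ) (ht : 0 < t) (P : Arr (2 * n)) (hP : C n P) :
    0 < gaussBonnet n (fun i j k l => t * idA (2 * n) i j k l + P i j k l) := by
  classical
  have hall := st_mix C hgb hpull n le_rfl P hP
  refine lt_of_lt_of_le (mul_pos (pow_pos ht n) (gb_idA_pos n)) ?_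
  rw [expand]
  have h1 : t ^ n * mgb (fun _ : Fin n => idA (2 * n)) =
      t ^ (Finset.univ : Finset (Fin n)).card *
        mgb (fam (fun i => decide (i ∈ (Finset.univ : Finset (Fin n)))) P) := by
    rw [Finset.card_univ, Fintype.card_fin]
    congr 2
    funext i
    unfold fam
    simp
  rw [h1]
  refine Finset.single_le_sum (f := fun A : Finset (Fin n) => t ^ A.card *
    mgb (fam (fun i => decide (i ∈ A)) P)) (fun A _ => ?_) ?_
  · exact mul_nonneg (pow_nonneg ht.le _) (hall _)
  · rw [Finset.mem_powerset]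

end H2K
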