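import Pool.Agent.Lib.H2K.I5
import Pool.Agent.Lib.H2K.ST

/-!
# H2K chunk KN1 (S/M): the class of `k`-nonnegative curvature tensors

`Six`: the six-dimensional theorem for `k = 1` (proved in `Lib/H87/HopfKC`, supplied later: file KC6).
`kn_pull`: `qf (cov (pull v P)) (biv z w) = qf (cov P) (biv (v z) (v w))`, `(v z) l a = ∑ i, v i a * z l i`.
`kn_gb`: `m = 0`: the integrand is `1`.  `2 m ≤ 3 k + 1`: `i5_gb`.  Otherwise `m = 3`, `k = 1`: `h6`.
`kn_lower`: `st_lower` for the class `IsAlgCurv P ∧ KN k P` (`pull_algCurv`, `algCurv_sub_idA`).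
-/

open Pool.Agent.H69Hopf

namespace H2K

/-- the six-dimensional theorem for `k = 1` -/
def Six : Prop := ∀ P : Arr (2 * 3), IsAlgCurv P → KN 1 P → 0 ≤ gaussBonnet 3 P

theorem kn_sum {A B : Type} [Fintype A] [Fintype B] (V : B → A → ℝ) (β : B → B → ℝ) (ξ : A → ℂ) :
    ∑ x, ∑ y, ξ x * (starRingEnd ℂ) (ξ y) * ((∑ p, ∑ q, V p x * V q y * β p q : ℝ) : ℂ) =
      ∑ p, ∑ q, (∑ x, (V p x : ℂ) * ξ x) * (starRingEnd ℂ) (∑ y, (V q y : ℂ) * ξ y) *
        (β p q : ℂ) := by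
  have h1 : ∀ p q, (∑ x, (V p x : ℂ) * ξ x) * (starRingEnd ℂ) (∑ y, (V q y : ℂ) * ξ y) *
        (β p q : ℂ) = ∑ x, ∑ y, ξ x * (starRingEnd ℂ) (ξ y) *
          ((V p x : ℂ) * (V q y : ℂ) * (β p q : ℂ)) := by
    intro p q
    rw [map_sum, Finset.sum_mul_sum, Finset.sum_mul]
    refine Finset.sum_congr rfl fun x _ => ?_
    rw [Finset.sum_mul]
    refine Finset.sum_congr rfl fun y _ => ?_
    rw [map_mul, Complex.conj_ofReal]
    ring
  have h2 : ∀ x y, ξ x * (starRingEnd ℂ) (ξ y) * ((∑ p, ∑ q, V p x * V q y * β p q : ℝ) : ℂ) =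
      ∑ p, ∑ q, ξ x * (starRingEnd ℂ) (ξ y) * ((V p x : ℂ) * (V q y : ℂ) * (β p q : ℂ)) := by
    intro x y
    push_cast
    rw [Finset.mul_sum]
    refine Finset.sum_congr rfl fun p _ => ?_
    rw [Finset.mul_sum]
  simp only [h1, h2]
  calc _ = ∑ x, ∑ p, ∑ q, ∑ y, ξ x * (starRingEnd ℂ) (ξ y) *
        ((V p x : ℂ) * (V q y : ℂ) * (β p q : ℂ)) := by
        refine Finset.sum_congr rfl fun x _ => ?_
        rw [Finset.sum_comm]
        refine Finset.sum_congr rfl fun p _ => ?_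
        rw [Finset.sum_comm]
    _ = _ := by
        rw [Finset.sum_comm]
        refine Finset.sum_congr rfl fun p _ => ?_
        rw [Finset.sum_comm]

theorem kn_pull {k m N : ℕ} (P : Arr (2 * N)) (v : Fin (2 * m) → (Fin (2 * N) → ℝ))
    (h : KN k P) : KN k (pull v P) := by
  intro z w
  have h1 := h (fun l a => ∑ i, (v i a : ℂ) * z l i) (fun l a => ∑ i, (v i a : ℂ) * w l i)
  have h2 : qf (cov (pull v P)) (biv z w) =
      qf (cov P) (biv (fun l a => ∑ i, (v i a : ℂ) * z l i) (fun l a => ∑ i, (v i a : ℂ) * w l i)) := by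
    have key := kn_sum (fun (p : Fin (2 * N) × Fin (2 * N)) (x : Fin (2 * m) × Fin (2 * m)) =>
      v x.1 p.1 * v x.2 p.2) (fun p q => P p.1 p.2 q.1 q.2) (biv z w)
    have e1 : qf (cov (pull v P)) (biv z w) = ∑ x, ∑ y, biv z w x * (starRingEnd ℂ) (biv z w y) *
        ((∑ p : Fin (2 * N) × Fin (2 * N), ∑ q : Fin (2 * N) × Fin (2 * N),
          (v x.1 p.1 * v x.2 p.2) * (v y.1 q.1 * v y.2 q.2) * P p.1 p.2 q.1 q.2 : ℝ) : ℂ) := by
      unfold qf
      refine Finset.sum_congr rfl fun x _ => Finset.sum_congr rfl fun y _ => ?_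
      congr 1
      unfold cov pull ev
      rw [Complex.ofReal_inj, Fintype.sum_prod_type]
      refine Finset.sum_congr rfl fun i _ => Finset.sum_congr rfl fun j _ => ?_
      rw [Fintype.sum_prod_type]
      refine Finset.sum_congr rfl fun k _ => Finset.sum_congr rfl fun l _ => ?_
      ring
    have e2 : ∀ p : Fin (2 * N) × Fin (2 * N),
        biv (fun l a => ∑ i, (v i a : ℂ) * z l i) (fun l a => ∑ i, (v i a : ℂ) * w l i) p =
        ∑ x : Fin (2 * m) × Fin (2 * m), ((v x.1 p.1 * v x.2 p.2 : ℝ) : ℂ) * biv z w x := by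
      intro p
      unfold biv
      have e3 : ∀ x : Fin (2 * m) × Fin (2 * m), ((v x.1 p.1 * v x.2 p.2 : ℝ) : ℂ) *
          (∑ l, z l x.1 * w l x.2) =
          ∑ l, ((v x.1 p.1 : ℂ) * z l x.1) * ((v x.2 p.2 : ℂ) * w l x.2) := by
        intro x
        rw [Finset.mul_sum]
        refine Finset.sum_congr rfl fun l _ => ?_
        push_cast
        ring
      simp only [e3]
      rw [Finset.sum_comm]
      refine Finset.sum_congr rfl fun l _ => ?_
      rw [Fintype.sum_prod_type, Finset.sum_mul_sum]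
    rw [e1]
    refine key.trans ?_
    unfold qf
    refine Finset.sum_congr rfl fun p _ => Finset.sum_congr rfl fun q _ => ?_
    rw [e2 p, e2 q]
    rfl
  rw [h2]
  exact h1

theorem kn_gb (h6 : Six) (m k : ℕ) (hk : 1 ≤ k) (hmk : m ≤ 3 ∨ 2 * m ≤ 3 * k + 1)
    (P : Arr (2 * m)) (hA : IsAlgCurv P) (hP : KN k P) : 0 ≤ gaussBonnet m P := by
  rcases Nat.eq_zero_or_pos m with rfl | hm
  · unfold gaussBonnet
    simp
  · by_cases h : 2 * m ≤ 3 * k + 1
    · exact i5_gb m k hm hk h P hA.skew hA.pair hP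
    · have hm3 : m = 3 := by omega
      have hk1 : k = 1 := by omega
      subst hm3
      subst hk1
      exact h6 P hA hP

theorem kn_lower (h6 : Six) (n k : ℕ) (hk : 1 ≤ k) (hnk : n ≤ 3 ∨ 2 * n ≤ 3 * k + 1)
    (P : Arr (2 * n)) (hA : IsAlgCurv P) (t : ℝ) (ht : 0 < t)
    (hP : KN k (fun i j p q => P i j p q - t * idA (2 * n) i j p q)) : 0 < gaussBonnet n P := by
  have h := st_lower (n := n) (fun m Q => IsAlgCurv Q ∧ KN k Q)
    (fun m hm Q hQ => kn_gb h6 m k hk (by omega) Q hQ.1 hQ.2)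
    (fun m Q v _ hQ => ⟨pull_algCurv v hQ.1, kn_pull Q v hQ.2⟩) t ht
    (fun i j p q => P i j p q - t * idA (2 * n) i j p q) ⟨algCurv_sub_idA hA t, hP⟩
  have e : (fun i j k l => t * idA (2 * n) i j k l + (P i j k l - t * idA (2 * n) i j k l)) = P := by
    funext i j k l
    ring
  rw [e] at h
  exact h

end H2K
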