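import Pool.Agent.Lib.H2K.Defs

/-!
# H2K chunk P1 (M): `hPf (gᵀ κ g) = det g · hPf κ`

`∑_σ sign σ ∏_i ∑_(a,b) g a (σ fst i) κ(a,b) g b (σ snd i)`: expand the product of the double sums:
a sum over functions `c : Fin (2n) → Fin (2n)` (`c (fst i) = a`, `c (snd i) = b`; `Finset.prod_univ_sum`,
`Fintype.piFinset`, `Fin n × Fin 2 ≃ Fin (2n)`) of `∏_i κ(c (fst i), c (snd i)) · ∑_σ sign σ ∏_j g (c j) (σ j)`.
The inner sum is `det (g.submatrix c id)` (`Matrix.det_apply'`, transpose), which is `0` if `c` is not injective and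
`sign c · det g` if `c` is a permutation (`Matrix.det_permute`, `Matrix.det_zero_of_row_eq`).
-/

open MvPolynomial

namespace H2K

open Pool.Agent.H69Hopf (fst snd)

/-- `Fin n × Fin 2 ≃ Fin (2 n)` -/
def p1_e (n : ℕ) : Fin n × Fin 2 ≃ Fin (2 * n) where
  toFun x := ⟨2 * x.1.1 + x.2.1, by have := x.1.2; have := x.2.2; omega⟩
  invFun j := (⟨j.1 / 2, by have := j.2; omega⟩, ⟨j.1 % 2, Nat.mod_lt _ (by norm_num)⟩)
  left_inv x := by
    rcases x with ⟨⟨i, hi⟩, ⟨b, hb⟩⟩
    simp only [Prod.mk.injEq, Fin.mk.injEq]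
    omega
  right_inv j := by
    rcases j with ⟨j, hj⟩
    simp only [Fin.mk.injEq]
    omega

theorem p1_prod (n : ℕ) (f : Fin (2 * n) → ℂ) : ∏ j, f j = ∏ i : Fin n, f (fst i) * f (snd i) := by
  rw [← (p1_e n).prod_comp, Fintype.prod_prod_type]
  refine Finset.prod_congr rfl fun i _ => ?_
  rw [Fin.prod_univ_two]
  rfl

/-- functions `J → J` and pairs -/
def p1_E (n : ℕ) : (Fin (2 * n) → Fin (2 * n)) ≃ (Fin n → Fin (2 * n) × Fin (2 * n)) where
  toFun c := fun i => (c (fst i), c (snd i))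
  invFun d := fun j => if ((p1_e n).symm j).2 = 0 then (d ((p1_e n).symm j).1).1 else (d ((p1_e n).symm j).1).2
  left_inv c := by
    funext j
    obtain ⟨x, rfl⟩ := (p1_e n).surjective j
    rcases x with ⟨i, b⟩
    simp only [Equiv.symm_apply_apply]
    fin_cases b
    · rfl
    · rfl
  right_inv d := by
    funext i
    have h1 : (p1_e n).symm (fst i) = (i, 0) := by
      rw [Equiv.symm_apply_eq]; rfl
    have h2 : (p1_e n).symm (snd i) = (i, 1) := by
      rw [Equiv.symm_apply_eq]; rfl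
    simp only [h1, h2]
    rfl

theorem p1_sum {J : Type} [Fintype J] [DecidableEq J] (g : Matrix J J ℂ) (K : (J → J) → ℂ) :
    ∑ c : J → J, K c * ∑ σ : Equiv.Perm J, (((Equiv.Perm.sign σ : ℤ)) : ℂ) * ∏ j, g (c j) (σ j) =
      g.det * ∑ τ : Equiv.Perm J, (((Equiv.Perm.sign τ : ℤ)) : ℂ) * K τ := by
  have h1 : ∀ c : J → J, ∑ σ : Equiv.Perm J, (((Equiv.Perm.sign σ : ℤ)) : ℂ) * ∏ j, g (c j) (σ j) =
      (g.submatrix c id).det := by
    intro c
    rw [← Matrix.det_transpose, Matrix.det_apply']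
    rfl
  simp only [h1]
  have h2 : ∑ c : J → J, K c * (g.submatrix c id).det =
      ∑ c : J → J with Function.Bijective c, K c * (g.submatrix c id).det := by
    refine (Finset.sum_subset (Finset.filter_subset _ _) fun c _ hc => ?_).symm
    have hb : ¬ Function.Bijective c := by
      simpa only [Finset.mem_filter_univ] using hc
    rw [← Finite.injective_iff_bijective] at hb
    obtain ⟨i, j, hij, hne⟩ : ∃ i j, c i = c j ∧ i ≠ j := by
      unfold Function.Injective at hb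
      push Not at hb
      exact hb
    rw [Matrix.det_zero_of_row_eq hne (M := g.submatrix c id) (by
      funext k
      simp only [Matrix.submatrix_apply, hij]), mul_zero]
  rw [h2, Finset.mul_sum]
  refine Finset.sum_bij (fun p h => Equiv.ofBijective p (Finset.mem_filter.1 h).2) (fun _ _ => Finset.mem_univ _)
    (fun _ _ _ _ h => by injection h)
    (fun b _ => ⟨b, Finset.mem_filter.2 ⟨Finset.mem_univ _, b.bijective⟩, DFunLike.coe_injective rfl⟩) ?_
  intro c hc
  have h3 : (g.submatrix c id).det =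
      (((Equiv.Perm.sign (Equiv.ofBijective c (Finset.mem_filter.1 hc).2) : ℤ)) : ℂ) * g.det := by
    rw [← Matrix.det_permute]
    rfl
  rw [h3]
  have h4 : ((Equiv.ofBijective c (Finset.mem_filter.1 hc).2 : Equiv.Perm J) : J → J) = c := rfl
  rw [h4]
  ring

theorem p1_equivariant (n : ℕ) (g : Matrix (Fin (2 * n)) (Fin (2 * n)) ℂ)
    (κ : Fin (2 * n) × Fin (2 * n) → ℂ) :
    eval (fun c => ∑ a, ∑ b, g a c.1 * κ (a, b) * g b c.2) (hPf n) = g.det * eval κ (hPf n) := by
  unfold hPf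
  simp only [map_sum, map_mul, map_prod, eval_C, eval_X]
  rw [← p1_sum g (fun c => ∏ i : Fin n, κ (c (fst i), c (snd i)))]
  simp only [Finset.mul_sum]
  rw [Finset.sum_comm]
  refine Finset.sum_congr rfl fun σ _ => ?_
  have h1 : ∏ i : Fin n, ∑ a, ∑ b, g a (σ (fst i)) * κ (a, b) * g b (σ (snd i)) =
      ∑ c : Fin (2 * n) → Fin (2 * n), (∏ i : Fin n, κ (c (fst i), c (snd i))) * ∏ j, g (c j) (σ j) := by
    have h2 : ∀ i : Fin n, ∑ a, ∑ b, g a (σ (fst i)) * κ (a, b) * g b (σ (snd i)) =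
        ∑ x : Fin (2 * n) × Fin (2 * n), g x.1 (σ (fst i)) * κ (x.1, x.2) * g x.2 (σ (snd i)) := fun i =>
      (Fintype.sum_prod_type (fun x : Fin (2 * n) × Fin (2 * n) =>
        g x.1 (σ (fst i)) * κ (x.1, x.2) * g x.2 (σ (snd i)))).symm
    simp only [h2]
    rw [Finset.prod_univ_sum, Fintype.piFinset_univ, ← (p1_E n).sum_comp]
    refine Finset.sum_congr rfl fun c _ => ?_
    rw [p1_prod n (fun j => g (c j) (σ j)), ← Finset.prod_mul_distrib]
    refine Finset.prod_congr rfl fun i _ => ?_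
    show g (c (fst i)) (σ (fst i)) * κ (c (fst i), c (snd i)) * g (c (snd i)) (σ (snd i)) = _
    ring
  rw [h1, Finset.mul_sum]
  refine Finset.sum_congr rfl fun c _ => ?_
  ring

end H2K
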