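import Pool.Agent.Lib.H2K.P1

/-!
# H2K chunk P2 (M): the Pfaffian of a skew form with an isotropic subspace

`m = 2n - k`.  Indices: `L = {p < k}`, `Y = {k ≤ p < m}`, `X = {m + q, q < k}` (`k ≤ n`, so `k ≤ m`, `m + k = 2n`).
`κ` is skew and `κ(p,q) = 0` for `p < k`, `q < m`.
(1) `g_s = diag(s on L, 1 on Y, 1/s on X)` has determinant 1 (`s ≠ 0`), so (P1) `hPf κ = hPf (g_sᵀ κ g_s)`; the blocks
LX and YY do not change, XX is multiplied by `s⁻²`, XY by `s⁻¹`.  For `s = t⁻¹`, `t → 0` (continuity of a
polynomial; or: a polynomial identity in `t` for `t ≠ 0` holds at `t = 0`): `hPf κ = hPf κ₀`, `κ₀` = `κ` without the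
blocks XX, XY, YX.
(2) If `T = (κ(p, m+q))_(p,q<k)` is invertible, `g = diag(1, 1, T⁻¹ on X)` gives `gᵀ κ₀ g = std κ`, `det g = (det T)⁻¹`:
`hPf (std κ) = (det T)⁻¹ hPf κ₀`.
(3) Singular `T`: replace `T` by `T + ε` (in LX, and correspondingly XL) and let `ε → 0`, `T + ε` is invertible for
all small `ε ≠ 0` (characteristic polynomial has finitely many roots); both sides are continuous.
-/

open MvPolynomial

namespace H2K

/-- the form with `T = 1`, no XX, XY blocks and the YY block of `κ` -/
noncomputable def stdK (n k : ℕ) (κ : Fin (2 * n) × Fin (2 * n) → ℂ) :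
    Fin (2 * n) × Fin (2 * n) → ℂ := fun c =>
  if k ≤ c.1.val ∧ k ≤ c.2.val ∧ c.1.val < 2 * n - k ∧ c.2.val < 2 * n - k then κ c
  else if c.1.val < k ∧ c.2.val = 2 * n - k + c.1.val then 1
  else if c.2.val < k ∧ c.1.val = 2 * n - k + c.2.val then -1
  else 0

/-- the matrix `g` with `gᵀ (std κ) g = κ`, `det g = det T` -/
noncomputable def p2_g (n k : ℕ) [NeZero n] (κ : Fin (2 * n) × Fin (2 * n) → ℂ) :
    Matrix (Fin (2 * n)) (Fin (2 * n)) ℂ := fun a c =>
  if a.val < k then
    (if c.val < 2 * n - k then κ (c, ix n (2 * n - k + a.val))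
      else κ (c, ix n (2 * n - k + a.val)) / 2)
  else if a = c then 1 else 0

theorem p2_ix (n : ℕ) [NeZero n] (j : ℕ) (hj : j < 2 * n) : (ix n j).val = j :=
  Nat.mod_eq_of_lt hj

theorem p2_det (n k : ℕ) [NeZero n] (hk : k ≤ n) (κ : Fin (2 * n) × Fin (2 * n) → ℂ) :
    (p2_g n k κ).det = eval κ (DD n (2 * n - k) k) := by
  classical
  have hn : 0 < n := Nat.pos_of_ne_zero (NeZero.ne n)
  rw [Matrix.twoBlockTriangular_det (p2_g n k κ) (fun i => i.val < k)]
  · have h2 : (Matrix.toSquareBlockProp (p2_g n k κ) fun i => ¬(i.val < k)) = 1 := by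
      ext i j
      rw [Matrix.toSquareBlockProp_def, Matrix.of_apply, Matrix.one_apply]
      unfold p2_g
      rw [if_neg i.2]
      simp only [Subtype.ext_iff]
    rw [h2, Matrix.det_one, mul_one]
    have h3 : eval κ (DD n (2 * n - k) k) =
        (Matrix.of fun p q : Fin k => κ (ix n p, ix n (2 * n - k + q))).det := by
      unfold DD
      rw [RingHom.map_det]
      congr 1
      ext p q
      simp
    rw [h3, ← Matrix.det_transpose (Matrix.of fun p q : Fin k => κ (ix n p, ix n (2 * n - k + q))),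
      ← Matrix.det_reindex_self (Fin.castLEquiv (show k ≤ 2 * n by omega))]
    congr 1
    ext i j
    obtain ⟨i, hi⟩ := i
    obtain ⟨j, hj⟩ := j
    simp only [Matrix.toSquareBlockProp_def, Matrix.of_apply, Matrix.reindex_apply,
      Matrix.submatrix_apply, Matrix.transpose_apply]
    unfold p2_g
    rw [if_pos hi, if_pos (by omega)]
    congr 2
    apply Fin.ext
    rw [p2_ix]
    · rfl
    · exact j.2
  · intro i hi j hj
    unfold p2_g
    rw [if_neg hi, if_neg]
    rintro rfl
    exact hi hj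

theorem p2_t2 (n k : ℕ) [NeZero n] (hk : k ≤ n) (κ : Fin (2 * n) × Fin (2 * n) → ℂ)
    (c d : Fin (2 * n)) :
    (∑ a, ∑ b, p2_g n k κ a c * (if a.val < k ∧ b.val = 2 * n - k + a.val then 1 else 0) *
      p2_g n k κ b d) = if 2 * n - k ≤ d.val then
        (if c.val < 2 * n - k then κ (c, d) else κ (c, d) / 2) else 0 := by
  have hn : 0 < n := Nat.pos_of_ne_zero (NeZero.ne n)
  rw [Finset.sum_comm, Finset.sum_eq_single d]
  · split_ifs with hd hc
    · rw [Finset.sum_eq_single (ix n (d.val - (2 * n - k)))]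
      · have h1 : (ix n (d.val - (2 * n - k))).val = d.val - (2 * n - k) :=
          p2_ix n _ (by omega)
        rw [if_pos (by rw [h1]; omega)]
        unfold p2_g
        rw [if_pos (by rw [h1]; omega), if_pos hc, if_neg (by omega), if_pos rfl, mul_one, mul_one]
        congr 2
        apply Fin.ext
        rw [p2_ix, h1]
        · omega
        · rw [h1]; omega
      · intro b _ hb
        rw [if_neg, mul_zero, zero_mul]
        rintro ⟨h1, h2⟩
        apply hb
        apply Fin.ext
        rw [p2_ix]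
        · omega
        · omega
      · simp
    · rw [Finset.sum_eq_single (ix n (d.val - (2 * n - k)))]
      · have h1 : (ix n (d.val - (2 * n - k))).val = d.val - (2 * n - k) :=
          p2_ix n _ (by omega)
        rw [if_pos (by rw [h1]; omega)]
        unfold p2_g
        rw [if_pos (by rw [h1]; omega), if_neg hc, if_neg (by omega), if_pos rfl, mul_one, mul_one]
        congr 3
        apply Fin.ext
        rw [p2_ix, h1]
        · omega
        · rw [h1]; omega
      · intro b _ hb
        rw [if_neg, mul_zero, zero_mul]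
        rintro ⟨h1, h2⟩
        apply hb
        apply Fin.ext
        rw [p2_ix]
        · omega
        · omega
      · simp
    · refine Finset.sum_eq_zero fun a _ => ?_
      rw [if_neg, mul_zero, zero_mul]
      rintro ⟨h1, h2⟩
      omega
  · intro b _ hb
    refine Finset.sum_eq_zero fun a _ => ?_
    by_cases h : a.val < k ∧ b.val = 2 * n - k + a.val
    · have : p2_g n k κ b d = 0 := by
        unfold p2_g
        rw [if_neg (by omega), if_neg hb]
      rw [this, mul_zero]
    · rw [if_neg h, mul_zero, zero_mul]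
  · simp

theorem p2_t1 (n k : ℕ) [NeZero n] (κ : Fin (2 * n) × Fin (2 * n) → ℂ)
    (c d : Fin (2 * n)) :
    (∑ a, ∑ b, p2_g n k κ a c * (if k ≤ a.val ∧ k ≤ b.val ∧ a.val < 2 * n - k ∧
      b.val < 2 * n - k then κ (a, b) else 0) * p2_g n k κ b d) =
      if k ≤ c.val ∧ k ≤ d.val ∧ c.val < 2 * n - k ∧ d.val < 2 * n - k then κ (c, d) else 0 := by
  rw [Finset.sum_eq_single c]
  · rw [Finset.sum_eq_single d]
    · split_ifs with h
      · unfold p2_g
        rw [if_neg (by omega), if_pos rfl, if_neg (by omega), if_pos rfl, mul_one, one_mul]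
      · rw [mul_zero, zero_mul]
    · intro b _ hb
      by_cases h : k ≤ c.val ∧ k ≤ b.val ∧ c.val < 2 * n - k ∧ b.val < 2 * n - k
      · have : p2_g n k κ b d = 0 := by
          unfold p2_g
          rw [if_neg (by omega), if_neg hb]
        rw [this, mul_zero]
      · rw [if_neg h, mul_zero, zero_mul]
    · simp
  · intro a _ ha
    refine Finset.sum_eq_zero fun b _ => ?_
    by_cases h : k ≤ a.val ∧ k ≤ b.val ∧ a.val < 2 * n - k ∧ b.val < 2 * n - k
    · have : p2_g n k κ a c = 0 := by
        unfold p2_g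
        rw [if_neg (by omega), if_neg ha]
      rw [this, zero_mul, zero_mul]
    · rw [if_neg h, mul_zero, zero_mul]
  · simp

theorem p2_conj (n k : ℕ) [NeZero n] (hk : k ≤ n) (κ : Fin (2 * n) × Fin (2 * n) → ℂ)
    (hskew : ∀ p q, κ (p, q) = -κ (q, p))
    (hzero : ∀ p q : Fin (2 * n), p.val < k → q.val < 2 * n - k → κ (p, q) = 0)
    (c d : Fin (2 * n)) :
    (∑ a, ∑ b, p2_g n k κ a c * stdK n k κ (a, b) * p2_g n k κ b d) = κ (c, d) := by
  have hn : 0 < n := Nat.pos_of_ne_zero (NeZero.ne n)
  have hstd : ∀ a b : Fin (2 * n), stdK n k κ (a, b) =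
      (if k ≤ a.val ∧ k ≤ b.val ∧ a.val < 2 * n - k ∧ b.val < 2 * n - k then κ (a, b) else 0) +
      (if a.val < k ∧ b.val = 2 * n - k + a.val then 1 else 0) -
      (if b.val < k ∧ a.val = 2 * n - k + b.val then 1 else 0) := by
    intro a b
    unfold stdK
    dsimp only
    split_ifs <;> first | omega | simp
  have h3 : (∑ a, ∑ b, p2_g n k κ a c * (if b.val < k ∧ a.val = 2 * n - k + b.val then 1 else 0) *
      p2_g n k κ b d) = if 2 * n - k ≤ c.val then
        (if d.val < 2 * n - k then κ (d, c) else κ (d, c) / 2) else 0 := by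
    rw [← p2_t2 n k hk κ d c, Finset.sum_comm]
    refine Finset.sum_congr rfl fun a _ => Finset.sum_congr rfl fun b _ => ?_
    ring
  have h4 : (∑ a, ∑ b, p2_g n k κ a c * stdK n k κ (a, b) * p2_g n k κ b d) =
      (∑ a, ∑ b, p2_g n k κ a c * (if k ≤ a.val ∧ k ≤ b.val ∧ a.val < 2 * n - k ∧
      b.val < 2 * n - k then κ (a, b) else 0) * p2_g n k κ b d) +
      (∑ a, ∑ b, p2_g n k κ a c * (if a.val < k ∧ b.val = 2 * n - k + a.val then 1 else 0) *
      p2_g n k κ b d) -
      (∑ a, ∑ b, p2_g n k κ a c * (if b.val < k ∧ a.val = 2 * n - k + b.val then 1 else 0) *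
      p2_g n k κ b d) := by
    simp_rw [hstd, ← Finset.sum_add_distrib, ← Finset.sum_sub_distrib]
    refine Finset.sum_congr rfl fun a _ => Finset.sum_congr rfl fun b _ => ?_
    ring
  rw [h4, h3, p2_t1, p2_t2 n k hk]
  by_cases hcX : 2 * n - k ≤ c.val <;> by_cases hdX : 2 * n - k ≤ d.val
  · rw [if_neg (by omega), if_pos hdX, if_neg (by omega), if_pos hcX, if_neg (by omega), hskew d c]
    ring
  · rw [if_neg (by omega), if_neg hdX, if_pos hcX, if_pos (by omega), hskew d c]
    ring
  · rw [if_neg (by omega), if_pos hdX, if_pos (by omega), if_neg hcX]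
    ring
  · rw [if_neg hdX, if_neg hcX]
    split_ifs with h
    · ring
    · by_cases hck : c.val < k
      · rw [hzero c d hck (by omega)]
        ring
      · rw [hskew c d, hzero d c (by omega) (by omega)]
        ring

theorem p2_factor (n k : ℕ) [NeZero n] (hk : k ≤ n) (κ : Fin (2 * n) × Fin (2 * n) → ℂ)
    (hskew : ∀ p q, κ (p, q) = -κ (q, p))
    (hzero : ∀ p q : Fin (2 * n), p.val < k → q.val < 2 * n - k → κ (p, q) = 0) :
    eval κ (hPf n) = eval κ (DD n (2 * n - k) k) * eval (stdK n k κ) (hPf n) := by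
  have h1 := p1_equivariant n (p2_g n k κ) (stdK n k κ)
  have h2 : (fun c : Fin (2 * n) × Fin (2 * n) => ∑ a, ∑ b, p2_g n k κ a c.1 *
      stdK n k κ (a, b) * p2_g n k κ b c.2) = κ := by
    funext c
    exact p2_conj n k hk κ hskew hzero c.1 c.2
  rw [h2, p2_det n k hk] at h1
  exact h1

end H2K
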