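import Pool.Agent.Lib.H2K.G5
import Pool.Agent.Lib.H2K.K1
import Pool.Agent.Lib.H2K.K2

/-!
# H2K chunk S1 (M): linear algebra of one step

`H = (Fin i × Fin i) ⊕ Fin i` (the coordinates `T`, `b`), `e : H → ι` injective, `β` Hermitian with positive
definite block `β_HH = S Sᴴ` (`S` invertible).  `M = β_(ι,H) (Sᴴ)⁻¹` (so `M_H = S`), `γ = β - M Mᴴ`.
`s1_data`: `γ` is Hermitian, its rows in `H` vanish, `M` restricted to the rows `H` is `S`.
`Q` = the coordinate projection which kills `H`: `γ Qᴴ = γ`.
(`M Mᴴ = β_(ι,H) (S Sᴴ)⁻¹ β_(H,ι)`.)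
`rel`: every linear relation between the rows of `β` (`∑_c η_c β_cd = 0` for all `d`) holds for the rows of `M` and
`γ`.
-/

open MeasureTheory MvPolynomial
open scoped ComplexOrder

namespace H2K

open scoped MatrixOrder in
theorem s1_fac {H : Type} [Fintype H] [DecidableEq H] (B : Matrix H H ℂ) (hB : B.PosSemidef) :
    ∃ S0 : Matrix H H ℂ, B = S0.conjTranspose * S0 := by
  obtain ⟨S0, h⟩ := CStarAlgebra.nonneg_iff_eq_star_mul_self.mp hB.nonneg
  exact ⟨S0, by rw [h, Matrix.star_eq_conjTranspose]⟩

theorem s1_data {ι H : Type} [Fintype ι] [DecidableEq ι] [Fintype H] [DecidableEq H] (e : H → ι)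
    (he : Function.Injective e) (β : Matrix ι ι ℂ) (hβ : β.IsHermitian)
    (hpos : (β.submatrix e e).PosDef) :
    ∃ (S : Matrix H H ℂ) (M : Matrix ι H ℂ) (γ Q : Matrix ι ι ℂ),
      IsUnit S.det ∧ M.submatrix e id = S ∧ β = M * M.conjTranspose + γ ∧ γ.IsHermitian ∧
      (∀ h c, γ (e h) c = 0) ∧ γ * Q.conjTranspose = γ ∧ (∀ h c, Q (e h) c = 0) ∧
      (∀ η : ι → ℂ, (∀ d, ∑ c, η c * β c d = 0) →
        (∀ h, ∑ c, η c * M c h = 0) ∧ (∀ d, ∑ c, η c * γ c d = 0)) := by
  classical
  obtain ⟨S0, hS0⟩ : ∃ S0 : Matrix H H ℂ, β.submatrix e e = S0.conjTranspose * S0 :=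
    s1_fac _ hpos.posSemidef
  set S : Matrix H H ℂ := S0.conjTranspose with hSdef
  have hSS : β.submatrix e e = S * S.conjTranspose := by
    rw [hS0, hSdef, Matrix.conjTranspose_conjTranspose]
  have hdetB : (β.submatrix e e).det ≠ 0 := ne_of_gt hpos.det_pos
  have hSdet : IsUnit S.det := by
    rw [isUnit_iff_ne_zero]
    intro h0
    apply hdetB
    rw [hSS, Matrix.det_mul, h0, zero_mul]
  have hSTdet : IsUnit S.conjTranspose.det := by
    rw [Matrix.det_conjTranspose]
    exact hSdet.star
  set N : Matrix ι H ℂ := β.submatrix id e with hN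
  set M : Matrix ι H ℂ := N * (S.conjTranspose)⁻¹ with hMdef
  have hMH : M.submatrix e id = S := by
    have h1 : M.submatrix e id = (β.submatrix e e) * (S.conjTranspose)⁻¹ := by
      ext a b
      simp [hMdef, hN, Matrix.mul_apply]
    rw [h1, hSS, Matrix.mul_assoc, Matrix.mul_nonsing_inv _ hSTdet, Matrix.mul_one]
  have hMMe : ∀ h c, (M * M.conjTranspose) (e h) c = β (e h) c := by
    intro h c
    have h1 : (M * M.conjTranspose).submatrix e id = N.conjTranspose := by
      have h2 : (M * M.conjTranspose).submatrix e id = (M.submatrix e id) * M.conjTranspose := by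
        ext a b
        simp [Matrix.mul_apply]
      rw [h2, hMH, hMdef, Matrix.conjTranspose_mul, Matrix.conjTranspose_nonsing_inv,
        Matrix.conjTranspose_conjTranspose, ← Matrix.mul_assoc, Matrix.mul_nonsing_inv _ hSdet,
        Matrix.one_mul]
    have h3 := congrFun (congrFun h1 h) c
    simp only [Matrix.submatrix_apply, id] at h3
    rw [h3, hN, Matrix.conjTranspose_apply, Matrix.submatrix_apply, id]
    exact hβ.apply _ _
  refine ⟨S, M, β - M * M.conjTranspose, Matrix.diagonal fun c => if c ∈ Set.range e then 0 else 1,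
    hSdet, hMH, by abel, ?_, ?_, ?_, ?_, ?_⟩
  · exact hβ.sub (Matrix.isHermitian_mul_conjTranspose_self M)
  · intro h c
    rw [Matrix.sub_apply, hMMe, sub_self]
  · have hherm : (β - M * M.conjTranspose).IsHermitian :=
      hβ.sub (Matrix.isHermitian_mul_conjTranspose_self M)
    ext a c
    rw [Matrix.diagonal_conjTranspose, Matrix.mul_diagonal]
    by_cases hc : c ∈ Set.range e
    · obtain ⟨h, rfl⟩ := hc
      have : (β - M * M.conjTranspose) a (e h) = 0 := by
        rw [← hherm.apply]
        rw [Matrix.sub_apply, hMMe, sub_self, star_zero]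
      rw [this, zero_mul]
    · have h1 : (star (fun c => if c ∈ Set.range e then (0 : ℂ) else 1) : ι → ℂ) c = 1 := by
        rw [Pi.star_apply, if_neg hc, star_one]
      exact (congrArg _ h1).trans (mul_one _)
  · intro h c
    rw [Matrix.diagonal_apply]
    split_ifs with h1 h2
    · rfl
    · exact absurd ⟨h, rfl⟩ h2
    · rfl
  · intro η hη
    have hM0 : ∀ h, ∑ c, η c * M c h = 0 := by
      intro h
      have : ∀ c, η c * M c h = ∑ x, (η c * β c (e x)) * (S.conjTranspose)⁻¹ x h := by
        intro c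
        rw [hMdef, Matrix.mul_apply, Finset.mul_sum]
        refine Finset.sum_congr rfl fun x _ => ?_
        rw [hN, Matrix.submatrix_apply, id]
        ring
      simp_rw [this]
      rw [Finset.sum_comm]
      refine Finset.sum_eq_zero fun x _ => ?_
      rw [← Finset.sum_mul, hη, zero_mul]
    refine ⟨hM0, ?_⟩
    intro d
    have : ∀ c, η c * (β - M * M.conjTranspose) c d
        = η c * β c d - ∑ x, (η c * M c x) * M.conjTranspose x d := by
      intro c
      rw [Matrix.sub_apply, mul_sub, Matrix.mul_apply, Finset.mul_sum]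
      congr 1
      refine Finset.sum_congr rfl fun x _ => ?_
      ring
    simp_rw [this]
    rw [Finset.sum_sub_distrib, hη, zero_sub, neg_eq_zero, Finset.sum_comm]
    refine Finset.sum_eq_zero fun x _ => ?_
    rw [← Finset.sum_mul, hM0, zero_mul]

end H2K
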