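import Pool.Agent.Lib.H2K.S1

/-!
# H2K chunk S2 (M): the conditioned covariance

Notation of S1.  `J a : ℂ^(i×i) → ℂ^H`, `T ↦ (T, T a)`; `B = S⁻¹ J_a` is injective, `B = U K` (`k2_polar`),
`β' = (M U)(M U)ᴴ + γ`.
1. `(M U)_H = S U = J_a K⁻¹`.  Hence `β' (b_p) c = ∑_q a_q β' (T_pq) c` (rows of `γ` in `H` vanish).
2. For `ξ`: `qf β' ξ = |ξᵀ M U|² + qf γ ξ`.  Put `σ_Hᵀ = - ξᵀ M (1 - U Uᴴ) S⁻¹`, `σ = 0` outside `H`.  Then
   `(ξ + σ)ᵀ M = ξᵀ M U Uᴴ`, `|ξᵀ M U Uᴴ|² = |ξᵀ M U|²`, `γ` does not see `σ`; so `qf β' ξ = qf β (ξ + σ)`.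
   Moreover `σ_Hᵀ J_a = - ξᵀ M (1 - U Uᴴ) U K = 0`, i.e. `σ_(T_pq) = - σ_(b_p) a_q`.
3. Relations between rows of `β` are relations between rows of `M` and `γ`, hence of `β'`.
-/

open MeasureTheory MvPolynomial
open scoped ComplexOrder

namespace H2K

/-- the linear map `T ↦ (T, T a)` as a matrix -/
noncomputable def Ja {i : ℕ} (a : Fin i → ℂ) : Matrix ((Fin i × Fin i) ⊕ Fin i) (Fin i × Fin i) ℂ :=
  fun h t => match h with
    | Sum.inl u => if u = t then 1 else 0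
    | Sum.inr p => if t.1 = p then a t.2 else 0

theorem s2_qf {ι : Type} [Fintype ι] (β : Matrix ι ι ℂ) (ξ : ι → ℂ) :
    qf β ξ = dotProduct (Matrix.vecMul ξ β) (star ξ) := by
  unfold qf dotProduct Matrix.vecMul dotProduct
  rw [Finset.sum_comm]
  refine Finset.sum_congr rfl fun b _ => ?_
  rw [Finset.sum_mul]
  refine Finset.sum_congr rfl fun a _ => ?_
  rw [Pi.star_apply]
  change ξ a * star (ξ b) * β a b = _
  ring

theorem s2_qf_sq {ι r : Type} [Fintype ι] [Fintype r] (N : Matrix ι r ℂ) (ξ : ι → ℂ) :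
    qf (N * N.conjTranspose) ξ = dotProduct (Matrix.vecMul ξ N) (star (Matrix.vecMul ξ N)) := by
  rw [s2_qf, ← Matrix.vecMul_vecMul, Matrix.star_vecMul, ← Matrix.dotProduct_mulVec]

theorem s2_qf_add {ι : Type} [Fintype ι] (β γ : Matrix ι ι ℂ) (ξ : ι → ℂ) :
    qf (β + γ) ξ = qf β ξ + qf γ ξ := by
  rw [s2_qf, s2_qf, s2_qf, Matrix.vecMul_add, add_dotProduct]

/-- rows of `γ` in `e` vanish, `γ` Hermitian: `qf γ` does not see `σ` -/
theorem s2_qf_gamma {ι H : Type} [Fintype ι] [Fintype H] (e : H → ι)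
    (γ : Matrix ι ι ℂ) (hγ : γ.IsHermitian) (hγ0 : ∀ h c, γ (e h) c = 0) (ξ σ : ι → ℂ)
    (hσ : ∀ c, c ∉ Set.range e → σ c = 0) : qf γ (ξ + σ) = qf γ ξ := by
  have h1 : Matrix.vecMul σ γ = 0 := by
    funext d
    rw [Matrix.vecMul, dotProduct, Pi.zero_apply]
    refine Finset.sum_eq_zero fun c _ => ?_
    by_cases hc : c ∈ Set.range e
    · obtain ⟨h, rfl⟩ := hc
      rw [hγ0, mul_zero]
    · rw [hσ c hc, zero_mul]
  have h2 : dotProduct (Matrix.vecMul ξ γ) (star σ) = 0 := by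
    rw [← Matrix.dotProduct_mulVec]
    have : Matrix.mulVec γ (star σ) = 0 := by
      rw [← hγ.eq, ← Matrix.star_vecMul, h1, star_zero]
    rw [this, dotProduct_zero]
  rw [s2_qf, s2_qf, Matrix.add_vecMul, h1, add_zero, star_add, dotProduct_add, h2, add_zero]

theorem s2_cond {ι : Type} [Fintype ι] [DecidableEq ι] {i : ℕ}
    (e : (Fin i × Fin i) ⊕ Fin i → ι) (he : Function.Injective e) (β : Matrix ι ι ℂ)
    (S : Matrix ((Fin i × Fin i) ⊕ Fin i) ((Fin i × Fin i) ⊕ Fin i) ℂ)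
    (M : Matrix ι ((Fin i × Fin i) ⊕ Fin i) ℂ) (γ : Matrix ι ι ℂ)
    (hS : IsUnit S.det) (hM : M.submatrix e id = S) (hβ : β = M * M.conjTranspose + γ)
    (hγ : γ.IsHermitian) (hγ0 : ∀ h c, γ (e h) c = 0)
    (hrel : ∀ η : ι → ℂ, (∀ d, ∑ c, η c * β c d = 0) →
        (∀ h, ∑ c, η c * M c h = 0) ∧ (∀ d, ∑ c, η c * γ c d = 0))
    (a : Fin i → ℂ) (U : Matrix ((Fin i × Fin i) ⊕ Fin i) (Fin i × Fin i) ℂ)
    (K : Matrix (Fin i × Fin i) (Fin i × Fin i) ℂ) (hK : IsUnit K.det)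
    (hU : U.conjTranspose * U = 1) (hB : S⁻¹ * Ja a = U * K)
    (β' : Matrix ι ι ℂ) (hβ' : β' = (M * U) * (M * U).conjTranspose + γ) :
    β'.IsHermitian ∧
    (∀ ξ : ι → ℂ, ∃ s : Fin i → ℂ, qf β' ξ = qf β (ξ + ∑ p, s p •
      (Pi.single (e (Sum.inr p)) (1 : ℂ) -
        ∑ q, a q • Pi.single (e (Sum.inl (p, q))) (1 : ℂ)))) ∧
    (∀ p c, β' (e (Sum.inr p)) c = ∑ q, a q * β' (e (Sum.inl (p, q))) c) ∧
    (∀ η : ι → ℂ, (∀ d, ∑ c, η c * β c d = 0) → ∀ d, ∑ c, η c * β' c d = 0) := by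
  classical
  have hJ : Ja a = S * U * K := by
    rw [Matrix.mul_assoc, ← hB, ← Matrix.mul_assoc, Matrix.mul_nonsing_inv _ hS, Matrix.one_mul]
  have hJK : S * U = Ja a * K⁻¹ := by
    rw [hJ, Matrix.mul_assoc (S * U), Matrix.mul_nonsing_inv _ hK, Matrix.mul_one]
  have hMU : ∀ h t, (M * U) (e h) t = (Ja a * K⁻¹) h t := by
    intro h t
    rw [← hJK, ← hM, Matrix.mul_apply, Matrix.mul_apply]
    rfl
  refine ⟨?_, ?_, ?_, ?_⟩
  · rw [hβ']
    exact (Matrix.isHermitian_mul_conjTranspose_self (M * U)).add hγ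
  · intro ξ
    set y : (Fin i × Fin i) ⊕ Fin i → ℂ := Matrix.vecMul ξ M with hy
    set σH : (Fin i × Fin i) ⊕ Fin i → ℂ :=
      Matrix.vecMul y (-((1 - U * U.conjTranspose) * S⁻¹)) with hσH
    have hσJ : Matrix.vecMul σH (Ja a) = 0 := by
      rw [hσH, Matrix.vecMul_vecMul, Matrix.neg_mul, Matrix.mul_assoc, hB, Matrix.sub_mul,
        Matrix.one_mul, ← Matrix.mul_assoc, Matrix.mul_assoc U, hU, Matrix.mul_one, sub_self,
        neg_zero, Matrix.vecMul_zero]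
    have hσT : ∀ p q, σH (Sum.inl (p, q)) = -(σH (Sum.inr p) * a q) := by
      intro p q
      have h1 := congrFun hσJ (p, q)
      rw [Matrix.vecMul, dotProduct, Fintype.sum_sum_type, Pi.zero_apply] at h1
      simp only [Ja, mul_ite, mul_one, mul_zero, Finset.sum_ite_eq', Finset.mem_univ,
        if_true, Finset.sum_ite_eq] at h1
      linear_combination h1
    refine ⟨fun p => σH (Sum.inr p), ?_⟩
    set σ : ι → ℂ := ∑ p, σH (Sum.inr p) • (Pi.single (e (Sum.inr p)) (1 : ℂ) -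
        ∑ q, a q • Pi.single (e (Sum.inl (p, q))) (1 : ℂ)) with hσ
    have hσ' : σ = ∑ h, σH h • Pi.single (e h) (1 : ℂ) := by
      rw [hσ, Fintype.sum_sum_type, Fintype.sum_prod_type]
      simp_rw [smul_sub, hσT, Finset.sum_sub_distrib, Finset.smul_sum, neg_smul,
        Finset.sum_neg_distrib, smul_smul]
      abel
    have hσM : Matrix.vecMul σ M = Matrix.vecMul σH S := by
      rw [hσ', Matrix.sum_vecMul]
      funext h
      rw [Finset.sum_apply, ← hM, Matrix.vecMul, dotProduct]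
      refine Finset.sum_congr rfl fun x _ => ?_
      rw [Matrix.smul_vecMul, Pi.smul_apply, Matrix.single_one_vecMul]
      rfl
    have hσsupp : ∀ c, c ∉ Set.range e → σ c = 0 := by
      intro c hc
      rw [hσ', Finset.sum_apply]
      refine Finset.sum_eq_zero fun x _ => ?_
      rw [Pi.smul_apply, Pi.single_eq_of_ne, smul_zero]
      intro h
      exact hc ⟨x, h.symm⟩
    have hσS : Matrix.vecMul σH S = -y + Matrix.vecMul y (U * U.conjTranspose) := by
      rw [hσH, Matrix.vecMul_vecMul, Matrix.neg_mul, Matrix.mul_assoc,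
        Matrix.nonsing_inv_mul _ hS, Matrix.mul_one, neg_sub, Matrix.vecMul_sub, Matrix.vecMul_one]
      abel
    have h1 : Matrix.vecMul (ξ + σ) M = Matrix.vecMul y (U * U.conjTranspose) := by
      rw [Matrix.add_vecMul, hσM, hσS, ← hy]
      abel
    rw [hβ', hβ, s2_qf_add, s2_qf_add, s2_qf_gamma e γ hγ hγ0 ξ σ hσsupp, s2_qf_sq, s2_qf_sq, h1,
      ← Matrix.vecMul_vecMul, ← hy]
    congr 1
    rw [← Matrix.vecMul_vecMul]
    generalize Matrix.vecMul y U = z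
    rw [Matrix.star_vecMul U.conjTranspose z, Matrix.conjTranspose_conjTranspose,
      Matrix.dotProduct_mulVec, Matrix.vecMul_vecMul, hU, Matrix.vecMul_one]
  · intro p c
    have h0 : ∀ h, β' (e h) c = ∑ t, (Ja a * K⁻¹) h t * (M * U).conjTranspose t c := by
      intro h
      have h1 : β' (e h) c = ((M * U) * (M * U).conjTranspose) (e h) c + γ (e h) c := by
        rw [hβ', Matrix.add_apply]
      rw [h1, hγ0, add_zero, Matrix.mul_apply]
      exact Finset.sum_congr rfl fun t _ => by rw [hMU]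
    have h2 : ∀ q t, (Ja a * K⁻¹) (Sum.inl (p, q)) t = K⁻¹ (p, q) t := by
      intro q t
      rw [Matrix.mul_apply]
      simp [Ja]
    have h3 : ∀ t, (Ja a * K⁻¹) (Sum.inr p) t = ∑ q, a q * K⁻¹ (p, q) t := by
      intro t
      rw [Matrix.mul_apply, Fintype.sum_prod_type, Finset.sum_eq_single p]
      · simp [Ja]
      · intro b _ hb
        simp [Ja, hb]
      · simp
    simp_rw [h0, h2, h3, Finset.mul_sum, Finset.sum_mul]
    rw [Finset.sum_comm]
    refine Finset.sum_congr rfl fun q _ => Finset.sum_congr rfl fun t _ => ?_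
    ring
  · intro η hη d
    obtain ⟨h1, h2⟩ := hrel η hη
    have h3 : Matrix.vecMul η M = 0 := by
      funext h
      exact h1 h
    have h4 : Matrix.vecMul η γ = 0 := by
      funext h
      exact h2 h
    have h5 : Matrix.vecMul η β' = 0 := by
      rw [hβ', Matrix.vecMul_add, h4, ← Matrix.vecMul_vecMul, ← Matrix.vecMul_vecMul, h3,
        Matrix.zero_vecMul, Matrix.zero_vecMul, add_zero]
    exact congrFun h5 d

end H2K
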