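import Pool.Agent.Lib.H2K.S2

/-!
# H2K chunk S3 (M): the inner integral is a formal Gaussian expectation

Notation of S1, S2.  For fixed `a` the integral over `T` of `φ(M S⁻¹ J_a T) |det T|² exp(-|S⁻¹ J_a T|²)` is, with
`S⁻¹ J_a = U K`, `∫_T φ(M U K T) |det T|² exp(-|K T|²)` (`|U x| = |x|`), which is (`k2_gauss`) a positive multiple
of `∫ φ(M U t) |det(K⁻¹ t)|² dμ(t)`.  Now `φ(v) = ∫ G(v + γ g') conj(G(v + Q g'))`, and the polynomial
`D = det (X (e (inl (p, q))))` has the value `det (K⁻¹ t)` at `v + γ g'` and at `v + Q g'` (`v = M U t`), because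
`(M U t)_H = S U t = J_a K⁻¹ t` and the rows of `γ`, `Q` in `H` vanish.  So the integrand is
`phi γ Q (D * G) (M U t)` and the integral is `W β' (D * G) (D * G)` (`g5_split` for `M U`).
-/

open MeasureTheory MvPolynomial
open scoped ComplexOrder

namespace H2K

/-- the determinant of the `T` coordinates -/
noncomputable def detT {ι : Type} {i : ℕ} (e : (Fin i × Fin i) ⊕ Fin i → ι) : MvPolynomial ι ℂ :=
  Matrix.det (Matrix.of fun p q : Fin i => (X (e (Sum.inl (p, q))) : MvPolynomial ι ℂ))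

/-- a linear isomorphism preserves Haar integrals up to a positive constant -/
theorem s3_haar {E F : Type} [NormedAddCommGroup E] [NormedSpace ℝ E] [FiniteDimensional ℝ E]
    [MeasurableSpace E] [BorelSpace E] [NormedAddCommGroup F] [NormedSpace ℝ F] [FiniteDimensional ℝ F]
    [MeasurableSpace F] [BorelSpace F] (μ : Measure E) [μ.IsAddHaarMeasure] (ν : Measure F) [ν.IsAddHaarMeasure]
    (L : E ≃L[ℝ] F) : ∃ c : ℝ, 0 < c ∧ ∀ f : F → ℂ, ∫ x, f (L x) ∂μ = (c : ℂ) * ∫ y, f y ∂ν := by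
  have h1 : (μ.map L).IsAddHaarMeasure := inferInstance
  have h2 := Measure.isAddLeftInvariant_eq_smul (μ.map L) ν
  set c := Measure.addHaarScalarFactor (μ.map L) ν with hc
  have hc0 : 0 < c := Measure.addHaarScalarFactor_pos_of_isAddHaarMeasure _ _
  refine ⟨c, by exact_mod_cast hc0, fun f => ?_⟩
  have h3 : ∫ x, f (L x) ∂μ = ∫ y, f y ∂(μ.map L) :=
    (L.toHomeomorph.toMeasurableEquiv.measurableEmbedding.integral_map f).symm
  rw [h3, h2, integral_smul_nnreal_measure]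
  simp [NNReal.smul_def]

theorem s3_haarT (i : ℕ) : (volume : Measure (Fin i → Fin i → ℂ)).IsAddHaarMeasure := by
  rw [volume_pi]
  have : ∀ _j : Fin i, (volume : Measure (Fin i → ℂ)).IsAddHaarMeasure := fun _ => inferInstance
  exact Measure.pi.isAddHaarMeasure _

/-- the currying isomorphism -/
noncomputable def s3_L (i : ℕ) : (Fin i → Fin i → ℂ) ≃L[ℝ] (Fin i × Fin i → ℂ) :=
  LinearEquiv.toContinuousLinearEquiv (LinearEquiv.curry ℝ ℂ (Fin i) (Fin i)).symm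

theorem s3_L_apply (i : ℕ) (T : Fin i → Fin i → ℂ) (u : Fin i × Fin i) : s3_L i T u = T u.1 u.2 := rfl

theorem s3_Ja {i : ℕ} (a : Fin i → ℂ) (T : Fin i → Fin i → ℂ) :
    (Sum.elim (fun u : Fin i × Fin i => T u.1 u.2) ((Matrix.of T).mulVec a) : (Fin i × Fin i) ⊕ Fin i → ℂ) =
      (Ja a).mulVec (s3_L i T) := by
  funext h
  rcases h with u | p
  · simp only [Sum.elim_inl, Matrix.mulVec, dotProduct, Ja, s3_L_apply, ite_mul, one_mul, zero_mul,
      Finset.sum_ite_eq, Finset.mem_univ, if_true]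
  · simp only [Sum.elim_inr, Matrix.mulVec, dotProduct, Ja, s3_L_apply, ite_mul, zero_mul, Matrix.of_apply]
    symm
    rw [Fintype.sum_prod_type, Finset.sum_eq_single p]
    · simp only [if_true]
      exact Finset.sum_congr rfl fun q _ => mul_comm _ _
    · intro b _ hb
      simp [hb]
    · intro h
      exact absurd (Finset.mem_univ _) h

theorem s3_norm {h q : Type} [Fintype h] [Fintype q] [DecidableEq q] (U : Matrix h q ℂ)
    (hU : U.conjTranspose * U = 1) (x : q → ℂ) : ∑ j, ‖U.mulVec x j‖ ^ 2 = ∑ s, ‖x s‖ ^ 2 := by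
  have key : ∀ (r : Type) [Fintype r] (y : r → ℂ), ((∑ j, ‖y j‖ ^ 2 : ℝ) : ℂ) = star y ⬝ᵥ y := by
    intro r _ y
    push_cast
    simp only [dotProduct, Pi.star_apply]
    refine Finset.sum_congr rfl fun j _ => ?_
    rw [Complex.star_def, ← Complex.normSq_eq_conj_mul_self, Complex.normSq_eq_norm_sq]
    push_cast
    rfl
  have h1 : ((∑ j, ‖U.mulVec x j‖ ^ 2 : ℝ) : ℂ) = ((∑ s, ‖x s‖ ^ 2 : ℝ) : ℂ) := by
    rw [key, key, Matrix.star_mulVec, Matrix.dotProduct_mulVec, Matrix.vecMul_vecMul, hU, Matrix.vecMul_one]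
  exact_mod_cast h1

theorem s3_phi {ι : Type} [Fintype ι] [DecidableEq ι] {i : ℕ}
    (e : (Fin i × Fin i) ⊕ Fin i → ι) (γ Q : Matrix ι ι ℂ)
    (hγ0 : ∀ h c, γ (e h) c = 0) (hQ0 : ∀ h c, Q (e h) c = 0) (G : MvPolynomial ι ℂ) (v : ι → ℂ) :
    phi γ Q (detT e * G) v =
      phi γ Q G v * ((‖(Matrix.of fun p q : Fin i => v (e (Sum.inl (p, q)))).det‖ ^ 2 : ℝ) : ℂ) := by
  have hD : ∀ w : ι → ℂ, eval w (detT e) = (Matrix.of fun p q : Fin i => w (e (Sum.inl (p, q)))).det := by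
    intro w
    unfold detT
    rw [RingHom.map_det]
    congr 1
    ext p q
    simp
  have hγ : ∀ g' h, (v + γ.mulVec g') (e h) = v (e h) := by
    intro g' h
    simp [Matrix.mulVec, dotProduct, hγ0]
  have hQ : ∀ g' h, (v + Q.mulVec g') (e h) = v (e h) := by
    intro g' h
    simp [Matrix.mulVec, dotProduct, hQ0]
  unfold phi
  rw [← integral_mul_const]
  refine integral_congr_ae (Filter.Eventually.of_forall fun g' => ?_)
  simp only [map_mul, hD, hγ, hQ]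
  rw [← Complex.normSq_eq_norm_sq, Complex.normSq_eq_conj_mul_self]
  ring

theorem s3_inner {ι : Type} [Fintype ι] [DecidableEq ι] {i : ℕ}
    (e : (Fin i × Fin i) ⊕ Fin i → ι)
    (S : Matrix ((Fin i × Fin i) ⊕ Fin i) ((Fin i × Fin i) ⊕ Fin i) ℂ)
    (M : Matrix ι ((Fin i × Fin i) ⊕ Fin i) ℂ) (γ Q : Matrix ι ι ℂ)
    (hS : IsUnit S.det) (hM : M.submatrix e id = S)
    (hγ0 : ∀ h c, γ (e h) c = 0) (hQ0 : ∀ h c, Q (e h) c = 0) (hQ : γ * Q.conjTranspose = γ)
    (a : Fin i → ℂ) (U : Matrix ((Fin i × Fin i) ⊕ Fin i) (Fin i × Fin i) ℂ)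
    (K : Matrix (Fin i × Fin i) (Fin i × Fin i) ℂ) (hK : IsUnit K.det)
    (hU : U.conjTranspose * U = 1) (hB : S⁻¹ * Ja a = U * K) (G : MvPolynomial ι ℂ) :
    ∃ c : ℝ, 0 < c ∧
      ∫ T : Fin i → Fin i → ℂ,
        (phi γ Q G (M.mulVec (S⁻¹.mulVec (Sum.elim (fun u => T u.1 u.2)
            ((Matrix.of T).mulVec a)))) *
          ((Real.exp (-∑ h, ‖S⁻¹.mulVec (Sum.elim (fun u => T u.1 u.2)
            ((Matrix.of T).mulVec a)) h‖ ^ 2) : ℝ) : ℂ)) *
          ((‖(Matrix.of T).det‖ ^ 2 : ℝ) : ℂ) =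
      (c : ℂ) * W ((M * U) * (M * U).conjTranspose + γ) (detT e * G) (detT e * G) := by
  have hT := s3_haarT i
  obtain ⟨c1, hc1, h1⟩ := s3_haar (volume : Measure (Fin i → Fin i → ℂ)) (volume : Measure (Fin i × Fin i → ℂ)) (s3_L i)
  obtain ⟨c2, hc2, h2⟩ := k2_gauss K hK
  refine ⟨c1 * c2, mul_pos hc1 hc2, ?_⟩
  have hSU : S * U = Ja a * K⁻¹ := by
    have : S * (S⁻¹ * Ja a) = S * (U * K) := by rw [hB]
    rw [← Matrix.mul_assoc, Matrix.mul_nonsing_inv _ hS, Matrix.one_mul, ← Matrix.mul_assoc] at this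
    rw [this, Matrix.mul_assoc, Matrix.mul_nonsing_inv _ hK, Matrix.mul_one]
  -- the values of the coordinates
  have hv : ∀ (x : Fin i × Fin i → ℂ) (u : Fin i × Fin i),
      (M * U).mulVec x (e (Sum.inl u)) = K⁻¹.mulVec x u := by
    intro x u
    have e1 : (M * U).mulVec x (e (Sum.inl u)) = (S * U).mulVec x (Sum.inl u) := by
      rw [← hM]
      rfl
    rw [e1, hSU, ← Matrix.mulVec_mulVec]
    simp only [Matrix.mulVec, dotProduct, Ja, ite_mul, one_mul, zero_mul,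
      Finset.sum_ite_eq, Finset.mem_univ, if_true]
  set F : (Fin i × Fin i → ℂ) → ℂ := fun x => phi γ Q (detT e * G) ((M * U).mulVec x) with hF
  have h3 : ∀ T : Fin i → Fin i → ℂ,
        (phi γ Q G (M.mulVec (S⁻¹.mulVec (Sum.elim (fun u => T u.1 u.2)
            ((Matrix.of T).mulVec a)))) *
          ((Real.exp (-∑ h, ‖S⁻¹.mulVec (Sum.elim (fun u => T u.1 u.2)
            ((Matrix.of T).mulVec a)) h‖ ^ 2) : ℝ) : ℂ)) *
          ((‖(Matrix.of T).det‖ ^ 2 : ℝ) : ℂ) =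
        (fun t : Fin i × Fin i → ℂ => F (K.mulVec t) * ((Real.exp (-∑ s, ‖K.mulVec t s‖ ^ 2) : ℝ) : ℂ)) (s3_L i T) := by
    intro T
    have e1 : S⁻¹.mulVec ((Ja a).mulVec (s3_L i T)) = U.mulVec (K.mulVec (s3_L i T)) := by
      rw [Matrix.mulVec_mulVec, hB, ← Matrix.mulVec_mulVec]
    rw [s3_Ja, e1, s3_norm U hU]
    simp only [hF]
    rw [s3_phi e γ Q hγ0 hQ0]
    have e2 : (Matrix.of fun p q : Fin i => (M * U).mulVec (K.mulVec (s3_L i T)) (e (Sum.inl (p, q)))) = Matrix.of T := by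
      ext p q
      rw [Matrix.of_apply, hv, Matrix.mulVec_mulVec, Matrix.nonsing_inv_mul _ hK, Matrix.one_mulVec]
      rfl
    rw [e2, Matrix.mulVec_mulVec]
    ring
  refine (integral_congr_ae (Filter.Eventually.of_forall h3)).trans ((h1 (fun t : Fin i × Fin i → ℂ =>
    F (K.mulVec t) * ((Real.exp (-∑ s, ‖K.mulVec t s‖ ^ 2) : ℝ) : ℂ))).trans ?_)
  rw [h2, (g5_split (M * U) γ Q hQ (detT e * G)).2]
  push_cast
  rw [mul_assoc]

end H2K
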