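import Pool.Agent.Lib.H2K.G4

/-!
# H2K chunk X1 (M): Lemma X, the integral identity behind it

`β = [[a aᴴ, c], [cᴴ, b bᴴ]]` (blocks `A`, `B`); `c` arbitrary.  On the variables `(g1, g2, h1, h2)` with
`g1 : A → ℂ`, `g2 : B → ℂ`, `h1 : B → ℂ`, `h2 : A → ℂ` put
  `M = [a, 0, c, 0; 0, b, 0, cᴴ]`,   `N = [a, 0, 0, 1; 0, b, 1, 0]`   (rows `A`, `B`);  `M Nᴴ = β`.
So (`g4_W`) `W β (f g) (f g) = ∫ f(a g1 + c h1) g(b g2 + cᴴ h2) conj(f(a g1 + h2)) conj(g(b g2 + h1))`.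
Fubini over `(g1, g2)`, `h1`, `h2` (`measurePreserving_sumPiEquivProdPi`): the integral over `(h1, h2)` is
`K(g1,g2) K'(g1,g2)`, `K = ∫ f(a g1 + c h1) conj(g(b g2 + h1)) = WS (a g1) (b g2) c 1 f g`,
`K' = ∫ g(b g2 + cᴴ h2) conj(f(a g1 + h2)) = WS (b g2) (a g1) cᴴ 1 g f`.  By `g4_swap`
`conj K = WS (b g2) (a g1) 1 c g f` and by `g4_li` (`1 * cᴴ = cᴴ * 1ᴴ`) `K' = conj K`.
Hence `W β (f g) (f g) = ∫ |K|²`.  Suggested types: `(A ⊕ B) ⊕ (B ⊕ A)`; integrability from `g4_int`.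
-/

open MeasureTheory MvPolynomial

namespace H2K

instance x1_prob : IsProbabilityMeasure stdG := g1_prob

instance x1_probG (r : Type) [Fintype r] : IsProbabilityMeasure (muG r) := g2_prob r

/-- the four blocks of variables -/
def x1_T {A B : Type} (q : ((A → ℂ) × (B → ℂ)) × ((B → ℂ) × (A → ℂ))) :
    (A ⊕ B) ⊕ (B ⊕ A) → ℂ :=
  Sum.elim (Sum.elim q.1.1 q.1.2) (Sum.elim q.2.1 q.2.2)

noncomputable def x1_equiv (A B : Type) : (((A → ℂ) × (B → ℂ)) × ((B → ℂ) × (A → ℂ))) ≃ᵐ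
    ((A ⊕ B) ⊕ (B ⊕ A) → ℂ) :=
  (MeasurableEquiv.prodCongr (MeasurableEquiv.sumPiEquivProdPi (fun _ : A ⊕ B => ℂ)).symm
    (MeasurableEquiv.sumPiEquivProdPi (fun _ : B ⊕ A => ℂ)).symm).trans
    (MeasurableEquiv.sumPiEquivProdPi (fun _ : (A ⊕ B) ⊕ (B ⊕ A) => ℂ)).symm

theorem x1_equiv_apply {A B : Type} (q : ((A → ℂ) × (B → ℂ)) × ((B → ℂ) × (A → ℂ))) :
    x1_equiv A B q = x1_T q := by
  funext i
  rcases i with (i | i) | (i | i) <;> rfl

theorem x1_mp (A B : Type) [Fintype A] [Fintype B] :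
    MeasurePreserving (x1_equiv A B)
      (((muG A).prod (muG B)).prod ((muG B).prod (muG A))) (muG ((A ⊕ B) ⊕ (B ⊕ A))) := by
  have h1 : MeasurePreserving (MeasurableEquiv.sumPiEquivProdPi (fun _ : A ⊕ B => ℂ)).symm
      ((muG A).prod (muG B)) (muG (A ⊕ B)) :=
    measurePreserving_sumPiEquivProdPi_symm (fun _ : A ⊕ B => stdG)
  have h2 : MeasurePreserving (MeasurableEquiv.sumPiEquivProdPi (fun _ : B ⊕ A => ℂ)).symm
      ((muG B).prod (muG A)) (muG (B ⊕ A)) :=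
    measurePreserving_sumPiEquivProdPi_symm (fun _ : B ⊕ A => stdG)
  have h3 : MeasurePreserving
      (MeasurableEquiv.sumPiEquivProdPi (fun _ : (A ⊕ B) ⊕ (B ⊕ A) => ℂ)).symm
      ((muG (A ⊕ B)).prod (muG (B ⊕ A))) (muG ((A ⊕ B) ⊕ (B ⊕ A))) :=
    measurePreserving_sumPiEquivProdPi_symm (fun _ : (A ⊕ B) ⊕ (B ⊕ A) => stdG)
  exact h3.comp (h1.prod h2)

theorem x1_beta {A B : Type} [Fintype A] [Fintype B] [DecidableEq A] [DecidableEq B]
    (a : Matrix A A ℂ) (b : Matrix B B ℂ) (c : Matrix A B ℂ) :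
    Matrix.fromBlocks (a * a.conjTranspose) c c.conjTranspose (b * b.conjTranspose) =
    Matrix.fromCols (Matrix.fromBlocks a 0 0 b) (Matrix.fromBlocks c 0 0 c.conjTranspose) *
      (Matrix.fromCols (Matrix.fromBlocks a 0 0 b)
        (Matrix.fromBlocks (0 : Matrix A B ℂ) (1 : Matrix A A ℂ) (1 : Matrix B B ℂ)
          (0 : Matrix B A ℂ))).conjTranspose := by
  rw [Matrix.conjTranspose_fromCols_eq_fromRows_conjTranspose, Matrix.fromCols_mul_fromRows,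
    Matrix.fromBlocks_conjTranspose, Matrix.fromBlocks_conjTranspose, Matrix.fromBlocks_multiply,
    Matrix.fromBlocks_multiply, Matrix.fromBlocks_add]
  simp

theorem x1_M_inl {A B : Type} [Fintype A] [Fintype B]
    (a : Matrix A A ℂ) (b : Matrix B B ℂ) (c : Matrix A B ℂ) (d : Matrix B A ℂ)
    (q : ((A → ℂ) × (B → ℂ)) × ((B → ℂ) × (A → ℂ))) :
    ((Matrix.fromCols (Matrix.fromBlocks a 0 0 b) (Matrix.fromBlocks c 0 0 d)).mulVec
      (x1_T q)) ∘ Sum.inl = a.mulVec q.1.1 + c.mulVec q.2.1 := by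
  funext i
  simp [x1_T, Matrix.mulVec, dotProduct, Fintype.sum_sum_type]

theorem x1_M_inr {A B : Type} [Fintype A] [Fintype B]
    (a : Matrix A A ℂ) (b : Matrix B B ℂ) (c : Matrix A B ℂ) (d : Matrix B A ℂ)
    (q : ((A → ℂ) × (B → ℂ)) × ((B → ℂ) × (A → ℂ))) :
    ((Matrix.fromCols (Matrix.fromBlocks a 0 0 b) (Matrix.fromBlocks c 0 0 d)).mulVec
      (x1_T q)) ∘ Sum.inr = b.mulVec q.1.2 + d.mulVec q.2.2 := by
  funext i
  simp [x1_T, Matrix.mulVec, dotProduct, Fintype.sum_sum_type]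

theorem x1_N_inl {A B : Type} [Fintype A] [Fintype B] [DecidableEq A] [DecidableEq B]
    (a : Matrix A A ℂ) (b : Matrix B B ℂ)
    (q : ((A → ℂ) × (B → ℂ)) × ((B → ℂ) × (A → ℂ))) :
    ((Matrix.fromCols (Matrix.fromBlocks a 0 0 b) (Matrix.fromBlocks (0 : Matrix A B ℂ)
      (1 : Matrix A A ℂ) (1 : Matrix B B ℂ) (0 : Matrix B A ℂ))).mulVec
      (x1_T q)) ∘ Sum.inl = a.mulVec q.1.1 + (1 : Matrix A A ℂ).mulVec q.2.2 := by
  funext i
  simp [x1_T, Matrix.mulVec, dotProduct, Fintype.sum_sum_type, Matrix.one_apply]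

theorem x1_N_inr {A B : Type} [Fintype A] [Fintype B] [DecidableEq A] [DecidableEq B]
    (a : Matrix A A ℂ) (b : Matrix B B ℂ)
    (q : ((A → ℂ) × (B → ℂ)) × ((B → ℂ) × (A → ℂ))) :
    ((Matrix.fromCols (Matrix.fromBlocks a 0 0 b) (Matrix.fromBlocks (0 : Matrix A B ℂ)
      (1 : Matrix A A ℂ) (1 : Matrix B B ℂ) (0 : Matrix B A ℂ))).mulVec
      (x1_T q)) ∘ Sum.inr = b.mulVec q.1.2 + (1 : Matrix B B ℂ).mulVec q.2.1 := by
  funext i
  simp [x1_T, Matrix.mulVec, dotProduct, Fintype.sum_sum_type, Matrix.one_apply]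

theorem x1_conj {A B : Type} [Fintype A] [Fintype B] [DecidableEq A] [DecidableEq B]
    (u : A → ℂ) (v : B → ℂ) (c : Matrix A B ℂ)
    (f : MvPolynomial A ℂ) (g : MvPolynomial B ℂ) :
    WS v u c.conjTranspose (1 : Matrix A A ℂ) g f =
      (starRingEnd ℂ) (WS u v c (1 : Matrix B B ℂ) f g) := by
  rw [g4_li v u c.conjTranspose (1 : Matrix A A ℂ) (1 : Matrix B B ℂ) c (by simp) g f, g4_swap]

theorem x1_identity {A B : Type} [Fintype A] [Fintype B] [DecidableEq A] [DecidableEq B]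
    (a : Matrix A A ℂ) (b : Matrix B B ℂ) (c : Matrix A B ℂ)
    (f : MvPolynomial A ℂ) (g : MvPolynomial B ℂ) :
    W (Matrix.fromBlocks (a * a.conjTranspose) c c.conjTranspose (b * b.conjTranspose))
      (rename Sum.inl f * rename Sum.inr g) (rename Sum.inl f * rename Sum.inr g) =
    ∫ p : (A → ℂ) × (B → ℂ), WS (a.mulVec p.1) (b.mulVec p.2) c (1 : Matrix B B ℂ) f g *
      (starRingEnd ℂ) (WS (a.mulVec p.1) (b.mulVec p.2) c (1 : Matrix B B ℂ) f g)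
      ∂(muG A).prod (muG B) := by
  rw [x1_beta, g4_W]
  unfold WW
  have key : ∀ q : ((A → ℂ) × (B → ℂ)) × ((B → ℂ) × (A → ℂ)),
      eval ((Matrix.fromCols (Matrix.fromBlocks a 0 0 b)
        (Matrix.fromBlocks c 0 0 c.conjTranspose)).mulVec (x1_equiv A B q))
        (rename Sum.inl f * rename Sum.inr g) *
      (starRingEnd ℂ) (eval ((Matrix.fromCols (Matrix.fromBlocks a 0 0 b)
        (Matrix.fromBlocks (0 : Matrix A B ℂ) (1 : Matrix A A ℂ) (1 : Matrix B B ℂ)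
          (0 : Matrix B A ℂ))).mulVec (x1_equiv A B q))
        (rename Sum.inl f * rename Sum.inr g)) =
      (eval (a.mulVec q.1.1 + c.mulVec q.2.1) f *
        (starRingEnd ℂ) (eval (b.mulVec q.1.2 + (1 : Matrix B B ℂ).mulVec q.2.1) g)) *
      (eval (b.mulVec q.1.2 + c.conjTranspose.mulVec q.2.2) g *
        (starRingEnd ℂ) (eval (a.mulVec q.1.1 + (1 : Matrix A A ℂ).mulVec q.2.2) f)) := by
    intro q
    rw [x1_equiv_apply, map_mul, map_mul, map_mul, eval_rename, eval_rename, eval_rename,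
      eval_rename, x1_M_inl, x1_M_inr, x1_N_inl, x1_N_inr]
    ring
  have hint := g2_int (aff 0 (Matrix.fromCols (Matrix.fromBlocks a 0 0 b)
        (Matrix.fromBlocks c 0 0 c.conjTranspose)) (rename Sum.inl f * rename Sum.inr g))
      (aff 0 (Matrix.fromCols (Matrix.fromBlocks a 0 0 b)
        (Matrix.fromBlocks (0 : Matrix A B ℂ) (1 : Matrix A A ℂ) (1 : Matrix B B ℂ)
          (0 : Matrix B A ℂ))) (rename Sum.inl f * rename Sum.inr g))
  simp only [eval_aff, zero_add] at hint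
  have hint2 := (x1_mp A B).integrable_comp_emb (x1_equiv A B).measurableEmbedding |>.mpr hint
  rw [← (x1_mp A B).integral_comp' ]
  simp only [Function.comp_def, key] at hint2
  simp only [key]
  rw [integral_prod _ hint2]
  refine integral_congr_ae (Filter.Eventually.of_forall fun p => ?_)
  change ∫ y : (B → ℂ) × (A → ℂ), (eval (a.mulVec p.1 + c.mulVec y.1) f *
        (starRingEnd ℂ) (eval (b.mulVec p.2 + (1 : Matrix B B ℂ).mulVec y.1) g)) *
      (eval (b.mulVec p.2 + c.conjTranspose.mulVec y.2) g *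
        (starRingEnd ℂ) (eval (a.mulVec p.1 + (1 : Matrix A A ℂ).mulVec y.2) f))
        ∂(muG B).prod (muG A) = _
  rw [integral_prod_mul (fun y : B → ℂ => eval (a.mulVec p.1 + c.mulVec y) f *
        (starRingEnd ℂ) (eval (b.mulVec p.2 + (1 : Matrix B B ℂ).mulVec y) g))
      (fun y : A → ℂ => eval (b.mulVec p.2 + c.conjTranspose.mulVec y) g *
        (starRingEnd ℂ) (eval (a.mulVec p.1 + (1 : Matrix A A ℂ).mulVec y) f))]
  change _ = WS (a.mulVec p.1) (b.mulVec p.2) c (1 : Matrix B B ℂ) f g *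
      (starRingEnd ℂ) (WS (a.mulVec p.1) (b.mulVec p.2) c (1 : Matrix B B ℂ) f g)
  rw [← x1_conj]
  rfl

end H2K
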